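import Pool.Agent.Helper36.HD.Defs

set_option autoImplicit false

/-!
HD-13 RootBound. Elementary bounds with `M = Mf f`, the largest absolute value of a coefficient.

PROOF. `coeff_le_Mf`: `Finset.le_sup` (zero coefficients trivially). `norm_root_le`: if `‖θ‖ ≤ 1` then
`‖a θ‖ ≤ |a| ≤ M`. If `‖θ‖ > 1` then from `a θ^d = - ∑_(i<d) a_i θ^i`: `|a| ‖θ‖^d ≤ M (‖θ‖^d - 1)/(‖θ‖ - 1)`, so
`|a| (‖θ‖ - 1) ≤ M`, `‖a θ‖ ≤ |a| + M ≤ 2M` (`a = leadingCoeff`, `d = natDegree ≥ 1`).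
`real_root_lt`, `neg_of_lt`: for monic `f` of degree `d ≥ 1` and real `t` with `|t| ≥ 1 + M` (`M ≥ 1`, the
leading coefficient is 1): `|f(t) - t^d| ≤ M (|t|^d - 1)/(|t| - 1) ≤ |t|^d - 1 < |t|^d`, so `f(t) ≠ 0`, and if
`d` is odd and `t ≤ -(1 + M)` then `f(t) < 0`.
-/

open Polynomial

namespace Pool.Agent.Helper36.HD

theorem coeff_le_Mf (f : ℤ[X]) (i : ℕ) : |((f.coeff i : ℤ) : ℝ)| ≤ (Mf f : ℝ) := by
  by_cases h : i ∈ f.support
  · have h1 : (f.coeff i).natAbs ≤ Mf f := Finset.le_sup (f := fun i => (f.coeff i).natAbs) h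
    have h2 : (((f.coeff i).natAbs : ℕ) : ℝ) ≤ (Mf f : ℝ) := by exact_mod_cast h1
    rwa [Nat.cast_natAbs, Int.cast_abs] at h2
  · have h0 : f.coeff i = 0 := by simpa using h
    rw [h0]; simp

theorem one_le_Mf (f : ℤ[X]) (hf : f ≠ 0) : 1 ≤ Mf f := by
  have h1 : (f.coeff f.natDegree).natAbs ≤ Mf f :=
    Finset.le_sup (f := fun i => (f.coeff i).natAbs) (Polynomial.natDegree_mem_support_of_nonzero hf)
  have h2 : f.coeff f.natDegree ≠ 0 := by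
    simpa using hf
  have h3 := Int.natAbs_pos.mpr h2
  omega

/-- the sum of the lower terms -/
private theorem lower_bound_aux {K : Type} [NormedField K] (f : ℤ[X])
    (hK : ∀ n : ℤ, ‖(n : K)‖ = |(n : ℝ)|) (t : K) (ht : 1 < ‖t‖) :
    ‖(f.map (Int.castRingHom K)).eval t - (f.leadingCoeff : K) * t ^ f.natDegree‖ * (‖t‖ - 1) ≤
      (Mf f : ℝ) * (‖t‖ ^ f.natDegree - 1) := by
  have h1 : (f.map (Int.castRingHom K)).eval t - (f.leadingCoeff : K) * t ^ f.natDegree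
      = ∑ i ∈ Finset.range f.natDegree, (f.coeff i : K) * t ^ i := by
    rw [Polynomial.eval_map, Polynomial.eval₂_eq_sum_range, Finset.sum_range_succ]
    rw [← Polynomial.coeff_natDegree, eq_intCast]
    simp
  have h2 : ‖∑ i ∈ Finset.range f.natDegree, (f.coeff i : K) * t ^ i‖ ≤
      ∑ i ∈ Finset.range f.natDegree, (Mf f : ℝ) * ‖t‖ ^ i := by
    refine (norm_sum_le _ _).trans (Finset.sum_le_sum fun i _ => ?_)
    rw [norm_mul, norm_pow, hK]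
    exact mul_le_mul_of_nonneg_right (coeff_le_Mf f i) (by positivity)
  have h3 : (∑ i ∈ Finset.range f.natDegree, (Mf f : ℝ) * ‖t‖ ^ i) * (‖t‖ - 1) =
      (Mf f : ℝ) * (‖t‖ ^ f.natDegree - 1) := by
    rw [← Finset.mul_sum, mul_assoc, geom_sum_mul]
  rw [h1, ← h3]
  exact mul_le_mul_of_nonneg_right h2 (by linarith)

private theorem lead_lt_aux {K : Type} [NormedField K] (f : ℤ[X])
    (hK : ∀ n : ℤ, ‖(n : K)‖ = |(n : ℝ)|) (hf : f ≠ 0) (t : K) (ht : 1 < ‖t‖)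
    (h0 : (f.map (Int.castRingHom K)).eval t = 0) :
    |(f.leadingCoeff : ℝ)| * (‖t‖ - 1) < (Mf f : ℝ) := by
  have h1 := lower_bound_aux f hK t ht
  rw [h0, zero_sub, norm_neg, norm_mul, norm_pow, hK] at h1
  have hM : (1 : ℝ) ≤ (Mf f : ℝ) := by exact_mod_cast one_le_Mf f hf
  have hp : 0 < ‖t‖ ^ f.natDegree := by positivity
  have h2 : |(f.leadingCoeff : ℝ)| * (‖t‖ - 1) * ‖t‖ ^ f.natDegree < (Mf f : ℝ) * ‖t‖ ^ f.natDegree := by
    nlinarith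
  exact lt_of_mul_lt_mul_right h2 hp.le

theorem norm_root_le (f : ℤ[X]) (hd : 1 ≤ f.natDegree) (θ : ℂ) (hθ : (f.map (Int.castRingHom ℂ)).eval θ = 0) :
    ‖(f.leadingCoeff : ℂ) * θ‖ ≤ 2 * (Mf f : ℝ) := by
  have hf : f ≠ 0 := by
    rintro rfl; simp at hd
  have hK : ∀ n : ℤ, ‖(n : ℂ)‖ = |(n : ℝ)| := fun n => by simp
  have hM : (1 : ℝ) ≤ (Mf f : ℝ) := by exact_mod_cast one_le_Mf f hf
  have hl : |(f.leadingCoeff : ℝ)| ≤ (Mf f : ℝ) := coeff_le_Mf f f.natDegree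
  rw [norm_mul, hK]
  rcases le_or_gt ‖θ‖ 1 with h | h
  · have h1 : |(f.leadingCoeff : ℝ)| * ‖θ‖ ≤ |(f.leadingCoeff : ℝ)| * 1 :=
      mul_le_mul_of_nonneg_left h (abs_nonneg _)
    linarith
  · have h1 := lead_lt_aux f hK hf θ h hθ
    nlinarith

theorem real_root_lt (f : ℤ[X]) (hm : f.Monic) (hd : 1 ≤ f.natDegree) (t : ℝ)
    (ht : (f.map (Int.castRingHom ℝ)).eval t = 0) : |t| < 1 + (Mf f : ℝ) := by
  have hf : f ≠ 0 := hm.ne_zero
  have hK : ∀ n : ℤ, ‖(n : ℝ)‖ = |(n : ℝ)| := fun n => Real.norm_eq_abs _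
  have hM : (1 : ℝ) ≤ (Mf f : ℝ) := by exact_mod_cast one_le_Mf f hf
  rcases le_or_gt |t| 1 with h | h
  · linarith
  · have h1 := lead_lt_aux f hK hf t (by rwa [Real.norm_eq_abs]) ht
    rw [hm.leadingCoeff, Real.norm_eq_abs] at h1
    simp only [Int.cast_one, abs_one, one_mul] at h1
    linarith

theorem neg_of_lt (f : ℤ[X]) (hm : f.Monic) (hd : Odd f.natDegree) (x : ℤ)
    (hx : (x : ℝ) ≤ -(1 + (Mf f : ℝ))) : f.eval x < 0 := by
  have hf : f ≠ 0 := hm.ne_zero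
  have hK : ∀ n : ℤ, ‖(n : ℝ)‖ = |(n : ℝ)| := fun n => Real.norm_eq_abs _
  have hM : (1 : ℝ) ≤ (Mf f : ℝ) := by exact_mod_cast one_le_Mf f hf
  have hneg : (x : ℝ) < 0 := by linarith
  have habs : ‖(x : ℝ)‖ = -(x : ℝ) := by rw [Real.norm_eq_abs, abs_of_neg hneg]
  have h1 := lower_bound_aux f hK (x : ℝ) (by rw [habs]; linarith)
  rw [hm.leadingCoeff, Int.cast_one, one_mul, habs, Real.norm_eq_abs] at h1
  have hpow : (-(x : ℝ)) ^ f.natDegree = -((x : ℝ) ^ f.natDegree) := hd.neg_pow _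
  rw [hpow] at h1
  set e : ℝ := (f.map (Int.castRingHom ℝ)).eval (x : ℝ) with he
  have hE : e = ((f.eval x : ℤ) : ℝ) := by
    rw [he, Polynomial.eval_map]
    exact Polynomial.eval₂_at_apply (Int.castRingHom ℝ) x
  have hP : 1 ≤ -((x : ℝ) ^ f.natDegree) := by
    rw [← hpow]
    exact one_le_pow₀ (by linarith)
  have h2 : |e - (x : ℝ) ^ f.natDegree| * (Mf f : ℝ) ≤ |e - (x : ℝ) ^ f.natDegree| * (-(x : ℝ) - 1) :=
    mul_le_mul_of_nonneg_left (by linarith) (abs_nonneg _)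
  have h3 : (Mf f : ℝ) * |e - (x : ℝ) ^ f.natDegree| ≤ (Mf f : ℝ) * (-((x : ℝ) ^ f.natDegree) - 1) := by
    linarith
  have h4 : |e - (x : ℝ) ^ f.natDegree| ≤ -((x : ℝ) ^ f.natDegree) - 1 :=
    le_of_mul_le_mul_left h3 (by linarith)
  have h5 := le_abs_self (e - (x : ℝ) ^ f.natDegree)
  have h6 : e < 0 := by linarith
  rw [hE] at h6
  exact_mod_cast h6

end Pool.Agent.Helper36.HD
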