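import Pool.Agent.Helper36.HD.Abs
import Pool.Agent.Helper36.HD.RootBound

set_option autoImplicit false

/-!
HD-14 TransT. THEOREM T: if `2^(d-1)` does not divide `n` then the Hall-Lang bound holds for all integers `x` such
that `a (x - θ)` is a square in `K[X]/(f)` for a number field `K` of degree `n`.

PROOF. Fix `ι : Ω → ℂ` (`Ω = AlgebraicClosure ℚ`, `IsAlgClosed.lift`), `C, c` from `abs_main ι n d`.
Given `f, x, K, z`: `E = K →ₐ[ℚ] Ω` (`AlgHom.card`: `card E = n`), `R` = the roots of `f` in `Ω` (as a subtype of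
`Finset` or `rootSet`; `card R = d` as `f` is separable over `ℚ`), `a = leadingCoeff`,
`η θ = a θ` (injective as `a ≠ 0`, integral over `ℤ`), `ζ σ θ = 2 (z.map σ).eval θ`, `V = 4 a x`,
`H = 2 Mf f ≥ 1` (`norm_root_le` for the root `ι θ`). Evaluating `σ` of the divisibility at `θ`:
`(z^σ(θ))^2 = a (x - θ)`, so `ζ^2 = V - 4 η`. `Equi`: for `τ`, `π σ = τ ∘ σ`, `φ θ = τ θ`, and
`τ (z^σ(θ)) = z^(τ σ)(τ θ)`. As `2^(d-1)` does not divide `n`, `|V| ≤ C H^c`; if `x ≠ 0`,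
`|x| ≤ 4 |a| |x| = |V| ≤ C 2^c M^c`, so `log (max |x| 1) ≤ c log M + log (C 2^c)` (also for `x = 0`), `M ≥ 1`.
(For `d = 0` the hypothesis `hn` fails as `2^(0-1) = 1`; `d = 1` also.)
-/

open Polynomial

namespace Pool.Agent.Helper36.HD

private theorem t14_emb : Nonempty (AlgebraicClosure ℚ →+* ℂ) := by
  let A : Algebra ℚ (AlgebraicClosure ℚ) := AlgebraicClosure.instAlgebra ℚ
  have h : Algebra.IsAlgebraic ℚ (AlgebraicClosure ℚ) := AlgebraicClosure.isAlgebraic ℚ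
  exact ⟨(IsAlgClosed.lift (R := ℚ) (S := AlgebraicClosure ℚ) (M := ℂ)).toRingHom⟩

private theorem t14_root {f : ℤ[X]} {θ : AlgebraicClosure ℚ}
    (hθ : θ ∈ (f.map (Int.castRingHom ℚ)).rootSet (AlgebraicClosure ℚ)) :
    f.eval₂ (Int.castRingHom (AlgebraicClosure ℚ)) θ = 0 := by
  have h1 := Polynomial.aeval_eq_zero_of_mem_rootSet hθ
  rw [Polynomial.aeval_def, Polynomial.eval₂_map] at h1
  rw [← h1]
  congr 1

private theorem t14_integral {f : ℤ[X]} {θ : AlgebraicClosure ℚ}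
    (h : f.eval₂ (Int.castRingHom (AlgebraicClosure ℚ)) θ = 0) :
    IsIntegral ℤ ((f.leadingCoeff : AlgebraicClosure ℚ) * θ) := by
  have h1 : (aeval θ) f = 0 := by
    rw [Polynomial.aeval_def]
    exact h
  have h2 := isIntegral_leadingCoeff_smul f θ h1
  rwa [Algebra.smul_def, eq_intCast] at h2

private theorem t14_sq {f : ℤ[X]} {θ : AlgebraicClosure ℚ} {x : ℤ} {K : Type} [Field K] [NumberField K]
    (h : f.eval₂ (Int.castRingHom (AlgebraicClosure ℚ)) θ = 0) (z : K[X])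
    (hz : f.map (Int.castRingHom K) ∣ z ^ 2 - C (f.leadingCoeff : K) * (C (x : K) - X))
    (σ : K →ₐ[ℚ] AlgebraicClosure ℚ) :
    (2 * z.eval₂ (σ : K →+* AlgebraicClosure ℚ) θ) ^ 2 =
      ((4 * f.leadingCoeff * x : ℤ) : AlgebraicClosure ℚ) - 4 * ((f.leadingCoeff : AlgebraicClosure ℚ) * θ) := by
  obtain ⟨w, hw⟩ := hz
  have h1 := congrArg (Polynomial.eval₂ (σ : K →+* AlgebraicClosure ℚ) θ) hw
  have h2 : (f.map (Int.castRingHom K)).eval₂ (σ : K →+* AlgebraicClosure ℚ) θ = 0 := by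
    rw [Polynomial.eval₂_map, ← h]
    congr 1
    exact RingHom.ext_int _ _
  rw [Polynomial.eval₂_mul, h2, zero_mul, Polynomial.eval₂_sub, Polynomial.eval₂_pow, Polynomial.eval₂_mul,
    Polynomial.eval₂_sub, Polynomial.eval₂_C, Polynomial.eval₂_C, Polynomial.eval₂_X] at h1
  simp only [map_intCast] at h1
  push_cast
  linear_combination 4 * h1

private theorem t14_equi {f : ℤ[X]} {K : Type} [Field K] [NumberField K] (z : K[X]) :
    Equi (E := K →ₐ[ℚ] AlgebraicClosure ℚ)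
      (R := (f.map (Int.castRingHom ℚ)).rootSet (AlgebraicClosure ℚ))
      (fun θ => (f.leadingCoeff : AlgebraicClosure ℚ) * θ)
      (fun σ θ => 2 * z.eval₂ (σ : K →+* AlgebraicClosure ℚ) θ) := by
  intro τ
  have hmem : ∀ (τ : AlgebraicClosure ℚ ≃ₐ[ℚ] AlgebraicClosure ℚ) (θ : AlgebraicClosure ℚ),
      θ ∈ (f.map (Int.castRingHom ℚ)).rootSet (AlgebraicClosure ℚ) →
      τ θ ∈ (f.map (Int.castRingHom ℚ)).rootSet (AlgebraicClosure ℚ) := by
    intro τ θ hθ
    rw [Polynomial.mem_rootSet] at hθ ⊢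
    refine ⟨hθ.1, ?_⟩
    have h1 := Polynomial.aeval_algHom_apply (τ : AlgebraicClosure ℚ →ₐ[ℚ] AlgebraicClosure ℚ) θ
      (f.map (Int.castRingHom ℚ))
    rw [hθ.2, map_zero] at h1
    exact h1
  refine ⟨⟨fun σ => (τ : AlgebraicClosure ℚ →ₐ[ℚ] AlgebraicClosure ℚ).comp σ,
      fun σ => (τ.symm : AlgebraicClosure ℚ →ₐ[ℚ] AlgebraicClosure ℚ).comp σ, ?_, ?_⟩,
    ⟨fun θ => ⟨τ θ, hmem τ _ θ.2⟩, fun θ => ⟨τ.symm θ, hmem τ.symm _ θ.2⟩, ?_, ?_⟩, ?_, ?_⟩
  · intro σ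
    ext y
    simp
  · intro σ
    ext y
    simp
  · intro θ
    apply Subtype.ext
    simp
  · intro θ
    apply Subtype.ext
    simp
  · intro θ
    simp
  · intro σ θ
    have h1 := Polynomial.hom_eval₂ z (σ : K →+* AlgebraicClosure ℚ)
      ((τ : AlgebraicClosure ℚ →ₐ[ℚ] AlgebraicClosure ℚ) : AlgebraicClosure ℚ →+* AlgebraicClosure ℚ)
      (θ : AlgebraicClosure ℚ)
    have h2 : τ (2 * z.eval₂ (σ : K →+* AlgebraicClosure ℚ) θ) =
        2 * τ (z.eval₂ (σ : K →+* AlgebraicClosure ℚ) θ) := by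
      rw [map_mul, map_ofNat]
    simp only
    rw [h2]
    congr 1

theorem transT (d n : ℕ) (hn : ¬ 2 ^ (d - 1) ∣ n) :
    ∃ C₁ C₂ : ℝ, ∀ f : ℤ[X], f.natDegree = d → (f.map (Int.castRingHom ℚ)).Separable →
      ∀ (x : ℤ) (K : Type) [Field K] [NumberField K], Module.finrank ℚ K = n →
      (∃ z : K[X], f.map (Int.castRingHom K) ∣
        z ^ 2 - C (f.leadingCoeff : K) * (C (x : K) - X)) →
      Real.log (max |(x : ℝ)| 1) ≤ C₁ * Real.log (max (Mf f : ℝ) 1) + C₂ := by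
  classical
  obtain ⟨ι⟩ := t14_emb
  obtain ⟨Cc, c, hC1, hmain⟩ := abs_main ι n d
  refine ⟨(c : ℝ), Real.log (Cc * 2 ^ c), ?_⟩
  intro f hd hsep x K _ _ hfin hz
  obtain ⟨z, hz⟩ := hz
  have hd2 : 2 ≤ d := by
    by_contra h
    have h1 : d - 1 = 0 := by omega
    rw [h1, pow_zero] at hn
    exact hn (one_dvd n)
  have hf0 : f ≠ 0 := by
    rintro rfl
    simp at hd
    omega
  have ha : f.leadingCoeff ≠ 0 := Polynomial.leadingCoeff_ne_zero.2 hf0
  have haΩ : (f.leadingCoeff : AlgebraicClosure ℚ) ≠ 0 := by exact_mod_cast ha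
  have hM1 : 1 ≤ Mf f := one_le_Mf f hf0
  have hM : (1 : ℝ) ≤ (Mf f : ℝ) := by exact_mod_cast hM1
  have hcardE : Fintype.card (K →ₐ[ℚ] AlgebraicClosure ℚ) = n := by
    rw [← hfin]
    exact AlgHom.card ℚ K (AlgebraicClosure ℚ)
  have hcardR : Fintype.card ((f.map (Int.castRingHom ℚ)).rootSet (AlgebraicClosure ℚ)) = d := by
    rw [Polynomial.card_rootSet_eq_natDegree hsep (IsAlgClosed.splits _),
      Polynomial.natDegree_map_eq_of_injective (by exact Int.cast_injective), hd]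
  have hV : |((4 * f.leadingCoeff * x : ℤ) : ℝ)| ≤ Cc * (2 * (Mf f : ℝ)) ^ c := by
    by_contra hlt
    push Not at hlt
    refine hn (hmain (K →ₐ[ℚ] AlgebraicClosure ℚ)
      ((f.map (Int.castRingHom ℚ)).rootSet (AlgebraicClosure ℚ)) hcardE hcardR
      (fun θ => (f.leadingCoeff : AlgebraicClosure ℚ) * θ)
      (fun σ θ => 2 * z.eval₂ (σ : K →+* AlgebraicClosure ℚ) θ) (4 * f.leadingCoeff * x)
      (2 * (Mf f : ℝ)) ?_ ?_ ?_ ?_ ?_ (t14_equi z) hlt)
    · intro θ θ' h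
      exact Subtype.ext (mul_left_cancel₀ haΩ h)
    · intro θ
      exact t14_integral (t14_root θ.2)
    · linarith
    · intro θ
      have h1 := t14_root θ.2
      have h2 : (f.map (Int.castRingHom ℂ)).eval (ι θ) = 0 := by
        rw [Polynomial.eval_map]
        have h3 := Polynomial.hom_eval₂ f (Int.castRingHom (AlgebraicClosure ℚ)) ι (θ : AlgebraicClosure ℚ)
        rw [h1, map_zero] at h3
        rw [h3]
        congr 1
        exact RingHom.ext_int _ _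
      have h4 := norm_root_le f (by omega) (ι θ) h2
      rwa [map_mul, map_intCast]
    · intro σ θ
      exact t14_sq (t14_root θ.2) z hz σ
  rw [max_eq_left hM]
  have hlogM : 0 ≤ Real.log (Mf f : ℝ) := Real.log_nonneg hM
  have h2c : (1 : ℝ) ≤ 2 ^ c := one_le_pow₀ (by norm_num)
  have hCc : (1 : ℝ) ≤ Cc * 2 ^ c := by nlinarith
  rcases eq_or_ne x 0 with rfl | hx
  · rw [Int.cast_zero, abs_zero, max_eq_right zero_le_one, Real.log_one]
    have := Real.log_nonneg hCc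
    positivity
  · have hx1 : (1 : ℝ) ≤ |(x : ℝ)| := by
      exact_mod_cast Int.one_le_abs hx
    have ha1 : (1 : ℝ) ≤ |(f.leadingCoeff : ℝ)| := by
      exact_mod_cast Int.one_le_abs ha
    rw [max_eq_left hx1]
    have h1 : |(x : ℝ)| ≤ (Cc * 2 ^ c) * (Mf f : ℝ) ^ c := by
      have h2 : |((4 * f.leadingCoeff * x : ℤ) : ℝ)| = 4 * |(f.leadingCoeff : ℝ)| * |(x : ℝ)| := by
        push_cast
        rw [abs_mul, abs_mul]
        norm_num
      rw [h2, mul_pow] at hV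
      nlinarith
    have h3 : Real.log ((Cc * 2 ^ c) * (Mf f : ℝ) ^ c) = Real.log (Cc * 2 ^ c) + c * Real.log (Mf f : ℝ) := by
      rw [Real.log_mul (by positivity) (by positivity), Real.log_pow]
    have h4 := Real.log_le_log (by linarith) h1
    rw [h3] at h4
    linarith

end Pool.Agent.Helper36.HD
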