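import Mathlib

set_option autoImplicit false

/-!
HD-08 Signs. If all sums of the products of signs over the subsets of each even size `2k ≥ 2` vanish, then
`2^(card R - 1)` divides `card E`.

PROOF. For one sign vector `ε`: `∑_(S even) ∏_(i ∈ S) ε_i = (∏ (1 + ε_i) + ∏ (1 - ε_i)) / 2`
(`Finset.prod_one_add` / `Finset.prod_add`: `∏ (1 + ε_i) = ∑_S ∏_S ε`, `∏ (1 - ε_i) = ∑_S (-1)^card S ∏_S ε`).
As `R` is nonempty, of the two products at most one is nonzero: the sum `∏ (1 + ε_i) + ∏ (1 - ε_i)` is
`2^card R` if `ε` is constant and `0` otherwise. Sum over `e` and split the even subsets by size `2k`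
(`Finset.powersetCard`): the part `k = 0` gives `card E`, the parts `k ≥ 1` give `0` by hypothesis. So
`2 card E = 2^card R * n₁` with `n₁` the number of `e` with constant sign vector, and
`card E = 2^(card R - 1) n₁`.
-/

namespace Pool.Agent.Helper36.HD

theorem two_pow_dvd {E R : Type} [Fintype E] [Fintype R] [DecidableEq R] [Nonempty R]
    (ε : E → R → ℤ) (hε : ∀ e i, ε e i = 1 ∨ ε e i = -1)
    (h : ∀ k, 1 ≤ k → ∑ e : E, ∑ S ∈ Finset.powersetCard (2 * k) (Finset.univ : Finset R),
      ∏ i ∈ S, ε e i = 0) :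
    2 ^ (Fintype.card R - 1) ∣ Fintype.card E := by
  -- the two products
  have hprod : ∀ e : E, ∏ i, (1 + ε e i) + ∏ i, (1 - ε e i) =
      ∑ S ∈ (Finset.univ : Finset R).powerset, (1 + (-1) ^ S.card) * ∏ i ∈ S, ε e i := by
    intro e
    have h1 : ∏ i, (1 + ε e i) = ∑ S ∈ (Finset.univ : Finset R).powerset, ∏ i ∈ S, ε e i :=
      Finset.prod_one_add _
    have h2 : ∏ i, (1 - ε e i) =
        ∑ S ∈ (Finset.univ : Finset R).powerset, (-1) ^ S.card * ∏ i ∈ S, ε e i := by
      have h3 : ∏ i, (1 - ε e i) = ∏ i, (1 + (-1) * ε e i) :=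
        Finset.prod_congr rfl fun i _ => by ring
      rw [h3, Finset.prod_one_add]
      refine Finset.sum_congr rfl fun S _ => ?_
      rw [Finset.prod_mul_distrib, Finset.prod_const]
    rw [h1, h2, ← Finset.sum_add_distrib]
    exact Finset.sum_congr rfl fun S _ => by ring
  have hsum : ∑ e : E, (∏ i, (1 + ε e i) + ∏ i, (1 - ε e i)) = 2 * (Fintype.card E : ℤ) := by
    have h1 : ∑ e : E, (∏ i, (1 + ε e i) + ∏ i, (1 - ε e i)) =
        ∑ m ∈ Finset.range ((Finset.univ : Finset R).card + 1), (1 + (-1) ^ m) *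
          ∑ e : E, ∑ S ∈ Finset.powersetCard m (Finset.univ : Finset R), ∏ i ∈ S, ε e i := by
      calc ∑ e : E, (∏ i, (1 + ε e i) + ∏ i, (1 - ε e i))
          = ∑ e : E, ∑ m ∈ Finset.range ((Finset.univ : Finset R).card + 1),
              (1 + (-1) ^ m) * ∑ S ∈ Finset.powersetCard m (Finset.univ : Finset R),
                ∏ i ∈ S, ε e i := by
            refine Finset.sum_congr rfl fun e _ => ?_
            rw [hprod e, Finset.sum_powerset]
            refine Finset.sum_congr rfl fun m _ => ?_
            rw [Finset.mul_sum]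
            refine Finset.sum_congr rfl fun S hS => ?_
            rw [(Finset.mem_powersetCard.1 hS).2]
        _ = _ := by
            rw [Finset.sum_comm]
            exact Finset.sum_congr rfl fun m _ => (Finset.mul_sum _ _ _).symm
    rw [h1, Finset.sum_eq_single 0]
    · norm_num
    · intro m _ hm
      rcases Nat.even_or_odd m with ⟨k, hk⟩ | hodd
      · have hk2 : m = 2 * k := by omega
        rw [hk2, h k (by omega), mul_zero]
      · rw [hodd.neg_one_pow]
        ring
    · intro h0
      exact absurd (Finset.mem_range.2 (Nat.succ_pos _)) h0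
  -- divisibility
  have hdvd : (2 : ℤ) ^ Fintype.card R ∣ 2 * (Fintype.card E : ℤ) := by
    rw [← hsum]
    refine Finset.dvd_sum fun e _ => dvd_add ?_ ?_
    · have h1 : (∏ _i : R, (2 : ℤ)) ∣ ∏ i, (1 + ε e i) :=
        Finset.prod_dvd_prod_of_dvd _ _ fun i _ => by
          rcases hε e i with h2 | h2 <;> rw [h2] <;> norm_num
      rwa [Finset.prod_const, Finset.card_univ] at h1
    · have h1 : (∏ _i : R, (2 : ℤ)) ∣ ∏ i, (1 - ε e i) :=
        Finset.prod_dvd_prod_of_dvd _ _ fun i _ => by
          rcases hε e i with h2 | h2 <;> rw [h2] <;> norm_num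
      rwa [Finset.prod_const, Finset.card_univ] at h1
  have hR : Fintype.card R - 1 + 1 = Fintype.card R := Nat.sub_add_cancel Fintype.card_pos
  have hnat : 2 ^ Fintype.card R ∣ 2 * Fintype.card E := by
    exact_mod_cast hdvd
  rw [← hR, pow_succ, mul_comm (2 ^ (Fintype.card R - 1)) 2] at hnat
  exact Nat.dvd_of_mul_dvd_mul_left (by norm_num) hnat

end Pool.Agent.Helper36.HD
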