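import Pool.Agent.Helper36.HD.Core
import Pool.Agent.Helper36.HD.Signs

set_option autoImplicit false

/-!
HD-12 Abs. The abstract theorem: for large `|V|`, `2^(d-1)` divides `n`.

PROOF. `C = ∑_(k ≤ d) C_k`, `c = ∑_(k ≤ d) c_k` from `core ι n d k` (`k ≥ 1`), plus 1 and so on, so that
`C H^c < |V|` implies all thresholds (`H ≥ 1`); in particular `V ≠ 0`. Choose `ϖ` with `ϖ^2 = V`
(`IsAlgClosed.exists_pow_nat_eq`). For `x = 4 ι(η i) V⁻¹` choose `r` with `r^2 = 1 - x` and, replacing `r` by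
`-r`, `‖r - 1‖ ≤ ‖r + 1‖`; then `‖r + 1‖ ≥ 1` (the sum of the two norms is at least 2) and
`‖r - 1‖ ≤ ‖r - 1‖ ‖r + 1‖ = ‖x‖ ≤ 4 H/|V|`. This is `ρ i`. Then `(ϖ ρ_i)^2 = V - 4 ι(η i) = (ι (ζ e i))^2`, so
`ι (ζ e i) = ± ϖ ρ_i` and `ε` exists. For `k ≥ 1` with `2k ≤ d` use `core`; for `2k > d` the inner sum is empty.
`two_pow_dvd` finishes (`R` is nonempty if `d ≥ 1`; for `d = 0`, `2^(0-1) = 1`).
-/

namespace Pool.Agent.Helper36.HD

/-- a square root of `1 - x` near `1` -/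
theorem sqrt_near_one (x : ℂ) : ∃ r : ℂ, r ^ 2 = 1 - x ∧ ‖r - 1‖ ≤ ‖x‖ := by
  have key : ∀ r : ℂ, r ^ 2 = 1 - x → ‖r - 1‖ ≤ ‖r + 1‖ → ‖r - 1‖ ≤ ‖x‖ := by
    intro r hr hle
    have h2 : (2 : ℝ) ≤ ‖r + 1‖ + ‖r - 1‖ := by
      have h3 : ‖(r + 1) - (r - 1)‖ ≤ ‖r + 1‖ + ‖r - 1‖ := norm_sub_le _ _
      have h4 : (r + 1) - (r - 1) = (2 : ℂ) := by ring
      rw [h4] at h3
      simpa using h3
    have h1 : (1 : ℝ) ≤ ‖r + 1‖ := by linarith
    have h5 : ‖r - 1‖ * ‖r + 1‖ = ‖x‖ := by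
      rw [← norm_mul]
      have h6 : (r - 1) * (r + 1) = -x := by
        have h7 : (r - 1) * (r + 1) = r ^ 2 - 1 := by ring
        rw [h7, hr]
        ring
      rw [h6, norm_neg]
    calc ‖r - 1‖ = ‖r - 1‖ * 1 := (mul_one _).symm
      _ ≤ ‖r - 1‖ * ‖r + 1‖ := mul_le_mul_of_nonneg_left h1 (norm_nonneg _)
      _ = ‖x‖ := h5
  obtain ⟨r, hr⟩ := IsAlgClosed.exists_pow_nat_eq (1 - x) (n := 2) (by norm_num)
  rcases le_total ‖r - 1‖ ‖r + 1‖ with h | h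
  · exact ⟨r, hr, key r hr h⟩
  · have hr' : (-r) ^ 2 = 1 - x := by
      rw [neg_sq]
      exact hr
    refine ⟨-r, hr', key (-r) hr' ?_⟩
    have e1 : ‖-r - 1‖ = ‖r + 1‖ := by
      rw [← norm_neg]
      congr 1
      ring
    have e2 : ‖-r + 1‖ = ‖r - 1‖ := by
      rw [← norm_neg]
      congr 1
      ring
    rw [e1, e2]
    exact h

theorem abs_main (ι : AlgebraicClosure ℚ →+* ℂ) (n d : ℕ) :
    ∃ (C : ℝ) (c : ℕ), 1 ≤ C ∧ ∀ (E R : Type) [Fintype E] [Fintype R] [DecidableEq R],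
      Fintype.card E = n → Fintype.card R = d →
      ∀ (η : R → AlgebraicClosure ℚ) (ζ : E → R → AlgebraicClosure ℚ) (V : ℤ) (H : ℝ),
        Function.Injective η → (∀ i, IsIntegral ℤ (η i)) → 1 ≤ H → (∀ i, ‖ι (η i)‖ ≤ H) →
        (∀ e i, ζ e i ^ 2 = (V : AlgebraicClosure ℚ) - 4 * η i) → Equi η ζ →
        C * H ^ c < |(V : ℝ)| → 2 ^ (d - 1) ∣ n := by
  choose Ck ck hCk hcore using fun k : ℕ => core ι n d (k + 1) (Nat.succ_le_succ (Nat.zero_le k))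
  have hS0 : 0 ≤ ∑ k ∈ Finset.range d, Ck k :=
    Finset.sum_nonneg fun k _ => le_trans zero_le_one (hCk k)
  refine ⟨1 + ∑ k ∈ Finset.range d, Ck k, ∑ k ∈ Finset.range d, ck k, by linarith, ?_⟩
  intro E R _ _ _ hE hR η ζ V H hinj hint hH hηH hζ hEq hV
  rcases Nat.eq_zero_or_pos d with hd | hd
  · subst hd
    simp
  have : Nonempty R := Fintype.card_pos_iff.1 (by rw [hR]; exact hd)
  have hHpos : 0 < H := lt_of_lt_of_le zero_lt_one hH
  have hVpos : 0 < |(V : ℝ)| := lt_of_le_of_lt (by positivity) hV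
  have hVR : (V : ℝ) ≠ 0 := abs_pos.1 hVpos
  have hV0 : (V : ℂ) ≠ 0 := by
    intro h
    apply hVR
    have hVz : V = 0 := by exact_mod_cast h
    rw [hVz]
    simp
  obtain ⟨ϖ, hϖ⟩ := IsAlgClosed.exists_pow_nat_eq (V : ℂ) (n := 2) (by norm_num)
  have hρ : ∀ i, ∃ r : ℂ, r ^ 2 = 1 - 4 * ι (η i) * ((V : ℂ))⁻¹ ∧
      ‖r - 1‖ ≤ 4 * H / |(V : ℝ)| := by
    intro i
    obtain ⟨r, hr1, hr2⟩ := sqrt_near_one (4 * ι (η i) * ((V : ℂ))⁻¹)
    refine ⟨r, hr1, hr2.trans ?_⟩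
    rw [norm_mul, norm_mul, norm_inv, Complex.norm_intCast]
    have h4 : ‖(4 : ℂ)‖ = 4 := by simp
    rw [h4, div_eq_mul_inv]
    exact mul_le_mul_of_nonneg_right
      (mul_le_mul_of_nonneg_left (hηH i) (by norm_num)) (inv_nonneg.2 hVpos.le)
  choose ρ hρ1 hρ2 using hρ
  have hε : ∀ e i, ∃ s : ℤ, (s = 1 ∨ s = -1) ∧ ι (ζ e i) = (s : ℂ) * (ϖ * ρ i) := by
    intro e i
    have h1 : ι (ζ e i) ^ 2 = (ϖ * ρ i) ^ 2 := by
      rw [← map_pow, hζ e i, mul_pow, hϖ, hρ1 i, map_sub, map_mul, map_intCast, mul_sub, mul_one]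
      have h4 : ι 4 = 4 := by simpa using map_ofNat ι 4
      rw [h4]
      congr 1
      rw [mul_comm (4 * ι (η i)) _, ← mul_assoc, mul_inv_cancel₀ hV0, one_mul]
    rcases sq_eq_sq_iff_eq_or_eq_neg.1 h1 with h | h
    · exact ⟨1, Or.inl rfl, by rw [h]; simp⟩
    · exact ⟨-1, Or.inr rfl, by rw [h]; simp⟩
  choose ε hε1 hε2 using hε
  have hzero : ∀ k, 1 ≤ k → ∑ e : E, ∑ S ∈ Finset.powersetCard (2 * k) (Finset.univ : Finset R),
      ∏ i ∈ S, ε e i = 0 := by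
    intro k hk
    obtain ⟨j, rfl⟩ : ∃ j, k = j + 1 := ⟨k - 1, by omega⟩
    by_cases hj : j < d
    · refine hcore j E R hE hR η ζ V H ϖ ρ ε hinj hint hH hηH hζ hEq hϖ hρ1 hρ2 hε1 hε2
        (lt_of_le_of_lt ?_ hV)
      have hjm : j ∈ Finset.range d := Finset.mem_range.2 hj
      have h1 : Ck j ≤ 1 + ∑ k ∈ Finset.range d, Ck k := by
        have := Finset.single_le_sum (f := Ck) (fun k _ => le_trans zero_le_one (hCk k)) hjm
        linarith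
      have h2 : ck j ≤ ∑ k ∈ Finset.range d, ck k :=
        Finset.single_le_sum (f := ck) (fun k _ => Nat.zero_le _) hjm
      exact mul_le_mul h1 (pow_le_pow_right₀ hH h2) (by positivity) (by linarith)
    · have hempty : Finset.powersetCard (2 * (j + 1)) (Finset.univ : Finset R) = ∅ := by
        apply Finset.powersetCard_eq_empty.2
        rw [Finset.card_univ, hR]
        omega
      rw [hempty]
      simp
  have hfin := two_pow_dvd ε hε1 hzero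
  rw [hR, hE] at hfin
  exact hfin

end Pool.Agent.Helper36.HD
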