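import Pool.Agent.Helper36.HD.Rseq

set_option autoImplicit false

/-!
HD-03 Approx. The truncated formal square root approximates the analytic one near 1.

PROOF. Put `t = ‖u‖`, `T = ∑_(m ≤ L) cf g m u^m`, and let `b` be from `cf_bound G`. Then
`T^2 = ∑_(a, b' ≤ L) cf a cf b' u^(a+b')`; the part `a + b' = s ≤ L` gives `4^s g_s u^s` by `cf_sq`
(zero for `D < s`), so `T^2 - ρ^2 = ∑_(a, b' ≤ L, a + b' > L) cf a cf b' u^(a+b')`, whose norm is at most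
`∑ b_a b_b' (H t)^(a+b') ≤ C0 (H t)^(L+1)` because `H t ≤ 1` (from `H t C ≤ 1`, `1 ≤ C`), with
`C0 = (∑_(m ≤ L) b m)^2`. Also `‖T - 1‖ ≤ ∑_(1 ≤ m ≤ L) b_m (H t)^m ≤ C1 (H t) ≤ 1/2` if `C ≥ 2 C1`,
`C1 = ∑_(m ≤ L) b m`. So `‖T + ρ‖ ≥ 2 - 1/2 - 1/2 = 1` and
`‖ρ - T‖ ≤ ‖ρ - T‖ ‖ρ + T‖ = ‖ρ^2 - T^2‖ ≤ C0 (H t)^(L+1)`. Take `C = 1 + 2 C1 + C0`.
-/

namespace Pool.Agent.Helper36.HD

private theorem sq_split (S : ℕ → ℂ) (L : ℕ) :
    (∑ m ∈ Finset.range (L + 1), S m) ^ 2 =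
      ∑ s ∈ Finset.range (L + 1), ∑ p ∈ Finset.HasAntidiagonal.antidiagonal s, S p.1 * S p.2 +
      ∑ p ∈ (Finset.range (L + 1) ×ˢ Finset.range (L + 1)).filter (fun p => ¬ p.1 + p.2 ≤ L),
        S p.1 * S p.2 := by
  rw [sq, Finset.sum_mul_sum, ← Finset.sum_product',
    ← Finset.sum_filter_add_sum_filter_not (Finset.range (L + 1) ×ˢ Finset.range (L + 1))
      (fun p => p.1 + p.2 ≤ L)]
  congr 1
  rw [← Finset.sum_fiberwise_of_maps_to (t := Finset.range (L + 1)) (g := fun p => p.1 + p.2)]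
  · refine Finset.sum_congr rfl fun s hs => ?_
    refine Finset.sum_congr ?_ fun _ _ => rfl
    ext ⟨a, b⟩
    simp only [Finset.mem_filter, Finset.mem_product, Finset.mem_range,
      Finset.HasAntidiagonal.mem_antidiagonal] at hs ⊢
    omega
  · rintro ⟨a, b⟩ h
    simp only [Finset.mem_filter, Finset.mem_product, Finset.mem_range] at h ⊢
    omega

theorem approx (G : ℝ) (D L : ℕ) (hDL : D ≤ L) :
    ∃ C : ℝ, 1 ≤ C ∧ ∀ (g : ℕ → ℂ) (H : ℝ) (u ρ : ℂ), 1 ≤ H → g 0 = 1 →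
      (∀ m, ‖g m‖ ≤ G * H ^ m) → (∀ m, D < m → g m = 0) →
      ρ ^ 2 = ∑ m ∈ Finset.range (D + 1), 4 ^ m * g m * u ^ m → ‖ρ - 1‖ ≤ 1 / 2 →
      H * ‖u‖ * C ≤ 1 →
      ‖ρ - ∑ m ∈ Finset.range (L + 1), cf g m * u ^ m‖ ≤ C * (H * ‖u‖) ^ (L + 1) := by
  obtain ⟨b, hb0, hb⟩ := cf_bound G
  set C1 : ℝ := ∑ m ∈ Finset.range (L + 1), b m with hC1
  have hC1' : 0 ≤ C1 := Finset.sum_nonneg fun m _ => hb0 m
  refine ⟨1 + 2 * C1 + C1 ^ 2, by nlinarith, ?_⟩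
  intro g H u ρ hH hg0 hgb hgD hρ hρ1 hHu
  set z : ℝ := H * ‖u‖ with hz
  have hz0 : 0 ≤ z := mul_nonneg (by linarith) (norm_nonneg _)
  have hz1 : z ≤ 1 := by
    nlinarith [sq_nonneg C1, mul_nonneg hz0 hC1', mul_nonneg hz0 (sq_nonneg C1)]
  have hzC : z * C1 ≤ 1 / 2 := by
    nlinarith [mul_nonneg hz0 (sq_nonneg C1)]
  have hSb : ∀ m, ‖cf g m * u ^ m‖ ≤ b m * z ^ m := by
    intro m
    rw [norm_mul, norm_pow, hz, mul_pow, ← mul_assoc]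
    exact mul_le_mul_of_nonneg_right (hb g H (by linarith) hgb m) (pow_nonneg (norm_nonneg _) _)
  set T : ℂ := ∑ m ∈ Finset.range (L + 1), cf g m * u ^ m with hT
  -- the square
  have hsq : T ^ 2 - ρ ^ 2 =
      ∑ p ∈ (Finset.range (L + 1) ×ˢ Finset.range (L + 1)).filter (fun p => ¬ p.1 + p.2 ≤ L),
        (cf g p.1 * u ^ p.1) * (cf g p.2 * u ^ p.2) := by
    rw [hT, sq_split (fun m => cf g m * u ^ m) L, hρ]
    have h1 : ∑ m ∈ Finset.range (D + 1), 4 ^ m * g m * u ^ m =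
        ∑ s ∈ Finset.range (L + 1), ∑ p ∈ Finset.HasAntidiagonal.antidiagonal s,
          (cf g p.1 * u ^ p.1) * (cf g p.2 * u ^ p.2) := by
      have h2 : ∀ s, ∑ p ∈ Finset.HasAntidiagonal.antidiagonal s,
          (cf g p.1 * u ^ p.1) * (cf g p.2 * u ^ p.2) = 4 ^ s * g s * u ^ s := by
        intro s
        rw [← cf_sq g hg0 s, Finset.sum_mul]
        refine Finset.sum_congr rfl fun p hp => ?_
        rw [Finset.HasAntidiagonal.mem_antidiagonal] at hp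
        rw [← hp, pow_add]
        ring
      rw [Finset.sum_congr rfl (fun s _ => h2 s)]
      refine Finset.sum_subset (Finset.range_subset_range.2 (by omega)) ?_
      intro m _ hm
      rw [Finset.mem_range] at hm
      rw [hgD m (by omega)]
      ring
    rw [h1]
    ring
  have hsqn : ‖T ^ 2 - ρ ^ 2‖ ≤ C1 ^ 2 * z ^ (L + 1) := by
    rw [hsq]
    refine (norm_sum_le _ _).trans ?_
    have h1 : ∀ p ∈ (Finset.range (L + 1) ×ˢ Finset.range (L + 1)).filter (fun p => ¬ p.1 + p.2 ≤ L),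
        ‖(cf g p.1 * u ^ p.1) * (cf g p.2 * u ^ p.2)‖ ≤ b p.1 * b p.2 * z ^ (L + 1) := by
      intro p hp
      rw [Finset.mem_filter] at hp
      rw [norm_mul]
      calc ‖cf g p.1 * u ^ p.1‖ * ‖cf g p.2 * u ^ p.2‖
          ≤ (b p.1 * z ^ p.1) * (b p.2 * z ^ p.2) :=
            mul_le_mul (hSb _) (hSb _) (norm_nonneg _) (mul_nonneg (hb0 _) (pow_nonneg hz0 _))
        _ = b p.1 * b p.2 * z ^ (p.1 + p.2) := by rw [pow_add]; ring
        _ ≤ b p.1 * b p.2 * z ^ (L + 1) :=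
            mul_le_mul_of_nonneg_left (pow_le_pow_of_le_one hz0 hz1 (by omega))
              (mul_nonneg (hb0 _) (hb0 _))
    refine (Finset.sum_le_sum h1).trans ?_
    rw [← Finset.sum_mul]
    refine mul_le_mul_of_nonneg_right ?_ (pow_nonneg hz0 _)
    rw [sq, hC1, Finset.sum_mul_sum, ← Finset.sum_product']
    exact Finset.sum_le_sum_of_subset_of_nonneg (Finset.filter_subset _ _)
      (fun p _ _ => mul_nonneg (hb0 _) (hb0 _))
  -- T is near 1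
  have hT1 : ‖T - 1‖ ≤ 1 / 2 := by
    have h0 : cf g 0 * u ^ 0 = 1 := by
      simp [cf]
    have h1 : T - 1 = ∑ m ∈ Finset.range L, cf g (m + 1) * u ^ (m + 1) := by
      rw [hT, Finset.sum_range_succ', h0]
      ring
    rw [h1]
    refine (norm_sum_le _ _).trans ?_
    have h2 : ∀ m ∈ Finset.range L, ‖cf g (m + 1) * u ^ (m + 1)‖ ≤ b (m + 1) * z := by
      intro m _
      refine (hSb _).trans (mul_le_mul_of_nonneg_left ?_ (hb0 _))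
      calc z ^ (m + 1) ≤ z ^ 1 := pow_le_pow_of_le_one hz0 hz1 (by omega)
        _ = z := pow_one z
    refine (Finset.sum_le_sum h2).trans ?_
    rw [← Finset.sum_mul]
    have h3 : ∑ m ∈ Finset.range L, b (m + 1) ≤ C1 := by
      rw [hC1, Finset.sum_range_succ']
      linarith [hb0 0]
    nlinarith
  have hTρ : 1 ≤ ‖ρ + T‖ := by
    have h1 : (2 : ℂ) = (ρ + T) - (ρ - 1) - (T - 1) := by ring
    have h2 : ‖(2 : ℂ)‖ ≤ ‖ρ + T‖ + ‖ρ - 1‖ + ‖T - 1‖ := by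
      calc ‖(2 : ℂ)‖ = ‖(ρ + T) - (ρ - 1) - (T - 1)‖ := by rw [← h1]
        _ ≤ ‖(ρ + T) - (ρ - 1)‖ + ‖T - 1‖ := norm_sub_le _ _
        _ ≤ ‖ρ + T‖ + ‖ρ - 1‖ + ‖T - 1‖ := by
          have := norm_sub_le (ρ + T) (ρ - 1)
          linarith
    have h3 : ‖(2 : ℂ)‖ = 2 := by simp
    linarith
  have hprod : ‖ρ - T‖ * ‖ρ + T‖ = ‖T ^ 2 - ρ ^ 2‖ := by
    rw [← norm_mul, show (ρ - T) * (ρ + T) = -(T ^ 2 - ρ ^ 2) by ring, norm_neg]
  calc ‖ρ - T‖ = ‖ρ - T‖ * 1 := (mul_one _).symm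
    _ ≤ ‖ρ - T‖ * ‖ρ + T‖ := mul_le_mul_of_nonneg_left hTρ (norm_nonneg _)
    _ = ‖T ^ 2 - ρ ^ 2‖ := hprod
    _ ≤ C1 ^ 2 * z ^ (L + 1) := hsqn
    _ ≤ (1 + 2 * C1 + C1 ^ 2) * z ^ (L + 1) :=
      mul_le_mul_of_nonneg_right (by linarith) (pow_nonneg hz0 _)

end Pool.Agent.Helper36.HD
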