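import Mathlib

set_option autoImplicit false

/-!
HD-07 Balance. Real inequality: if two products of norms are at least 1 and the factors are tiny/large
according to a sign, then the signs sum to zero.

PROOF. Note `1 ≤ A ^ card X < V`, so `V > 1`. Let `n₊, n₋` be the numbers of `x` with `κ x = 1`, `-1`. Then
`1 ≤ ∏ w ≤ A^card * V^(-(N+1) n₊) * V^((N+k) n₋)`, so `V^((N+1) n₊) ≤ A^card V^((N+k) n₋) < V^((N+k) n₋ + 1)`,
hence `(N+1) n₊ ≤ (N+k) n₋`. If `n₊ ≥ n₋ + 1` then `(N+1)(n₋+1) ≤ (N+k) n₋`, so `N + 1 ≤ k n₋ ≤ k card X`,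
against `hN`. So `n₊ ≤ n₋`; the same with `w'` gives `n₋ ≤ n₊`; and `∑ κ = n₊ - n₋`.
(If `X` is empty the sum is zero.)
-/

namespace Pool.Agent.Helper36.HD

private theorem bal_aux {X : Type} [Fintype X] [DecidableEq X] (P Q : Finset X) (hd : Disjoint P Q)
    (hu : P ∪ Q = Finset.univ) (w : X → ℝ) (N k : ℕ) (A V : ℝ) (hA : 1 ≤ A)
    (hV : A ^ Fintype.card X < V) (hN : k * Fintype.card X < N + 1) (h0 : ∀ x, 0 ≤ w x)
    (h1 : 1 ≤ ∏ x, w x) (hP : ∀ x ∈ P, w x ≤ A * (V⁻¹) ^ (N + 1))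
    (hQ : ∀ x ∈ Q, w x ≤ A * V ^ (N + k)) : P.card ≤ Q.card := by
  have hV1 : 1 < V := lt_of_le_of_lt (one_le_pow₀ hA) hV
  have hV0 : 0 < V := by linarith
  have hA0 : 0 < A := by linarith
  have hcard : P.card + Q.card = Fintype.card X := by
    rw [← Finset.card_union_of_disjoint hd, hu, Finset.card_univ]
  have hprod : ∏ x, w x = (∏ x ∈ P, w x) * ∏ x ∈ Q, w x := by
    rw [← hu, Finset.prod_union hd]
  have hPp : ∏ x ∈ P, w x ≤ (A * (V⁻¹) ^ (N + 1)) ^ P.card := by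
    calc ∏ x ∈ P, w x ≤ ∏ _x ∈ P, (A * (V⁻¹) ^ (N + 1)) :=
          Finset.prod_le_prod (fun x _ => h0 x) hP
      _ = _ := by rw [Finset.prod_const]
  have hQq : ∏ x ∈ Q, w x ≤ (A * V ^ (N + k)) ^ Q.card := by
    calc ∏ x ∈ Q, w x ≤ ∏ _x ∈ Q, (A * V ^ (N + k)) :=
          Finset.prod_le_prod (fun x _ => h0 x) hQ
      _ = _ := by rw [Finset.prod_const]
  have h2 : 1 ≤ (A * (V⁻¹) ^ (N + 1)) ^ P.card * (A * V ^ (N + k)) ^ Q.card := by
    rw [hprod] at h1
    exact h1.trans (mul_le_mul hPp hQq (Finset.prod_nonneg (fun x _ => h0 x)) (by positivity))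
  have h3 : V ^ ((N + 1) * P.card) ≤ A ^ Fintype.card X * V ^ ((N + k) * Q.card) := by
    have e : (A * (V⁻¹) ^ (N + 1)) ^ P.card * (A * V ^ (N + k)) ^ Q.card
        = A ^ (P.card + Q.card) * V ^ ((N + k) * Q.card) / V ^ ((N + 1) * P.card) := by
      rw [mul_pow, mul_pow, ← pow_mul, ← pow_mul, pow_add, inv_pow, div_eq_mul_inv]
      ring
    rw [e, le_div_iff₀ (by positivity), one_mul, hcard] at h2
    exact h2
  have h4 : V ^ ((N + 1) * P.card) < V ^ ((N + k) * Q.card + 1) := by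
    calc V ^ ((N + 1) * P.card) ≤ A ^ Fintype.card X * V ^ ((N + k) * Q.card) := h3
      _ < V * V ^ ((N + k) * Q.card) := mul_lt_mul_of_pos_right hV (by positivity)
      _ = V ^ ((N + k) * Q.card + 1) := by rw [pow_succ]; ring
  have h5 := (pow_lt_pow_iff_right₀ hV1).1 h4
  by_contra hlt
  push Not at hlt
  have h6 : (N + 1) * (Q.card + 1) ≤ (N + 1) * P.card := Nat.mul_le_mul_left _ hlt
  have h7 : k * Q.card ≤ k * Fintype.card X := Nat.mul_le_mul_left _ (by omega)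
  nlinarith

theorem balance {X : Type} [Fintype X] (κ : X → ℤ) (hκ : ∀ x, κ x = 1 ∨ κ x = -1)
    (w w' : X → ℝ) (N k : ℕ) (A V : ℝ) (hA : 1 ≤ A) (hV : A ^ Fintype.card X < V)
    (hN : k * Fintype.card X < N + 1) (h0 : ∀ x, 0 ≤ w x) (h0' : ∀ x, 0 ≤ w' x)
    (h1 : 1 ≤ ∏ x, w x) (h1' : 1 ≤ ∏ x, w' x)
    (hp : ∀ x, κ x = 1 → w x ≤ A * (V⁻¹) ^ (N + 1) ∧ w' x ≤ A * V ^ (N + k))
    (hm : ∀ x, κ x = -1 → w x ≤ A * V ^ (N + k) ∧ w' x ≤ A * (V⁻¹) ^ (N + 1)) :
    ∑ x, κ x = 0 := by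
  classical
  have hd : Disjoint (Finset.univ.filter (fun x => κ x = 1)) (Finset.univ.filter (fun x => κ x = -1)) := by
    rw [Finset.disjoint_filter]
    intro x _ h h'
    rw [h] at h'
    norm_num at h'
  have hu : Finset.univ.filter (fun x => κ x = 1) ∪ Finset.univ.filter (fun x => κ x = -1)
      = (Finset.univ : Finset X) := by
    ext x
    simpa using hκ x
  have a1 := bal_aux _ _ hd hu w N k A V hA hV hN h0 h1
    (fun x hx => (hp x (by simpa using hx)).1) (fun x hx => (hm x (by simpa using hx)).1)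
  have a2 := bal_aux _ _ hd.symm (by rw [Finset.union_comm]; exact hu) w' N k A V hA hV hN h0' h1'
    (fun x hx => (hm x (by simpa using hx)).2) (fun x hx => (hp x (by simpa using hx)).2)
  rw [← hu, Finset.sum_union hd]
  have s1 : ∑ x ∈ Finset.univ.filter (fun x => κ x = 1), κ x
      = ((Finset.univ.filter (fun x => κ x = 1)).card : ℤ) := by
    rw [Finset.sum_congr rfl (g := fun _ => (1 : ℤ)) (by intro x hx; simpa using hx)]
    simp
  have s2 : ∑ x ∈ Finset.univ.filter (fun x => κ x = -1), κ x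
      = -((Finset.univ.filter (fun x => κ x = -1)).card : ℤ) := by
    rw [Finset.sum_congr rfl (g := fun _ => (-1 : ℤ)) (by intro x hx; simpa using hx)]
    simp
  rw [s1, s2]
  omega

end Pool.Agent.Helper36.HD
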