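import Mathlib

set_option autoImplicit false

/-!
HD-05 IntProd. A finite Galois-stable family of nonzero algebraic integers has product of absolute value at
least 1 (at any embedding).

PROOF. `Ω = AlgebraicClosure ℚ`. `w0 = ∏ w s` is integral over `ℤ` and `τ w0 = ∏ w (π s) = w0` for all `τ`,
so `w0` is in the range of `algebraMap ℚ Ω` (`InfiniteGalois.mem_range_algebraMap_iff_fixed`, `Ω/ℚ` is
Galois), hence `w0 = (m : Ω)` with `m : ℤ` (`IsIntegrallyClosed`/`IsIntegral` of a rational number), `m ≠ 0`,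
and `‖ι w0‖ = |m| ≥ 1`.
-/

namespace Pool.Agent.Helper36.HD

private theorem isGalois_aux : IsGalois ℚ (AlgebraicClosure ℚ) := by
  have h : @IsGalois ℚ _ (AlgebraicClosure ℚ) _ (AlgebraicClosure.instAlgebra ℚ) := by
    let := AlgebraicClosure.instAlgebra ℚ (R := ℚ)
    exact IsAlgClosure.isGalois ℚ (AlgebraicClosure ℚ)
  have e : (AlgebraicClosure.instAlgebra ℚ : Algebra ℚ (AlgebraicClosure ℚ)) =
      DivisionRing.toRatAlgebra := Subsingleton.elim _ _
  rw [e] at h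
  exact h

theorem one_le_prod_norm (ι : AlgebraicClosure ℚ →+* ℂ) {S : Type} [Fintype S]
    (w : S → AlgebraicClosure ℚ) (hint : ∀ s, IsIntegral ℤ (w s)) (hne : ∀ s, w s ≠ 0)
    (heq : ∀ τ : AlgebraicClosure ℚ ≃ₐ[ℚ] AlgebraicClosure ℚ, ∃ π : Equiv.Perm S,
      ∀ s, τ (w s) = w (π s)) :
    1 ≤ ∏ s, ‖ι (w s)‖ := by
  classical
  have hgal := isGalois_aux
  set w0 : AlgebraicClosure ℚ := ∏ s, w s with hw0
  have hw0int : IsIntegral ℤ w0 := IsIntegral.prod _ fun s _ => hint s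
  have hw0ne : w0 ≠ 0 := Finset.prod_ne_zero_iff.2 fun s _ => hne s
  have hfix : ∀ τ : AlgebraicClosure ℚ ≃ₐ[ℚ] AlgebraicClosure ℚ, τ w0 = w0 := by
    intro τ
    obtain ⟨π, hπ⟩ := heq τ
    rw [hw0, map_prod, Finset.prod_congr rfl fun s _ => hπ s]
    exact Equiv.prod_comp π w
  obtain ⟨q, hq⟩ : w0 ∈ Set.range (algebraMap ℚ (AlgebraicClosure ℚ)) :=
    (InfiniteGalois.mem_range_algebraMap_iff_fixed w0).2 hfix
  have hqint : IsIntegral ℤ q := by
    rw [← hq] at hw0int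
    exact (isIntegral_algebraMap_iff (algebraMap ℚ (AlgebraicClosure ℚ)).injective).1 hw0int
  obtain ⟨m, hm⟩ := IsIntegrallyClosed.isIntegral_iff.1 hqint
  have hm0 : m ≠ 0 := by
    rintro rfl
    rw [map_zero] at hm
    rw [← hm, map_zero] at hq
    exact hw0ne hq.symm
  have h1 : ι w0 = (m : ℂ) := by
    rw [← hq, ← hm, eq_intCast, map_intCast, map_intCast]
  rw [← norm_prod, ← map_prod, ← hw0, h1, Complex.norm_intCast]
  exact_mod_cast Int.one_le_abs hm0

end Pool.Agent.Helper36.HD
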