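import Pool.Agent.Helper36.HD.Core

set_option autoImplicit false

/-!
HD-19 CoreP. As Core, but the families need to be permuted by Galois only up to a common sign for each `e`. The signs of `∏_(i ∈ S) ζ_(e,i)` over all `(e, S)`, `card S = 2k`, sum to zero for large `|V|`.
-/

open Polynomial

namespace Pool.Agent.Helper36.HD

/-- the two families are permuted by the absolute Galois group of `ℚ`, the second one up to a sign
depending on the first index only -/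
def EquiP {E R : Type} (η : R → AlgebraicClosure ℚ) (ζ : E → R → AlgebraicClosure ℚ) : Prop :=
  ∀ τ : AlgebraicClosure ℚ ≃ₐ[ℚ] AlgebraicClosure ℚ, ∃ (π : Equiv.Perm E) (φ : Equiv.Perm R)
    (s : E → AlgebraicClosure ℚ), (∀ e, s e ^ 2 = 1) ∧
    (∀ i, τ (η i) = η (φ i)) ∧ ∀ e i, τ (ζ e i) = s e * ζ (π e) (φ i)

theorem coreP (ι : AlgebraicClosure ℚ →+* ℂ) (n d k : ℕ) (hk : 1 ≤ k) :
    ∃ (C : ℝ) (c : ℕ), 1 ≤ C ∧ ∀ (E R : Type) [Fintype E] [Fintype R] [DecidableEq R],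
      Fintype.card E = n → Fintype.card R = d →
      ∀ (η : R → AlgebraicClosure ℚ) (ζ : E → R → AlgebraicClosure ℚ) (V : ℤ) (H : ℝ) (ϖ : ℂ)
        (ρ : R → ℂ) (ε : E → R → ℤ),
        Function.Injective η → (∀ i, IsIntegral ℤ (η i)) → 1 ≤ H → (∀ i, ‖ι (η i)‖ ≤ H) →
        (∀ e i, ζ e i ^ 2 = (V : AlgebraicClosure ℚ) - 4 * η i) → EquiP η ζ → ϖ ^ 2 = (V : ℂ) →
        (∀ i, ρ i ^ 2 = 1 - 4 * ι (η i) * ((V : ℂ))⁻¹) → (∀ i, ‖ρ i - 1‖ ≤ 4 * H / |(V : ℝ)|) →
        (∀ e i, ε e i = 1 ∨ ε e i = -1) → (∀ e i, ι (ζ e i) = (ε e i : ℂ) * (ϖ * ρ i)) →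
        C * H ^ c < |(V : ℝ)| →
        ∑ e : E, ∑ S ∈ Finset.powersetCard (2 * k) (Finset.univ : Finset R), ∏ i ∈ S, ε e i = 0 := by
  classical
  obtain ⟨C0, c, D, hC1, hfam⟩ := fam ι k (k * (n * 2 ^ d) + k) (by omega)
  refine ⟨C0 + (((2 * D + 2 * k : ℕ) : ℝ) * (2 * C0 ^ 2 * 25 ^ k) ^ (2 ^ d + 1) + C0 ^ (n * 2 ^ d)),
    c + ((2 * c + 2 * k) * (2 ^ d + 1) + c * (n * 2 ^ d)), ?_, ?_⟩
  · have h1 : 0 ≤ ((2 * D + 2 * k : ℕ) : ℝ) * (2 * C0 ^ 2 * 25 ^ k) ^ (2 ^ d + 1) + C0 ^ (n * 2 ^ d) := by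
      positivity
    linarith
  intro E R _ _ _ hE hR η ζ V H ϖ ρ ε hinj hint hH hb hζ hequi hϖ hρ hρ1 hε hιζ hV
  obtain ⟨P, Q, hPi, hQi, hnat, hQ0, hdeg, hL1, hest⟩ := hfam R η H hint hH hb
  have hC0 : 0 ≤ C0 := le_trans zero_le_one hC1
  have hH0 : 0 ≤ H := le_trans zero_le_one hH
  -- thresholds
  have hT1 : C0 * H ^ c < |(V : ℝ)| := by
    refine lt_of_le_of_lt ?_ hV
    have h1 : H ^ c ≤ H ^ (c + ((2 * c + 2 * k) * (2 ^ d + 1) + c * (n * 2 ^ d))) :=
      pow_le_pow_right₀ hH (by omega)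
    refine mul_le_mul ?_ h1 (by positivity) (by positivity)
    have : 0 ≤ ((2 * D + 2 * k : ℕ) : ℝ) * (2 * C0 ^ 2 * 25 ^ k) ^ (2 ^ d + 1) + C0 ^ (n * 2 ^ d) := by
      positivity
    linarith
  have hT2 : ((2 * D + 2 * k : ℕ) : ℝ) * (2 * C0 ^ 2 * 25 ^ k * H ^ (2 * c + 2 * k)) ^ (2 ^ d + 1) <
      |(V : ℝ)| := by
    refine lt_of_le_of_lt ?_ hV
    rw [mul_pow (2 * C0 ^ 2 * 25 ^ k), ← pow_mul, ← mul_assoc]
    have h1 : H ^ ((2 * c + 2 * k) * (2 ^ d + 1)) ≤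
        H ^ (c + ((2 * c + 2 * k) * (2 ^ d + 1) + c * (n * 2 ^ d))) :=
      pow_le_pow_right₀ hH (by omega)
    refine mul_le_mul ?_ h1 (by positivity) (by positivity)
    have : 0 ≤ C0 ^ (n * 2 ^ d) := by positivity
    linarith
  have hT3 : (C0 * H ^ c) ^ (n * 2 ^ d) < |(V : ℝ)| := by
    refine lt_of_le_of_lt ?_ hV
    rw [mul_pow, ← pow_mul]
    have h1 : H ^ (c * (n * 2 ^ d)) ≤ H ^ (c + ((2 * c + 2 * k) * (2 ^ d + 1) + c * (n * 2 ^ d))) :=
      pow_le_pow_right₀ hH (by omega)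
    refine mul_le_mul ?_ h1 (by positivity) (by positivity)
    have : 0 ≤ ((2 * D + 2 * k : ℕ) : ℝ) * (2 * C0 ^ 2 * 25 ^ k) ^ (2 ^ d + 1) := by
      positivity
    linarith
  -- cardinalities
  have hcardS : Fintype.card {S : Finset R // S.card = 2 * k} ≤ 2 ^ d := by
    rw [← hR, ← Fintype.card_finset]
    exact Fintype.card_subtype_le _
  have hcardX : Fintype.card (E × {S : Finset R // S.card = 2 * k}) ≤ n * 2 ^ d := by
    rw [Fintype.card_prod, hE]
    exact Nat.mul_le_mul_left _ hcardS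
  have hA1 : 1 ≤ C0 * H ^ c := by
    have := one_le_pow₀ hH (n := c)
    nlinarith
  -- the family G
  set G : {S : Finset R // S.card = 2 * k} → (AlgebraicClosure ℚ)[X] := fun S =>
    P S.1 ^ 2 - Q S.1 ^ 2 * ∏ i ∈ S.1, (X - C (4 * η i)) with hG
  have h4 : IsIntegral ℤ (4 : AlgebraicClosure ℚ) := by
    have := isIntegral_algebraMap (R := ℤ) (A := AlgebraicClosure ℚ) (x := 4)
    simpa using this
  have hGne : ∀ S, G S ≠ 0 := by
    intro S
    refine sq_ne _ _ (hQ0 _) S.1 ?_ _ ?_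
    · rw [← Finset.card_pos, S.2]
      omega
    · intro i _ j _ hij
      refine hinj ?_
      have h5 : (4 : AlgebraicClosure ℚ) ≠ 0 := by norm_num
      exact mul_left_cancel₀ h5 hij
  have hGint : ∀ S i, IsIntegral ℤ ((G S).coeff i) := by
    intro S
    refine intP_sub _ _ ?_ (intP_mul _ _ ?_ (intP_prod _ _ fun j _ => intP_X_sub_C _ (h4.mul (hint j))))
    · rw [pow_two]
      exact intP_mul _ _ (hPi _) (hPi _)
    · rw [pow_two]
      exact intP_mul _ _ (hQi _) (hQi _)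
  have hGL1 : ∀ S, L1 ι (G S) ≤ 2 * C0 ^ 2 * 25 ^ k * H ^ (2 * c + 2 * k) := by
    intro S
    have hLP := (hL1 S.1 S.2).1
    have hLQ := (hL1 S.1 S.2).2
    have e1 : L1 ι (P S.1 ^ 2) ≤ (C0 * H ^ c) ^ 2 := by
      rw [pow_two, pow_two]
      exact (L1_mul ι _ _).trans (mul_le_mul hLP hLP (L1_nonneg ι _) (by positivity))
    have e2 : L1 ι (Q S.1 ^ 2) ≤ (C0 * H ^ c) ^ 2 := by
      rw [pow_two, pow_two]
      exact (L1_mul ι _ _).trans (mul_le_mul hLQ hLQ (L1_nonneg ι _) (by positivity))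
    have e3 : L1 ι (∏ i ∈ S.1, (X - C (4 * η i))) ≤ (5 * H) ^ (2 * k) := by
      refine (L1_prod ι _ _).trans ?_
      have hc2 : (5 * H) ^ (2 * k) = ∏ i ∈ S.1, (5 * H) := by
        rw [Finset.prod_const, S.2]
      rw [hc2]
      refine Finset.prod_le_prod (fun i _ => L1_nonneg ι _) ?_
      intro i _
      refine (L1_X_sub_C ι _).trans ?_
      rw [map_mul, norm_mul]
      have : ‖ι (4 : AlgebraicClosure ℚ)‖ = 4 := by
        rw [map_ofNat]
        norm_num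
      rw [this]
      have := hb i
      linarith
    have e4 : L1 ι (Q S.1 ^ 2 * ∏ i ∈ S.1, (X - C (4 * η i))) ≤ (C0 * H ^ c) ^ 2 * (5 * H) ^ (2 * k) :=
      (L1_mul ι _ _).trans (mul_le_mul e2 e3 (L1_nonneg ι _) (by positivity))
    have e5 : (1 : ℝ) ≤ (5 * H) ^ (2 * k) := one_le_pow₀ (by linarith)
    have e6 : (C0 * H ^ c) ^ 2 ≤ (C0 * H ^ c) ^ 2 * (5 * H) ^ (2 * k) :=
      le_mul_of_one_le_right (by positivity) e5
    calc L1 ι (G S) ≤ L1 ι (P S.1 ^ 2) + L1 ι (Q S.1 ^ 2 * ∏ i ∈ S.1, (X - C (4 * η i))) :=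
          L1_sub ι _ _
      _ ≤ (C0 * H ^ c) ^ 2 * (5 * H) ^ (2 * k) + (C0 * H ^ c) ^ 2 * (5 * H) ^ (2 * k) := by
          linarith
      _ = 2 * C0 ^ 2 * 25 ^ k * H ^ (2 * c + 2 * k) := by
          rw [mul_pow C0, ← pow_mul, mul_pow (5 : ℝ), pow_mul (5 : ℝ), pow_add H]
          norm_num
          ring
  have hB1 : (1 : ℝ) ≤ 2 * C0 ^ 2 * 25 ^ k * H ^ (2 * c + 2 * k) := by
    have a1 : (1 : ℝ) ≤ C0 ^ 2 := one_le_pow₀ hC1
    have a2 : (1 : ℝ) ≤ 25 ^ k := one_le_pow₀ (by norm_num)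
    have a3 : (1 : ℝ) ≤ H ^ (2 * c + 2 * k) := one_le_pow₀ hH
    have a4 : (1 : ℝ) ≤ 2 * C0 ^ 2 := by linarith
    have a5 : (1 : ℝ) ≤ 2 * C0 ^ 2 * 25 ^ k := one_le_mul_of_one_le_of_one_le a4 a2
    exact one_le_mul_of_one_le_of_one_le a5 a3
  have hGdeg : ∀ S, (G S).natDegree ≤ 2 * D + 2 * k := by
    intro S
    have d1 := (hdeg S.1).1
    have d2 := (hdeg S.1).2
    have d3 : (∏ i ∈ S.1, (X - C (4 * η i))).natDegree = 2 * k := by
      rw [Polynomial.natDegree_prod_of_monic _ _ fun i _ => monic_X_sub_C _]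
      have e1 : ∑ i ∈ S.1, (X - C (4 * η i) : (AlgebraicClosure ℚ)[X]).natDegree =
          ∑ i ∈ S.1, 1 := Finset.sum_congr rfl fun i _ => Polynomial.natDegree_X_sub_C _
      rw [e1, Finset.sum_const, S.2, smul_eq_mul, mul_one]
    refine (Polynomial.natDegree_sub_le _ _).trans (max_le ?_ ?_)
    · refine Polynomial.natDegree_pow_le.trans ?_
      omega
    · refine Polynomial.natDegree_mul_le.trans ?_
      have := Polynomial.natDegree_pow_le (p := Q S.1) (n := 2)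
      omega
  have hGeq : ∀ τ : AlgebraicClosure ℚ ≃ₐ[ℚ] AlgebraicClosure ℚ,
      ∃ π : Equiv.Perm {S : Finset R // S.card = 2 * k},
      ∀ s, (G s).map ((τ : AlgebraicClosure ℚ ≃+* AlgebraicClosure ℚ) :
        AlgebraicClosure ℚ →+* AlgebraicClosure ℚ) = G (π s) := by
    intro τ
    obtain ⟨π, φ, s, hs, h1, h2⟩ := hequi τ
    refine ⟨permS k φ, fun S => ?_⟩
    have h3 := hnat ((τ : AlgebraicClosure ℚ ≃+* AlgebraicClosure ℚ) :
        AlgebraicClosure ℚ →+* AlgebraicClosure ℚ) φ h1 S.1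
    simp only [hG, permS_val]
    rw [Polynomial.map_sub, Polynomial.map_mul, Polynomial.map_pow, Polynomial.map_pow, h3.1, h3.2,
      Polynomial.map_prod, Finset.prod_map]
    congr 2
    refine Finset.prod_congr rfl fun i _ => ?_
    rw [Polynomial.map_sub, Polynomial.map_X, Polynomial.map_C, map_mul, map_ofNat]
    congr 3
    exact h1 i
  have hev : ∀ S, (G S).eval (V : AlgebraicClosure ℚ) ≠ 0 := by
    refine eval_ne_zero ι G (2 * D + 2 * k) _ hB1 hGne hGint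
      (fun s i => (coeff_le_L1 ι _ _).trans (hGL1 s)) hGdeg hGeq V ?_
    refine lt_of_le_of_lt ?_ hT2
    refine mul_le_mul_of_nonneg_left ?_ (by positivity)
    exact pow_le_pow_right₀ hB1 (by omega)
  -- the numbers w
  set w : E × {S : Finset R // S.card = 2 * k} → AlgebraicClosure ℚ := fun x =>
    (P x.2.1).eval (V : AlgebraicClosure ℚ) -
      (Q x.2.1).eval (V : AlgebraicClosure ℚ) * ∏ i ∈ x.2.1, ζ x.1 i with hw
  set w' : E × {S : Finset R // S.card = 2 * k} → AlgebraicClosure ℚ := fun x =>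
    (P x.2.1).eval (V : AlgebraicClosure ℚ) +
      (Q x.2.1).eval (V : AlgebraicClosure ℚ) * ∏ i ∈ x.2.1, ζ x.1 i with hw'
  have hVint : IsIntegral ℤ (V : AlgebraicClosure ℚ) := by
    have := isIntegral_algebraMap (R := ℤ) (A := AlgebraicClosure ℚ) (x := V)
    simpa using this
  have hζint : ∀ e i, IsIntegral ℤ (ζ e i) := by
    intro e i
    refine IsIntegral.of_pow (n := 2) (by norm_num) ?_
    rw [hζ]
    exact hVint.sub (h4.mul (hint i))
  have hwint : ∀ x, IsIntegral ℤ (w x) := fun x =>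
    (integral_eval_int _ (hPi _) V).sub
      ((integral_eval_int _ (hQi _) V).mul (IsIntegral.prod _ fun i _ => hζint _ _))
  have hw'int : ∀ x, IsIntegral ℤ (w' x) := fun x =>
    (integral_eval_int _ (hPi _) V).add
      ((integral_eval_int _ (hQi _) V).mul (IsIntegral.prod _ fun i _ => hζint _ _))
  have hww : ∀ x, w x * w' x = (G x.2).eval (V : AlgebraicClosure ℚ) := by
    intro x
    simp only [hw, hw', hG]
    rw [Polynomial.eval_sub, Polynomial.eval_mul, Polynomial.eval_pow, Polynomial.eval_pow,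
      Polynomial.eval_prod]
    have : ∏ i ∈ x.2.1, (X - C (4 * η i) : (AlgebraicClosure ℚ)[X]).eval (V : AlgebraicClosure ℚ) =
        (∏ i ∈ x.2.1, ζ x.1 i) ^ 2 := by
      rw [← Finset.prod_pow]
      refine Finset.prod_congr rfl fun i _ => ?_
      rw [hζ]
      simp
    rw [this]
    ring
  have hwne : ∀ x, w x ≠ 0 := by
    intro x h0
    have := hww x
    rw [h0, zero_mul] at this
    exact hev _ this.symm
  have hw'ne : ∀ x, w' x ≠ 0 := by
    intro x h0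
    have := hww x
    rw [h0, mul_zero] at this
    exact hev _ this.symm
  have htr : ∀ τ : AlgebraicClosure ℚ ≃ₐ[ℚ] AlgebraicClosure ℚ,
      ∃ π : Equiv.Perm (E × {S : Finset R // S.card = 2 * k}),
      (∀ x, τ (w x) = w (π x)) ∧ (∀ x, τ (w' x) = w' (π x)) := by
    intro τ
    obtain ⟨π, φ, s, hs, h1, h2⟩ := hequi τ
    have h3 := hnat ((τ : AlgebraicClosure ℚ ≃+* AlgebraicClosure ℚ) :
        AlgebraicClosure ℚ →+* AlgebraicClosure ℚ) φ h1
    have h5 : ∀ S, τ ((P S).eval (V : AlgebraicClosure ℚ)) =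
        (P (S.map φ.toEmbedding)).eval (V : AlgebraicClosure ℚ) := by
      intro S
      rw [← (h3 S).1]
      exact hom_eval_int ((τ : AlgebraicClosure ℚ ≃+* AlgebraicClosure ℚ) :
        AlgebraicClosure ℚ →+* AlgebraicClosure ℚ) _ _
    have h6 : ∀ S, τ ((Q S).eval (V : AlgebraicClosure ℚ)) =
        (Q (S.map φ.toEmbedding)).eval (V : AlgebraicClosure ℚ) := by
      intro S
      rw [← (h3 S).2]
      exact hom_eval_int ((τ : AlgebraicClosure ℚ ≃+* AlgebraicClosure ℚ) :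
        AlgebraicClosure ℚ →+* AlgebraicClosure ℚ) _ _
    have h7 : ∀ (e : E) (S : {S : Finset R // S.card = 2 * k}), τ (∏ i ∈ S.1, ζ e i) =
        ∏ i ∈ S.1.map φ.toEmbedding, ζ (π e) i := by
      intro e S
      rw [map_prod, Finset.prod_map]
      have e1 : ∏ i ∈ S.1, τ (ζ e i) = ∏ i ∈ S.1, (s e * ζ (π e) (φ i)) :=
        Finset.prod_congr rfl fun i _ => h2 e i
      rw [e1, Finset.prod_mul_distrib, Finset.prod_const, S.2, pow_mul, hs, one_pow, one_mul]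
      rfl
    refine ⟨Equiv.prodCongr π (permS k φ), fun x => ?_, fun x => ?_⟩
    · simp only [hw]
      rw [map_sub, map_mul, h5, h6, h7]
      rfl
    · simp only [hw']
      rw [map_add, map_mul, h5, h6, h7]
      rfl
  have hprod : 1 ≤ ∏ x, ‖ι (w x)‖ :=
    one_le_prod_norm ι w hwint hwne fun τ => ⟨(htr τ).choose, (htr τ).choose_spec.1⟩
  have hprod' : 1 ≤ ∏ x, ‖ι (w' x)‖ :=
    one_le_prod_norm ι w' hw'int hw'ne fun τ => ⟨(htr τ).choose, (htr τ).choose_spec.2⟩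
  -- the value of the product of the ζ
  have hιprod : ∀ (e : E) (S : {S : Finset R // S.card = 2 * k}), ι (∏ i ∈ S.1, ζ e i) =
      ((∏ i ∈ S.1, ε e i : ℤ) : ℂ) * ((V : ℂ) ^ k * ∏ i ∈ S.1, ρ i) := by
    intro e S
    rw [map_prod]
    have : ∏ i ∈ S.1, ι (ζ e i) = ∏ i ∈ S.1, ((ε e i : ℂ) * (ϖ * ρ i)) :=
      Finset.prod_congr rfl fun i _ => hιζ e i
    rw [this, Finset.prod_mul_distrib, Finset.prod_mul_distrib, Finset.prod_const, S.2, pow_mul, hϖ]
    push_cast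
    rfl
  have hfin : ∑ x : E × {S : Finset R // S.card = 2 * k}, ∏ i ∈ x.2.1, ε x.1 i = 0 := by
    refine balance (fun x : E × {S : Finset R // S.card = 2 * k} => ∏ i ∈ x.2.1, ε x.1 i)
      (fun x => prod_sign _ _ fun i => hε _ _) (fun x => ‖ι (w x)‖) (fun x => ‖ι (w' x)‖)
      (k * (n * 2 ^ d) + k) k (C0 * H ^ c) |(V : ℝ)| hA1 ?_ ?_ (fun x => norm_nonneg _)
      (fun x => norm_nonneg _) hprod hprod' ?_ ?_
    · refine lt_of_le_of_lt ?_ hT3
      exact pow_le_pow_right₀ hA1 hcardX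
    · have := Nat.mul_le_mul_left k hcardX
      omega
    · intro x hx
      obtain ⟨b1, b2⟩ := hest x.2.1 x.2.2 V ρ hρ hρ1 hT1
      have hx' : (((∏ i ∈ x.2.1, ε x.1 i : ℤ)) : ℂ) = 1 := by
        rw [hx]; norm_num
      refine ⟨?_, ?_⟩
      · simp only [hw]
        rw [map_sub, map_mul, hιprod, hx', one_mul]
        exact b1
      · simp only [hw']
        rw [map_add, map_mul, hιprod, hx', one_mul]
        exact (norm_add_le _ _).trans b2
    · intro x hx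
      obtain ⟨b1, b2⟩ := hest x.2.1 x.2.2 V ρ hρ hρ1 hT1
      have hx' : (((∏ i ∈ x.2.1, ε x.1 i : ℤ)) : ℂ) = -1 := by
        rw [hx]; norm_num
      refine ⟨?_, ?_⟩
      · simp only [hw]
        rw [map_sub, map_mul, hιprod, hx', neg_one_mul, mul_neg, sub_neg_eq_add]
        exact (norm_add_le _ _).trans b2
      · simp only [hw']
        rw [map_add, map_mul, hιprod, hx', neg_one_mul, mul_neg, ← sub_eq_add_neg]
        exact b1
  rw [Fintype.sum_prod_type] at hfin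
  rw [← hfin]
  refine Finset.sum_congr rfl fun e _ => ?_
  refine Finset.sum_subtype _ (fun S => ?_) _
  simp [Finset.mem_powersetCard]

end Pool.Agent.Helper36.HD
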