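import Mathlib

set_option autoImplicit false

/-!
Project HD (MP_d88658_nt): definitions.

`rsq g` is the sequence `R_m`, `m ≥ 1`, with `(1 + 2 ∑_{m ≥ 1} R_m u^m)^2 = ∑_m 4^m g_m u^m` when `g_0 = 1`;
it is given by `R_(m+1) = 4^m g_(m+1) - ∑_(0 < i < m+1) R_i R_(m+1-i)`, so it needs no denominators.
`cf g m` is the `m`-th coefficient `1` or `2 R_m` of that power series.
`gS η S m` is the coefficient of `u^m` in `∏_(i ∈ S) (1 - η_i u)`.
`Qp q = ∑_j q_j X^j` and `Pp q c k = ∑_j ∑_(m ≤ j + k) q_j c_m X^(j+k-m)`, the polynomial part of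
`Qp q * X^k * ∑_m c_m X^(-m)`.
-/

open Polynomial

namespace Pool.Agent.Helper36.HD

/-- the sequence `R_m` -/
def rsq {A : Type} [CommRing A] (g : ℕ → A) : ℕ → A
  | 0 => 0
  | (m + 1) => 4 ^ m * g (m + 1) - ∑ i : Fin m, rsq g (i.1 + 1) * rsq g (m - i.1)
decreasing_by
  all_goals have := i.2; omega

/-- the coefficients of the formal square root -/
def cf {A : Type} [CommRing A] (g : ℕ → A) (m : ℕ) : A := if m = 0 then 1 else 2 * rsq g m

/-- coefficients of `∏ (1 - η_i u)` -/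
def gS {A : Type} [CommRing A] {R : Type} (η : R → A) (S : Finset R) (m : ℕ) : A :=
  ∑ T ∈ S.powersetCard m, ∏ i ∈ T, (-η i)

/-- `Q = ∑ q_j X^j` -/
noncomputable def Qp {A : Type} [CommRing A] {N : ℕ} (q : Fin (N + 1) → A) : A[X] :=
  ∑ j : Fin (N + 1), C (q j) * X ^ (j.1)

/-- the polynomial part of `Q X^k ∑ c_m X^(-m)` -/
noncomputable def Pp {A : Type} [CommRing A] {N : ℕ} (q : Fin (N + 1) → A) (c : ℕ → A) (k : ℕ) :
    A[X] :=
  ∑ j : Fin (N + 1), ∑ m ∈ Finset.range (j.1 + k + 1), C (q j * c m) * X ^ (j.1 + k - m)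

/-- the sum of the absolute values of the coefficients under an embedding -/
noncomputable def L1 {F : Type} [Field F] (ι : F →+* ℂ) (p : F[X]) : ℝ :=
  ∑ i ∈ p.support, ‖ι (p.coeff i)‖

/-- the two families are permuted by the absolute Galois group of `ℚ` -/
def Equi {E R : Type} (η : R → AlgebraicClosure ℚ) (ζ : E → R → AlgebraicClosure ℚ) : Prop :=
  ∀ τ : AlgebraicClosure ℚ ≃ₐ[ℚ] AlgebraicClosure ℚ, ∃ (π : Equiv.Perm E) (φ : Equiv.Perm R),
    (∀ i, τ (η i) = η (φ i)) ∧ ∀ e i, τ (ζ e i) = ζ (π e) (φ i)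

/-- `M(f)`: the largest absolute value of a coefficient -/
def Mf (f : ℤ[X]) : ℕ := f.support.sup (fun i => (f.coeff i).natAbs)

end Pool.Agent.Helper36.HD
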