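import Pool.Agent.Helper36.HD.Defs

set_option autoImplicit false

/-!
HD-18 Discr. A monic polynomial with squarefree discriminant satisfies (R).

PROOF. Suppose `p^2 ∣ f(m)`, `p ∣ f'(m)`; show `p^2 ∣ discr f` (then `p ∣ 1` by `Squarefree`, `p` is a unit, contradiction).
Either shift by `m` (if Mathlib has the translation invariance of the resultant/discriminant) or argue directly with the
resultant: `discr f = ± Res (f, f')` (`resultant_deriv`, monic). One way without Sylvester matrices: over `ℤ` write
`f = (X - m)^2 h + (X - m) c₁ + c₀`, `c₀ = f(m)`, `c₁ = f'(m)`. The discriminant is a universal integer polynomial in the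
coefficients, so modulo `c₀` it is `discr ((X - m) ((X - m) h + c₁)) = ((X-m) h + c₁)(m)^2 discr (..) = c₁^2 discr (..)`.
In the ring `ℤ/p^2`: `c₀ = 0`, `c₁^2 = 0`, so `discr f` maps to `0` (`discr` commutes with the ring hom to `ℤ/p^2` for monic
`f`; resultant multiplicativity: `Res (f, f')` with `f = (X - m) k` in `(ℤ/p^2)[X]`, `f' = k + (X - m) k'`:
`Res ((X-m) k, f') = Res (X - m, f') Res (k, f') = ± f'(m) Res (k, k + (X-m) k')`, and
`Res (k, k + (X-m) k') = Res (k, (X-m) k') = Res (k, X-m) Res (k, k') = ± k(m) Res (k, k')`, `k(m) = f'(m) = c₁`; so the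
product contains `c₁^2 = 0`. See `Mathlib/RingTheory/Polynomial/Resultant/Basic.lean`: `resultant_mul_left`,
`resultant_add_mul_right`, `resultant_X_sub_C_left`, ...). Another way: a determinant argument with the last two columns of
the Sylvester matrix after the shift. Choose what is easiest.
-/

open Polynomial

namespace Pool.Agent.Helper36.HD

theorem regular_of_squarefree_discr (f : ℤ[X]) (hm : f.Monic) (hd : 2 ≤ f.natDegree)
    (hs : Squarefree f.discr) :
    ∀ (p : ℕ) (m : ℤ), p.Prime → (p : ℤ) ^ 2 ∣ f.eval m → ¬ (p : ℤ) ∣ f.derivative.eval m := by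
  intro p m hp h1 h2
  have hp1 : 1 < p ^ 2 := Nat.one_lt_pow (by norm_num) hp.one_lt
  have : Fact (1 < p ^ 2) := ⟨hp1⟩
  let φ : ℤ →+* ZMod (p ^ 2) := Int.castRingHom _
  have hφ : ∀ a : ℤ, ((p : ℤ) ^ 2 ∣ a ↔ φ a = 0) := by
    intro a
    have := ZMod.intCast_zmod_eq_zero_iff_dvd a (p ^ 2)
    rw [show φ a = (a : ZMod (p ^ 2)) from rfl, this]
    push_cast
    rfl
  have hFm : (f.map φ).Monic := hm.map φ
  have hFd : (f.map φ).natDegree = f.natDegree := hm.natDegree_map φ
  have hroot : (f.map φ).IsRoot (φ m) := by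
    rw [IsRoot.def, eval_map_apply]
    exact (hφ _).1 h1
  set k : (ZMod (p ^ 2))[X] := f.map φ /ₘ (X - C (φ m)) with hk
  have hFk : (X - C (φ m)) * k = f.map φ := mul_divByMonic_eq_iff_isRoot.2 hroot
  have hkd : k.natDegree = f.natDegree - 1 := by
    rw [hk, natDegree_divByMonic _ (monic_X_sub_C _), natDegree_X_sub_C, hFd]
  have hder : (f.map φ).derivative = k + (X - C (φ m)) * k.derivative := by
    rw [← hFk, derivative_mul, derivative_X_sub_C, one_mul]
  have hc : (f.map φ).derivative.eval (φ m) = k.eval (φ m) := by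
    rw [hder]
    simp
  have hc2 : (f.map φ).derivative.eval (φ m) = φ (f.derivative.eval m) := by
    rw [derivative_map, eval_map_apply]
  have hcc : k.eval (φ m) * k.eval (φ m) = 0 := by
    rw [← hc, hc2, ← map_mul, ← hφ, pow_two]
    exact mul_dvd_mul h2 h2
  have hdeg' : (f.map φ).derivative.natDegree ≤ f.natDegree - 1 := by
    have := natDegree_derivative_le (f.map φ)
    rwa [hFd] at this
  have hres : resultant (f.map φ) (f.map φ).derivative f.natDegree (f.natDegree - 1) = 0 := by
    have e1 := resultant_mul_left (X - C (φ m)) k (f.map φ).derivative (f.natDegree - 1) hdeg'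
    rw [hFk, natDegree_X_sub_C, resultant_X_sub_C_left _ _ _ hdeg', hkd,
      show 1 + (f.natDegree - 1) = f.natDegree by omega] at e1
    rw [e1]
    obtain ⟨a, b, -, -, hab⟩ := exists_mul_add_mul_eq_C_resultant (m := f.natDegree - 1)
      (n := f.natDegree - 1) k (f.map φ).derivative hkd.le hdeg' (Or.inl (by omega))
    have e2 := congrArg (eval (φ m)) hab
    rw [eval_add, eval_mul, eval_mul, eval_C, hc] at e2
    rw [← e2, hc, mul_add, ← mul_assoc, ← mul_assoc, hcc]
    simp
  rw [derivative_map, resultant_map_map, ← hφ] at hres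
  have hd0 : 0 < f.degree := natDegree_pos_iff_degree_pos.1 (by omega)
  rw [resultant_deriv hd0, hm.leadingCoeff, mul_one] at hres
  have hdd : (p : ℤ) * p ∣ f.discr := by
    rw [← pow_two]
    refine (IsUnit.dvd_mul_left (u := (-1 : ℤ) ^ (f.natDegree * (f.natDegree - 1) / 2)) ?_).1 hres
    exact (isUnit_one.neg).pow _
  have hu := hs _ hdd
  rw [Int.isUnit_iff] at hu
  have := hp.one_lt
  omega

end Pool.Agent.Helper36.HD
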