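import Pool.Agent.Helper36.HD.Defs

set_option autoImplicit false

/-!
HD-09 GSet. Properties of `gS η S m`, the coefficients of `∏_(i ∈ S) (1 - η_i u)`.

PROOF. `gS_zero`: `powersetCard 0 S = {∅}`. `gS_big`: no subset of size `m > card S`. `gS_map`: `map_sum`,
`map_prod`, `map_neg`. `gS_perm`: reindex the subsets by `Finset.map φ` (an injection from
`powersetCard m S` onto `powersetCard m (S.map φ)`: `Finset.powersetCard_map`, `Finset.prod_map`).
`gS_integral`: sums and products. `gS_bound`: at most `2^card S` subsets, each product of norm at most `H^m`.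
`gS_prod`: `Finset.prod_one_add` type expansion: `∏_(i ∈ S) (1 + 4 (-η_i) u) = ∑_T ∏_T (4 (-η_i) u)
= ∑_m (4 u)^m gS η S m` (`Finset.prod_one_add`, `Finset.sum_powerset_apply_card`-like splitting:
`Finset.sum_powerset` over sizes, `Finset.prod_mul_distrib`, `Finset.prod_const`).
-/

namespace Pool.Agent.Helper36.HD

theorem gS_zero {A : Type} [CommRing A] {R : Type} (η : R → A) (S : Finset R) : gS η S 0 = 1 := by
  simp [gS]

theorem gS_big {A : Type} [CommRing A] {R : Type} (η : R → A) (S : Finset R) (m : ℕ)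
    (hm : S.card < m) : gS η S m = 0 := by
  rw [gS, Finset.powersetCard_eq_empty.2 hm, Finset.sum_empty]

theorem gS_map {A B : Type} [CommRing A] [CommRing B] (τ : A →+* B) {R : Type} (η : R → A)
    (S : Finset R) (m : ℕ) : τ (gS η S m) = gS (fun i => τ (η i)) S m := by
  simp only [gS, map_sum, map_prod, map_neg]

theorem gS_perm {A : Type} [CommRing A] {R : Type} (η : R → A) (φ : Equiv.Perm R)
    (S : Finset R) (m : ℕ) : gS (fun i => η (φ i)) S m = gS η (S.map φ.toEmbedding) m := by
  rw [gS, gS, Finset.powersetCard_map, Finset.sum_map]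
  refine Finset.sum_congr rfl fun T _ => ?_
  simp [Finset.mapEmbedding_apply, Finset.prod_map]

theorem gS_integral {A : Type} [CommRing A] {R : Type} (η : R → A)
    (hη : ∀ i, IsIntegral ℤ (η i)) (S : Finset R) (m : ℕ) : IsIntegral ℤ (gS η S m) := by
  rw [gS]
  exact IsIntegral.sum _ fun T _ => IsIntegral.prod _ fun i _ => (hη i).neg

theorem gS_bound {R : Type} (η : R → ℂ) (H : ℝ) (hH : 0 ≤ H) (hη : ∀ i, ‖η i‖ ≤ H)
    (S : Finset R) (m : ℕ) : ‖gS η S m‖ ≤ 2 ^ S.card * H ^ m := by
  rw [gS]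
  refine (norm_sum_le _ _).trans ?_
  have h1 : ∀ T ∈ Finset.powersetCard m S, ‖∏ i ∈ T, -η i‖ ≤ H ^ m := by
    intro T hT
    rw [norm_prod]
    calc ∏ i ∈ T, ‖-η i‖ ≤ ∏ _i ∈ T, H :=
          Finset.prod_le_prod (fun i _ => norm_nonneg _) (fun i _ => by rw [norm_neg]; exact hη i)
      _ = H ^ m := by rw [Finset.prod_const, (Finset.mem_powersetCard.1 hT).2]
  refine (Finset.sum_le_sum h1).trans ?_
  rw [Finset.sum_const, nsmul_eq_mul]
  refine mul_le_mul_of_nonneg_right ?_ (pow_nonneg hH m)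
  have h2 : (Finset.powersetCard m S).card ≤ 2 ^ S.card := by
    rw [← Finset.card_powerset]
    exact Finset.card_le_card fun T hT =>
      Finset.mem_powerset.2 (Finset.mem_powersetCard.1 hT).1
  exact_mod_cast h2

theorem gS_prod {A : Type} [CommRing A] {R : Type} (η : R → A) (S : Finset R) (u : A) :
    ∏ i ∈ S, (1 - 4 * η i * u) = ∑ m ∈ Finset.range (S.card + 1), 4 ^ m * gS η S m * u ^ m := by
  have h1 : ∀ i ∈ S, (1 - 4 * η i * u) = 1 + 4 * u * (-η i) := by
    intro i _
    ring
  rw [Finset.prod_congr rfl h1, Finset.prod_one_add, Finset.sum_powerset]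
  refine Finset.sum_congr rfl fun m _ => ?_
  rw [gS, Finset.mul_sum, Finset.sum_mul]
  refine Finset.sum_congr rfl fun T hT => ?_
  rw [Finset.prod_mul_distrib, Finset.prod_const, (Finset.mem_powersetCard.1 hT).2, mul_pow]
  ring

end Pool.Agent.Helper36.HD
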