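import Mathlib

set_option autoImplicit false

/-!
HD-01 Ker. A nonzero kernel vector of an `N × (N + 1)` matrix over a field, given by signed minors, chosen
NATURALLY (depends only on which minors vanish), so it commutes with ring endomorphisms of the field.

PROOF. For `M` let `Pat M` be the set of all triples `(r, I, J)`, `I : Fin r → Fin N`,
`J : Fin r → Fin (N + 1)`, with `det (fun a b => M (I a) (J b)) ≠ 0`. It contains `r = 0` (the empty
determinant is 1), and `r ≤ N` for all its elements (if `I` is not injective two rows are equal; so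
`Fintype.card_le_of_injective`). Choose an element of `Pat M` with `r` maximal as a function of the SET
`Pat M` (define a choice function on sets of triples with `Classical.epsilon` or a dependent if, so equal
sets give equal choices), and `j0` not in the range of `J` (also as a function of `J`, `r ≤ N < N + 1`).
Let `J' = Fin.cons j0 J : Fin (r + 1) → Fin (N + 1)` and
`Q M j = ∑ s : Fin (r + 1), if J' s = j then (-1)^s * det (fun a b => M (I a) (J' (s.succAbove b))) else 0`.
For a row `i`: `∑ j, M i j * Q M j = ∑ s, (-1)^s * M i (J' s) * det(...)` is the determinant of the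
`(r+1) × (r+1)` matrix with rows `Fin.cons i I` and columns `J'` (`Matrix.det_succ_row_zero`), and it is
zero because `r` was maximal. Nonzero: `J'` is injective (`J` is, otherwise two equal columns), so
`Q M j0 = det (M I J) ≠ 0`. Naturality: a ring hom `τ` of a field is injective and
`det (τ ∘ ..) = τ (det ..)` (`RingHom.map_det`), so the patterns agree. Integrality: `det` is a
polynomial in the entries (`IsIntegral.det` exists in Mathlib, or `Matrix.det_apply` and sums, products).
Bound: `‖det‖ ≤ r! B^r` (`Matrix.det_apply` and the triangle inequality), there are at most `N + 1` terms.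
-/

namespace Pool.Agent.Helper36.HD

/-- Patterns: the size, the rows and the columns of a minor. -/
private abbrev Tr (N : ℕ) : Type := Σ r : ℕ, (Fin r → Fin N) × (Fin r → Fin (N + 1))

/-- The minors of `M` that do not vanish. -/
private def Pat {F : Type} [Field F] {N : ℕ} (M : Fin N → Fin (N + 1) → F) : Set (Tr N) :=
  {t | (Matrix.of fun a b => M (t.2.1 a) (t.2.2 b)).det ≠ 0}

open Classical in
/-- An element of maximal size. -/
private noncomputable def pick {N : ℕ} (S : Set (Tr N)) : Tr N :=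
  if h : ∃ t ∈ S, ∀ t' ∈ S, t'.1 ≤ t.1 then h.choose else ⟨0, Fin.elim0, Fin.elim0⟩

open Classical in
/-- A column that is not used. -/
private noncomputable def newCol {N : ℕ} (t : Tr N) : Fin (N + 1) :=
  if h : ∃ j, ∀ a, t.2.2 a ≠ j then h.choose else 0

/-- The columns with the new one. -/
private noncomputable def cols {N : ℕ} (t : Tr N) : Fin (t.1 + 1) → Fin (N + 1) :=
  Fin.cons (newCol t) t.2.2

/-- The vector of signed minors. -/
private noncomputable def vec {F : Type} [Field F] {N : ℕ} (M : Fin N → Fin (N + 1) → F) (t : Tr N)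
    (j : Fin (N + 1)) : F :=
  ∑ s : Fin (t.1 + 1), if cols t s = j then
    (-1) ^ (s : ℕ) * (Matrix.of fun a b => M (t.2.1 a) (cols t (s.succAbove b))).det else 0

private theorem le_of_mem {F : Type} [Field F] {N : ℕ} {M : Fin N → Fin (N + 1) → F} {t : Tr N}
    (ht : t ∈ Pat M) : t.1 ≤ N := by
  have hinj : Function.Injective t.2.1 := by
    intro a b hab
    by_contra hne
    apply ht
    refine Matrix.det_zero_of_row_eq hne ?_
    funext c
    simp only [Matrix.of_apply, hab]
  have := Fintype.card_le_of_injective _ hinj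
  simpa using this

private theorem col_inj {F : Type} [Field F] {N : ℕ} {M : Fin N → Fin (N + 1) → F} {t : Tr N}
    (ht : t ∈ Pat M) : Function.Injective t.2.2 := by
  intro a b hab
  by_contra hne
  apply ht
  refine Matrix.det_zero_of_column_eq hne ?_
  intro c
  simp only [Matrix.of_apply, hab]

private theorem pick_spec {F : Type} [Field F] {N : ℕ} (M : Fin N → Fin (N + 1) → F) :
    pick (Pat M) ∈ Pat M ∧ ∀ t' ∈ Pat M, t'.1 ≤ (pick (Pat M)).1 := by
  have h0 : (⟨0, Fin.elim0, Fin.elim0⟩ : Tr N) ∈ Pat M := by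
    change (Matrix.of _ : Matrix (Fin 0) (Fin 0) F).det ≠ 0
    rw [Matrix.det_fin_zero]
    exact one_ne_zero
  have h : ∃ t ∈ Pat M, ∀ t' ∈ Pat M, t'.1 ≤ t.1 := by
    classical
    have hex : ∃ n, ∃ t ∈ Pat M, t.1 = N - n := by
      refine ⟨N, _, h0, ?_⟩
      simp
    obtain ⟨t, ht, htn⟩ := Nat.find_spec hex
    refine ⟨t, ht, fun t' ht' => ?_⟩
    by_contra hlt
    push Not at hlt
    have h1 := le_of_mem ht'
    have h2 : ∃ t ∈ Pat M, t.1 = N - (N - t'.1) := ⟨t', ht', by omega⟩
    have h3 := Nat.find_min' hex h2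
    omega
  unfold pick
  rw [dif_pos h]
  exact h.choose_spec

private theorem newCol_spec {F : Type} [Field F] {N : ℕ} {M : Fin N → Fin (N + 1) → F} {t : Tr N}
    (ht : t ∈ Pat M) (a : Fin t.1) : t.2.2 a ≠ newCol t := by
  have h : ∃ j, ∀ a, t.2.2 a ≠ j := by
    by_contra hcon
    push Not at hcon
    have h1 := Fintype.card_le_of_surjective t.2.2 hcon
    have h2 := le_of_mem ht
    simp only [Fintype.card_fin] at h1
    omega
  unfold newCol
  rw [dif_pos h]
  exact h.choose_spec a

private theorem vec_new {F : Type} [Field F] {N : ℕ} {M : Fin N → Fin (N + 1) → F} {t : Tr N}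
    (ht : t ∈ Pat M) : vec M t (newCol t) ≠ 0 := by
  have h1 : vec M t (newCol t) = (Matrix.of fun a b => M (t.2.1 a) (t.2.2 b)).det := by
    unfold vec
    rw [Finset.sum_eq_single 0]
    · have h2 : cols t 0 = newCol t := by
        unfold cols
        rw [Fin.cons_zero]
      rw [if_pos h2, Fin.val_zero, pow_zero, one_mul]
      congr 2
    · intro s _ hs
      obtain ⟨b, rfl⟩ := Fin.exists_succ_eq.2 hs
      have h2 : cols t b.succ ≠ newCol t := by
        unfold cols
        rw [Fin.cons_succ]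
        exact newCol_spec ht b
      rw [if_neg h2]
    · intro h
      exact absurd (Finset.mem_univ _) h
  rw [h1]
  exact ht

private theorem vec_ker {F : Type} [Field F] {N : ℕ} {M : Fin N → Fin (N + 1) → F} {t : Tr N}
    (hmax : ∀ t' ∈ Pat M, t'.1 ≤ t.1) (i : Fin N) : ∑ j, M i j * vec M t j = 0 := by
  have h0 : (Matrix.of fun a b => M ((Fin.cons i t.2.1 : Fin (t.1 + 1) → Fin N) a) (cols t b)).det =
      0 := by
    by_contra hne
    have h1 := hmax ⟨t.1 + 1, Fin.cons i t.2.1, cols t⟩ hne
    simp only at h1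
    omega
  have h1 : ∑ j, M i j * vec M t j = ∑ s : Fin (t.1 + 1), M i (cols t s) *
      ((-1) ^ (s : ℕ) * (Matrix.of fun a b => M (t.2.1 a) (cols t (s.succAbove b))).det) := by
    unfold vec
    simp only [Finset.mul_sum]
    rw [Finset.sum_comm]
    refine Finset.sum_congr rfl fun s _ => ?_
    rw [Finset.sum_eq_single (cols t s)]
    · rw [if_pos rfl]
    · intro j _ hj
      rw [if_neg (Ne.symm hj), mul_zero]
    · intro h
      exact absurd (Finset.mem_univ _) h
  rw [h1, ← h0, Matrix.det_succ_row_zero]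
  refine Finset.sum_congr rfl fun s _ => ?_
  have h2 : (Matrix.of fun a b => M ((Fin.cons i t.2.1 : Fin (t.1 + 1) → Fin N) a) (cols t b)).submatrix
      Fin.succ s.succAbove = Matrix.of fun a b => M (t.2.1 a) (cols t (s.succAbove b)) := by
    ext a b
    rw [Matrix.submatrix_apply, Matrix.of_apply, Matrix.of_apply, Fin.cons_succ]
  rw [h2, Matrix.of_apply, Fin.cons_zero]
  ring

private theorem map_minor {F K : Type} [Field F] [Field K] {N : ℕ} (τ : F →+* K)
    (M : Fin N → Fin (N + 1) → F) {r : ℕ} (I : Fin r → Fin N) (J : Fin r → Fin (N + 1)) :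
    (Matrix.of fun a b => τ (M (I a) (J b))).det = τ (Matrix.of fun a b => M (I a) (J b)).det := by
  rw [RingHom.map_det]
  rfl

private theorem norm_minor {N : ℕ} {M : Fin N → Fin (N + 1) → ℂ} {B : ℝ} (hB : 1 ≤ B)
    (hM : ∀ i j, ‖M i j‖ ≤ B) {r : ℕ} (hr : r ≤ N) (I : Fin r → Fin N) (J : Fin r → Fin (N + 1)) :
    ‖(Matrix.of fun a b => M (I a) (J b)).det‖ ≤ ((N + 1).factorial : ℝ) * B ^ N := by
  have h1 : ∀ σ : Equiv.Perm (Fin r), ‖((Equiv.Perm.sign σ : ℤ) : ℂ) *
      ∏ a, (Matrix.of fun a b => M (I a) (J b)) (σ a) a‖ ≤ B ^ N := by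
    intro σ
    have h2 : ‖((Equiv.Perm.sign σ : ℤ) : ℂ)‖ = 1 := by
      rcases Int.units_eq_one_or (Equiv.Perm.sign σ) with h | h <;> rw [h] <;> simp
    rw [norm_mul, h2, one_mul, norm_prod]
    calc ∏ a, ‖(Matrix.of fun a b => M (I a) (J b)) (σ a) a‖ ≤ ∏ _a : Fin r, B :=
          Finset.prod_le_prod (fun _ _ => norm_nonneg _) fun a _ => hM _ _
      _ = B ^ r := by rw [Finset.prod_const, Finset.card_univ, Fintype.card_fin]
      _ ≤ B ^ N := pow_le_pow_right₀ hB hr
  rw [Matrix.det_apply']
  calc ‖∑ σ : Equiv.Perm (Fin r), ((Equiv.Perm.sign σ : ℤ) : ℂ) *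
        ∏ a, (Matrix.of fun a b => M (I a) (J b)) (σ a) a‖
      ≤ ∑ σ : Equiv.Perm (Fin r), ‖((Equiv.Perm.sign σ : ℤ) : ℂ) *
        ∏ a, (Matrix.of fun a b => M (I a) (J b)) (σ a) a‖ := norm_sum_le _ _
    _ ≤ ∑ _σ : Equiv.Perm (Fin r), B ^ N := Finset.sum_le_sum fun σ _ => h1 σ
    _ = (r.factorial : ℝ) * B ^ N := by
        rw [Finset.sum_const, Finset.card_univ, Fintype.card_perm, Fintype.card_fin, nsmul_eq_mul]
    _ ≤ ((N + 1).factorial : ℝ) * B ^ N := by
        refine mul_le_mul_of_nonneg_right ?_ (by positivity)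
        exact_mod_cast Nat.factorial_le (by omega)

theorem exists_kernel {F : Type} [Field F] (N : ℕ) :
    ∃ Q : (Fin N → Fin (N + 1) → F) → Fin (N + 1) → F,
      (∀ M, ∃ j, Q M j ≠ 0) ∧
      (∀ M, ∀ i, ∑ j, M i j * Q M j = 0) ∧
      (∀ (τ : F →+* F) M, Q (fun i j => τ (M i j)) = fun j => τ (Q M j)) ∧
      (∀ M, (∀ i j, IsIntegral ℤ (M i j)) → ∀ j, IsIntegral ℤ (Q M j)) ∧
      (∀ (ι : F →+* ℂ) (B : ℝ), 1 ≤ B → ∀ M, (∀ i j, ‖ι (M i j)‖ ≤ B) →
        ∀ j, ‖ι (Q M j)‖ ≤ (N + 1 : ℝ) * ((N + 1).factorial : ℝ) * B ^ N) := by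
  refine ⟨fun M => vec M (pick (Pat M)), ?_, ?_, ?_, ?_, ?_⟩
  · intro M
    exact ⟨_, vec_new (pick_spec M).1⟩
  · intro M i
    exact vec_ker (pick_spec M).2 i
  · intro τ M
    have h1 : Pat (fun i j => τ (M i j)) = Pat M := by
      ext t
      change (Matrix.of fun a b => τ (M (t.2.1 a) (t.2.2 b))).det ≠ 0 ↔
        (Matrix.of fun a b => M (t.2.1 a) (t.2.2 b)).det ≠ 0
      rw [map_minor, map_ne_zero]
    funext j
    simp only [h1]
    unfold vec
    rw [map_sum]
    refine Finset.sum_congr rfl fun s _ => ?_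
    rw [map_minor τ M (pick (Pat M)).2.1 fun b => cols (pick (Pat M)) (s.succAbove b)]
    split_ifs
    · rw [map_mul, map_pow, map_neg, map_one]
    · rw [map_zero]
  · intro M hM j
    simp only [vec]
    refine IsIntegral.sum _ fun s _ => ?_
    split_ifs
    · refine IsIntegral.mul ?_ ?_
      · exact (isIntegral_one.neg).pow _
      · exact IsIntegral.det fun a b => hM _ _
    · exact isIntegral_zero
  · intro ι B hB M hM j
    have hr := le_of_mem (pick_spec M).1
    have h1 : ∀ s : Fin ((pick (Pat M)).1 + 1), ‖ι (if cols (pick (Pat M)) s = j then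
        (-1) ^ (s : ℕ) * (Matrix.of fun a b =>
          M ((pick (Pat M)).2.1 a) (cols (pick (Pat M)) (s.succAbove b))).det else 0)‖ ≤
        ((N + 1).factorial : ℝ) * B ^ N := by
      intro s
      split_ifs
      · rw [map_mul, map_pow, map_neg, map_one, norm_mul, norm_pow, norm_neg, norm_one, one_pow,
          one_mul, ← map_minor ι M (pick (Pat M)).2.1 fun b => cols (pick (Pat M)) (s.succAbove b)]
        exact norm_minor (M := fun i j => ι (M i j)) hB hM hr _ _
      · rw [map_zero, norm_zero]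
        positivity
    simp only [vec]
    rw [map_sum]
    calc ‖∑ s : Fin ((pick (Pat M)).1 + 1), ι (if cols (pick (Pat M)) s = j then
        (-1) ^ (s : ℕ) * (Matrix.of fun a b =>
          M ((pick (Pat M)).2.1 a) (cols (pick (Pat M)) (s.succAbove b))).det else 0)‖
        ≤ ∑ s : Fin ((pick (Pat M)).1 + 1), ‖ι (if cols (pick (Pat M)) s = j then
        (-1) ^ (s : ℕ) * (Matrix.of fun a b =>
          M ((pick (Pat M)).2.1 a) (cols (pick (Pat M)) (s.succAbove b))).det else 0)‖ :=
          norm_sum_le _ _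
      _ ≤ ∑ _s : Fin ((pick (Pat M)).1 + 1), ((N + 1).factorial : ℝ) * B ^ N :=
          Finset.sum_le_sum fun s _ => h1 s
      _ = (((pick (Pat M)).1 + 1 : ℕ) : ℝ) * (((N + 1).factorial : ℝ) * B ^ N) := by
          rw [Finset.sum_const, Finset.card_univ, Fintype.card_fin, nsmul_eq_mul]
      _ ≤ (N + 1 : ℝ) * (((N + 1).factorial : ℝ) * B ^ N) := by
          refine mul_le_mul_of_nonneg_right ?_ (by positivity)
          exact_mod_cast Nat.add_le_add_right hr 1
      _ = (N + 1 : ℝ) * ((N + 1).factorial : ℝ) * B ^ N := by ring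

end Pool.Agent.Helper36.HD
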