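import Pool.Agent.Helper36.HD.Defs
import Pool.Agent.Helper36.HD.IntProd

set_option autoImplicit false

/-!
HD-06 NonVan. (a) The L1 norm of polynomials; (b) `P^2 ≠ Q^2 ∏ (X - a)`; (c) a Galois-stable finite family
of nonzero polynomials with integral coefficients of size at most `B` has no integer root of large absolute
value.

PROOF. (a) `L1 ι p = ∑_(i ∈ support) ‖ι p_i‖` equals the sum over `range n` for every `n > natDegree`
(zero coefficients contribute 0); `L1_mul` from `coeff_mul` (sum over the antidiagonal) and the triangle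
inequality. (b) For `a0 ∈ s` compare the parity of `rootMultiplicity a0` on both sides: if `P^2 = Q^2 W`
with `Q ≠ 0`, `W = ∏_(a ∈ s) (X - C a)` (`a0` a simple root of `W`), the left side has even multiplicity and
the right side odd (`P ≠ 0`, otherwise `Q^2 W = 0`). (c) Let `ℓ_s = (G s).leadingCoeff ≠ 0`. `ℓ` is a
Galois-stable family (the leading coefficient of `G (π s) = (G s).map τ` is `τ ℓ_s`), so by
`one_le_prod_norm` `1 ≤ ∏ ‖ι ℓ_s‖ ≤ ‖ι ℓ_s‖ B^(card S - 1)` and `‖ι ℓ_s‖ ≥ B^(-card S)`. If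
`(G s).eval V = 0`, `D' = natDegree ≤ D` and `|V| ≥ 1` then `‖ι ℓ_s‖ |V|^D' ≤ ∑_(i < D') B |V|^i
≤ D' B |V|^(D'-1)` (`D' ≥ 1`, as a nonzero constant does not vanish), so
`|V| ≤ D B^(card S + 1)`, a contradiction (if `|V| < 1` then `V = 0` and the hypothesis `hV` fails).
-/

open Polynomial

namespace Pool.Agent.Helper36.HD

theorem L1_nonneg {F : Type} [Field F] (ι : F →+* ℂ) (p : F[X]) : 0 ≤ L1 ι p :=
  Finset.sum_nonneg fun _ _ => norm_nonneg _

theorem coeff_le_L1 {F : Type} [Field F] (ι : F →+* ℂ) (p : F[X]) (i : ℕ) :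
    ‖ι (p.coeff i)‖ ≤ L1 ι p := by
  by_cases hi : i ∈ p.support
  · exact Finset.single_le_sum (f := fun i => ‖ι (p.coeff i)‖) (fun _ _ => norm_nonneg _) hi
  · rw [notMem_support_iff.mp hi, map_zero, norm_zero]
    exact L1_nonneg ι p

private theorem L1_eq {F : Type} [Field F] (ι : F →+* ℂ) (p : F[X]) (n : ℕ)
    (h : p.natDegree < n) : L1 ι p = ∑ i ∈ Finset.range n, ‖ι (p.coeff i)‖ := by
  refine Finset.sum_subset (supp_subset_range h) (fun i _ hi => ?_)
  rw [notMem_support_iff.mp hi, map_zero, norm_zero]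

theorem L1_add {F : Type} [Field F] (ι : F →+* ℂ) (p q : F[X]) :
    L1 ι (p + q) ≤ L1 ι p + L1 ι q := by
  have h1 : (p + q).natDegree < max p.natDegree q.natDegree + 1 :=
    Nat.lt_succ_of_le (natDegree_add_le p q)
  have h2 : p.natDegree < max p.natDegree q.natDegree + 1 := Nat.lt_succ_of_le (le_max_left _ _)
  have h3 : q.natDegree < max p.natDegree q.natDegree + 1 := Nat.lt_succ_of_le (le_max_right _ _)
  rw [L1_eq ι _ _ h1, L1_eq ι _ _ h2, L1_eq ι _ _ h3, ← Finset.sum_add_distrib]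
  refine Finset.sum_le_sum fun i _ => ?_
  rw [coeff_add, map_add]
  exact norm_add_le _ _

private theorem L1_neg {F : Type} [Field F] (ι : F →+* ℂ) (p : F[X]) : L1 ι (-p) = L1 ι p := by
  unfold L1
  rw [support_neg]
  refine Finset.sum_congr rfl fun i _ => ?_
  rw [coeff_neg, map_neg, norm_neg]

theorem L1_sub {F : Type} [Field F] (ι : F →+* ℂ) (p q : F[X]) :
    L1 ι (p - q) ≤ L1 ι p + L1 ι q := by
  rw [sub_eq_add_neg, ← L1_neg ι q]
  exact L1_add ι p (-q)

private theorem L1_zero {F : Type} [Field F] (ι : F →+* ℂ) : L1 ι (0 : F[X]) = 0 := by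
  unfold L1
  rw [support_zero, Finset.sum_empty]

private theorem L1_sum' {F : Type} [Field F] (ι : F →+* ℂ) {J : Type} (s : Finset J)
    (p : J → F[X]) : L1 ι (∑ j ∈ s, p j) ≤ ∑ j ∈ s, L1 ι (p j) := by
  classical
  induction s using Finset.induction_on with
  | empty => rw [Finset.sum_empty, Finset.sum_empty, L1_zero]
  | insert a s ha ih =>
    rw [Finset.sum_insert ha, Finset.sum_insert ha]
    exact (L1_add ι _ _).trans (add_le_add le_rfl ih)

private theorem L1_monomial' {F : Type} [Field F] (ι : F →+* ℂ) (a : F) (i : ℕ) :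
    L1 ι (C a * X ^ i) ≤ ‖ι a‖ := by
  unfold L1
  calc ∑ j ∈ (C a * X ^ i).support, ‖ι ((C a * X ^ i).coeff j)‖
      ≤ ∑ j ∈ ({i} : Finset ℕ), ‖ι ((C a * X ^ i).coeff j)‖ :=
        Finset.sum_le_sum_of_subset_of_nonneg (support_C_mul_X_pow' i a)
          (fun _ _ _ => norm_nonneg _)
    _ = ‖ι a‖ := by
        rw [Finset.sum_singleton, coeff_C_mul_X_pow, if_pos rfl]

theorem L1_mul {F : Type} [Field F] (ι : F →+* ℂ) (p q : F[X]) :
    L1 ι (p * q) ≤ L1 ι p * L1 ι q := by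
  have h1 : p * q = ∑ i ∈ p.support, ∑ j ∈ q.support, C (p.coeff i * q.coeff j) * X ^ (i + j) := by
    conv_lhs => rw [p.as_sum_support_C_mul_X_pow, q.as_sum_support_C_mul_X_pow]
    rw [Finset.sum_mul_sum]
    refine Finset.sum_congr rfl fun i _ => Finset.sum_congr rfl fun j _ => ?_
    rw [C_mul, pow_add]
    ring
  rw [h1]
  refine (L1_sum' ι _ _).trans ?_
  have h2 : L1 ι p * L1 ι q =
      ∑ i ∈ p.support, ∑ j ∈ q.support, ‖ι (p.coeff i)‖ * ‖ι (q.coeff j)‖ := by
    unfold L1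
    rw [Finset.sum_mul_sum]
  rw [h2]
  refine Finset.sum_le_sum fun i _ => ?_
  refine (L1_sum' ι _ _).trans ?_
  refine Finset.sum_le_sum fun j _ => ?_
  refine (L1_monomial' ι _ _).trans ?_
  rw [map_mul, norm_mul]

theorem L1_sum {F : Type} [Field F] (ι : F →+* ℂ) {J : Type} (s : Finset J) (p : J → F[X]) :
    L1 ι (∑ j ∈ s, p j) ≤ ∑ j ∈ s, L1 ι (p j) :=
  L1_sum' ι s p

theorem L1_prod {F : Type} [Field F] (ι : F →+* ℂ) {J : Type} (s : Finset J) (p : J → F[X]) :
    L1 ι (∏ j ∈ s, p j) ≤ ∏ j ∈ s, L1 ι (p j) := by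
  classical
  induction s using Finset.induction_on with
  | empty =>
    rw [Finset.prod_empty, Finset.prod_empty]
    have h := L1_monomial' ι (1 : F) 0
    rwa [C_1, pow_zero, one_mul, map_one, norm_one] at h
  | insert a s ha ih =>
    rw [Finset.prod_insert ha, Finset.prod_insert ha]
    exact (L1_mul ι _ _).trans (mul_le_mul_of_nonneg_left ih (L1_nonneg ι _))

theorem L1_monomial {F : Type} [Field F] (ι : F →+* ℂ) (a : F) (i : ℕ) :
    L1 ι (C a * X ^ i) ≤ ‖ι a‖ :=
  L1_monomial' ι a i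

theorem L1_X_sub_C {F : Type} [Field F] (ι : F →+* ℂ) (a : F) :
    L1 ι (X - C a) ≤ 1 + ‖ι a‖ := by
  have h1 : (X - C a : F[X]) = C 1 * X ^ 1 - C a * X ^ 0 := by
    rw [C_1, pow_one, pow_zero, one_mul, mul_one]
  rw [h1]
  refine (L1_sub ι _ _).trans (add_le_add ?_ (L1_monomial' ι a 0))
  refine (L1_monomial' ι 1 1).trans ?_
  rw [map_one, norm_one]

theorem sq_ne {F : Type} [Field F] (P Q : F[X]) (hQ : Q ≠ 0) {R : Type} (S : Finset R)
    (hS : S.Nonempty) (a : R → F) (ha : Set.InjOn a S) :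
    P ^ 2 - Q ^ 2 * ∏ i ∈ S, (X - C (a i)) ≠ 0 := by
  classical
  intro h
  obtain ⟨i₀, hi₀⟩ := hS
  have h1 : P ^ 2 = Q ^ 2 * ∏ i ∈ S, (X - C (a i)) := sub_eq_zero.mp h
  set W : F[X] := ∏ i ∈ S, (X - C (a i)) with hW
  have hWne : W ≠ 0 := (monic_prod_X_sub_C a S).ne_zero
  have hQQ : Q * Q ≠ 0 := mul_ne_zero hQ hQ
  have h2 : P * P = (Q * Q) * W := by
    have : P ^ 2 = P * P := sq P
    rw [← this, h1, sq Q]
  have hPP : P * P ≠ 0 := by
    rw [h2]
    exact mul_ne_zero hQQ hWne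
  have hWd : W = (X - C (a i₀)) * ∏ i ∈ S.erase i₀, (X - C (a i)) :=
    (Finset.mul_prod_erase S (fun i => X - C (a i)) hi₀).symm
  have hW1 : rootMultiplicity (a i₀) W = 1 := by
    rw [hWd, rootMultiplicity_mul (by rw [← hWd]; exact hWne), rootMultiplicity_X_sub_C_self]
    have h3 : rootMultiplicity (a i₀) (∏ i ∈ S.erase i₀, (X - C (a i))) = 0 := by
      apply rootMultiplicity_eq_zero
      intro hr
      rw [IsRoot, eval_prod, Finset.prod_eq_zero_iff] at hr
      obtain ⟨i, hi, hi2⟩ := hr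
      rw [eval_sub, eval_X, eval_C, sub_eq_zero] at hi2
      have h4 := ha (Finset.mem_coe.mpr hi₀) (Finset.mem_coe.mpr (Finset.mem_of_mem_erase hi)) hi2
      exact (Finset.ne_of_mem_erase hi) h4.symm
    rw [h3]
  have h5 := congrArg (rootMultiplicity (a i₀)) h2
  rw [rootMultiplicity_mul hPP, rootMultiplicity_mul (by rw [← h2]; exact hPP),
    rootMultiplicity_mul hQQ, hW1] at h5
  omega

theorem eval_ne_zero (ι : AlgebraicClosure ℚ →+* ℂ) {S : Type} [Fintype S]
    (G : S → (AlgebraicClosure ℚ)[X]) (D : ℕ) (B : ℝ) (hB : 1 ≤ B) (hne : ∀ s, G s ≠ 0)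
    (hint : ∀ s i, IsIntegral ℤ ((G s).coeff i)) (hco : ∀ s i, ‖ι ((G s).coeff i)‖ ≤ B)
    (hdeg : ∀ s, (G s).natDegree ≤ D)
    (heq : ∀ τ : AlgebraicClosure ℚ ≃ₐ[ℚ] AlgebraicClosure ℚ, ∃ π : Equiv.Perm S,
      ∀ s, (G s).map ((τ : AlgebraicClosure ℚ ≃+* AlgebraicClosure ℚ) :
        AlgebraicClosure ℚ →+* AlgebraicClosure ℚ) = G (π s))
    (V : ℤ) (hV : (D : ℝ) * B ^ (Fintype.card S + 1) < |(V : ℝ)|) :
    ∀ s, (G s).eval (V : AlgebraicClosure ℚ) ≠ 0 := by
  classical
  intro s hs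
  have hB0 : 0 < B := lt_of_lt_of_le one_pos hB
  -- the leading coefficients
  have h1 := one_le_prod_norm ι (fun s => (G s).leadingCoeff) (fun s => hint s _)
    (fun s => leadingCoeff_ne_zero.mpr (hne s)) (by
      intro τ
      obtain ⟨π, hπ⟩ := heq τ
      refine ⟨π, fun s => ?_⟩
      rw [← hπ s, leadingCoeff_map]
      rfl)
  have h2 : 1 ≤ ‖ι (G s).leadingCoeff‖ * B ^ (Fintype.card S) := by
    refine h1.trans ?_
    rw [← Finset.mul_prod_erase Finset.univ _ (Finset.mem_univ s)]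
    refine mul_le_mul_of_nonneg_left ?_ (norm_nonneg _)
    calc ∏ x ∈ Finset.univ.erase s, ‖ι (G x).leadingCoeff‖
        ≤ ∏ _x ∈ Finset.univ.erase s, B :=
          Finset.prod_le_prod (fun _ _ => norm_nonneg _) (fun x _ => hco x _)
      _ = B ^ (Finset.univ.erase s).card := by rw [Finset.prod_const]
      _ ≤ B ^ (Fintype.card S) :=
          pow_le_pow_right₀ hB (le_trans (Finset.card_erase_le) (le_of_eq Finset.card_univ))
  -- the degree is positive
  set d := (G s).natDegree with hd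
  have hd0 : d ≠ 0 := by
    intro h0
    have h3 : G s = C ((G s).coeff 0) := eq_C_of_natDegree_eq_zero h0
    rw [h3, eval_C] at hs
    rw [hs, C_0] at h3
    exact hne s h3
  have hDd : d ≤ D := hdeg s
  have hD1 : (1 : ℝ) ≤ D := by exact_mod_cast (by omega : 1 ≤ D)
  set v : ℝ := |(V : ℝ)| with hv
  have hv1 : 1 ≤ v := by
    have h3 : (1 : ℝ) ≤ B ^ (Fintype.card S + 1) := one_le_pow₀ hB
    nlinarith
  have hv0 : 0 < v := by linarith
  -- the equation
  have h4 : ι ((G s).leadingCoeff) * (V : ℂ) ^ d = - ∑ i ∈ Finset.range d, ι ((G s).coeff i) * (V : ℂ) ^ i := by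
    have h5 := congrArg ι hs
    rw [eval_eq_sum_range, map_sum, map_zero, Finset.sum_range_succ] at h5
    simp only [map_mul, map_pow, map_intCast] at h5
    have h6 : (G s).leadingCoeff = (G s).coeff (G s).natDegree := rfl
    rw [h6, ← hd]
    rw [← hd] at h5
    linear_combination h5
  have h5 : ‖ι ((G s).leadingCoeff)‖ * v ^ d ≤ d * (B * v ^ (d - 1)) := by
    have h6 : ‖ι ((G s).leadingCoeff)‖ * v ^ d = ‖ι ((G s).leadingCoeff) * (V : ℂ) ^ d‖ := by
      rw [norm_mul, norm_pow, Complex.norm_intCast]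
    rw [h6, h4, norm_neg]
    refine (norm_sum_le _ _).trans ?_
    calc ∑ i ∈ Finset.range d, ‖ι ((G s).coeff i) * (V : ℂ) ^ i‖
        ≤ ∑ _i ∈ Finset.range d, B * v ^ (d - 1) := by
          refine Finset.sum_le_sum fun i hi => ?_
          rw [norm_mul, norm_pow, Complex.norm_intCast]
          have h7 : i ≤ d - 1 := by
            have := Finset.mem_range.mp hi
            omega
          exact mul_le_mul (hco s i) (pow_le_pow_right₀ hv1 h7) (by positivity) hB0.le
      _ = d * (B * v ^ (d - 1)) := by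
          rw [Finset.sum_const, Finset.card_range, nsmul_eq_mul]
  have h6 : ‖ι ((G s).leadingCoeff)‖ * v ≤ d * B := by
    have h7 : v ^ d = v ^ (d - 1) * v := by
      rw [← pow_succ]
      congr 1
      omega
    rw [h7] at h5
    have h8 : 0 < v ^ (d - 1) := by positivity
    refine le_of_mul_le_mul_right ?_ h8
    calc ‖ι ((G s).leadingCoeff)‖ * v * v ^ (d - 1)
        = ‖ι ((G s).leadingCoeff)‖ * (v ^ (d - 1) * v) := by ring
      _ ≤ d * (B * v ^ (d - 1)) := h5
      _ = d * B * v ^ (d - 1) := by ring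
  have h7 : v ≤ D * B ^ (Fintype.card S + 1) := by
    calc v = 1 * v := (one_mul v).symm
      _ ≤ (‖ι (G s).leadingCoeff‖ * B ^ (Fintype.card S)) * v :=
          mul_le_mul_of_nonneg_right h2 hv0.le
      _ = (‖ι (G s).leadingCoeff‖ * v) * B ^ (Fintype.card S) := by ring
      _ ≤ (d * B) * B ^ (Fintype.card S) :=
          mul_le_mul_of_nonneg_right h6 (by positivity)
      _ = d * B ^ (Fintype.card S + 1) := by rw [pow_succ]; ring
      _ ≤ D * B ^ (Fintype.card S + 1) := by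
          refine mul_le_mul_of_nonneg_right ?_ (by positivity)
          exact_mod_cast hDd
  linarith

end Pool.Agent.Helper36.HD
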