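import Pool.Agent.Helper36.HD.Defs

set_option autoImplicit false

/-!
HD-04 Pade. Size of `P(V) - Q(V) V^k ρ` for `ρ = ∑_(m ≤ 2N+k) c_m V^(-m) + small`, when the coefficients of
`V^(-1), ..., V^(-N)` in `Q(V) V^k ∑ c_m V^(-m)` vanish.

PROOF. Let `L = 2N+k`, `T = ∑_(m ≤ L) c_m V^(-m)`, `v = ‖V‖ ≥ 1`. `Q(V) V^k T = ∑_j ∑_(m ≤ L) q_j c_m V^(j+k-m)`.
The terms with `m ≤ j + k` sum to `P(V)` (note `j + k ≤ N + k ≤ L`). For `m = j + k + l`, `1 ≤ l ≤ N`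
(then `m ≤ L` for every `j ≤ N`) the sum over `j` is `V^(-l) ∑_j q_j c_(j+k+l) = 0`. The remaining terms
have `l ≥ N + 1`, there are at most `(N+1)(L+1)` of them, each of norm at most `B^2 v^(-(N+1))`.
Finally `‖Q(V) V^k (ρ - T)‖ ≤ (N+1) B v^(N+k) B v^(-(L+1)) = (N+1) B^2 v^(-(N+1))`.
`pade_big`: `‖P(V)‖ ≤ (N+1)(N+k+1) B^2 v^(N+k)`, `‖Q(V) V^k ρ‖ ≤ (N+1) B v^(N+k) 2`.
-/

open Polynomial

namespace Pool.Agent.Helper36.HD

private theorem eval_Qp {N : ℕ} (q : Fin (N + 1) → ℂ) (V : ℂ) :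
    (Qp q).eval V = ∑ j : Fin (N + 1), q j * V ^ j.1 := by
  unfold Qp
  rw [eval_finsetSum]
  exact Finset.sum_congr rfl fun j _ => by simp

private theorem eval_Pp {N : ℕ} (q : Fin (N + 1) → ℂ) (c : ℕ → ℂ) (k : ℕ) (V : ℂ) :
    (Pp q c k).eval V =
      ∑ j : Fin (N + 1), q j * ∑ m ∈ Finset.range (j.1 + k + 1), c m * V ^ (j.1 + k - m) := by
  unfold Pp
  rw [eval_finsetSum]
  refine Finset.sum_congr rfl fun j _ => ?_
  rw [eval_finsetSum, Finset.mul_sum]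
  exact Finset.sum_congr rfl fun m _ => by simp [mul_assoc]

/-- splitting of `V^(j+k) T` -/
private theorem split_T {V : ℂ} (hV : V ≠ 0) (c : ℕ → ℂ) (N k j : ℕ) (hj : j ≤ N) :
    V ^ (j + k) * ∑ m ∈ Finset.range (2 * N + k + 1), c m * (V⁻¹) ^ m =
      (∑ m ∈ Finset.range (j + k + 1), c m * V ^ (j + k - m)) +
        ((∑ l ∈ Finset.range N, c (j + k + l + 1) * (V⁻¹) ^ (l + 1)) +
          ∑ l ∈ Finset.Ico N (2 * N - j), c (j + k + l + 1) * (V⁻¹) ^ (l + 1)) := by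
  have e1 : 2 * N + k + 1 = (j + k + 1) + (2 * N - j) := by omega
  rw [e1, Finset.sum_range_add, mul_add, Finset.mul_sum, Finset.mul_sum,
    Finset.sum_range_add_sum_Ico _ (show N ≤ 2 * N - j by omega)]
  congr 1
  · refine Finset.sum_congr rfl fun m hm => ?_
    have h1 : m ≤ j + k := by have := Finset.mem_range.mp hm; omega
    have h2 : V ^ (j + k) = V ^ (j + k - m) * V ^ m := by rw [← pow_add, Nat.sub_add_cancel h1]
    have h3 : V ^ m * (V⁻¹) ^ m = 1 := by rw [← mul_pow, mul_inv_cancel₀ hV, one_pow]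
    calc V ^ (j + k) * (c m * (V⁻¹) ^ m) = c m * V ^ (j + k - m) * (V ^ m * (V⁻¹) ^ m) := by rw [h2]; ring
      _ = _ := by rw [h3, mul_one]
  · refine Finset.sum_congr rfl fun l _ => ?_
    have h3 : V ^ (j + k) * (V⁻¹) ^ (j + k) = 1 := by rw [← mul_pow, mul_inv_cancel₀ hV, one_pow]
    have h4 : (V⁻¹) ^ (j + k + 1 + l) = (V⁻¹) ^ (j + k) * (V⁻¹) ^ (l + 1) := by rw [← pow_add]; congr 1; ring
    have h5 : j + k + 1 + l = j + k + l + 1 := by ring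
    calc V ^ (j + k) * (c (j + k + 1 + l) * (V⁻¹) ^ (j + k + 1 + l)) =
          c (j + k + 1 + l) * (V⁻¹) ^ (l + 1) * (V ^ (j + k) * (V⁻¹) ^ (j + k)) := by rw [h4]; ring
      _ = _ := by rw [h3, mul_one, h5]

theorem pade_small (N k : ℕ) :
    ∃ C : ℝ, 1 ≤ C ∧ ∀ (q : Fin (N + 1) → ℂ) (c : ℕ → ℂ) (B : ℝ) (V ρ : ℂ), 1 ≤ B → 1 ≤ ‖V‖ →
      (∀ j, ‖q j‖ ≤ B) → (∀ m, m ≤ 2 * N + k → ‖c m‖ ≤ B) →
      (∀ i : Fin N, ∑ j : Fin (N + 1), c (j.1 + k + i.1 + 1) * q j = 0) →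
      ‖ρ - ∑ m ∈ Finset.range (2 * N + k + 1), c m * (V⁻¹) ^ m‖ ≤ B * (‖V‖⁻¹) ^ (2 * N + k + 1) →
      ‖(Pp q c k).eval V - (Qp q).eval V * (V ^ k * ρ)‖ ≤ C * B ^ 2 * (‖V‖⁻¹) ^ (N + 1) := by
  refine ⟨((N : ℝ) + 1) * N + (N + 1), by nlinarith [(Nat.cast_nonneg N : (0 : ℝ) ≤ N)], ?_⟩
  intro q c B V ρ hB hv hq hc h0 hρ
  have hN0 : (0 : ℝ) ≤ N := Nat.cast_nonneg N
  have hB0 : (0 : ℝ) ≤ B := by linarith
  have hV : V ≠ 0 := by
    intro h
    rw [h, norm_zero] at hv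
    linarith
  obtain ⟨v, hvd⟩ : ∃ v, v = ‖V‖ := ⟨_, rfl⟩
  have hv0 : 0 < v := by rw [hvd]; exact norm_pos_iff.mpr hV
  have hv1 : 1 ≤ v := by rw [hvd]; exact hv
  obtain ⟨w, hwd⟩ : ∃ w, w = ‖V‖⁻¹ := ⟨_, rfl⟩
  have hwn : ‖V⁻¹‖ = w := by rw [norm_inv, hwd]
  have hw0 : 0 ≤ w := by rw [← hwn]; exact norm_nonneg _
  have hw1 : w ≤ 1 := by rw [hwd]; exact inv_le_one_of_one_le₀ hv
  have hvw : v * w = 1 := by rw [hvd, hwd]; exact mul_inv_cancel₀ (by rw [← hvd]; exact hv0.ne')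
  obtain ⟨T, hT⟩ : ∃ T, T = ∑ m ∈ Finset.range (2 * N + k + 1), c m * (V⁻¹) ^ m := ⟨_, rfl⟩
  rw [← hT, ← hwd] at hρ
  -- the main part
  have h1 : (Qp q).eval V * (V ^ k * T) = (Pp q c k).eval V +
      ∑ j : Fin (N + 1), q j * ∑ l ∈ Finset.Ico N (2 * N - j.1), c (j.1 + k + l + 1) * (V⁻¹) ^ (l + 1) := by
    have h2 : ∑ j : Fin (N + 1), q j * ∑ l ∈ Finset.range N, c (j.1 + k + l + 1) * (V⁻¹) ^ (l + 1) = 0 := by
      have h3 : ∑ j : Fin (N + 1), q j * ∑ l ∈ Finset.range N, c (j.1 + k + l + 1) * (V⁻¹) ^ (l + 1) =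
          ∑ l ∈ Finset.range N, (V⁻¹) ^ (l + 1) * ∑ j : Fin (N + 1), c (j.1 + k + l + 1) * q j := by
        simp only [Finset.mul_sum]
        rw [Finset.sum_comm]
        exact Finset.sum_congr rfl fun l _ => Finset.sum_congr rfl fun j _ => by ring
      rw [h3]
      refine Finset.sum_eq_zero fun l hl => ?_
      have := h0 ⟨l, Finset.mem_range.mp hl⟩
      rw [this, mul_zero]
    rw [eval_Qp, eval_Pp, Finset.sum_mul]
    have h4 : ∀ j : Fin (N + 1), q j * V ^ j.1 * (V ^ k * T) =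
        q j * (∑ m ∈ Finset.range (j.1 + k + 1), c m * V ^ (j.1 + k - m)) +
          (q j * (∑ l ∈ Finset.range N, c (j.1 + k + l + 1) * (V⁻¹) ^ (l + 1)) +
          q j * ∑ l ∈ Finset.Ico N (2 * N - j.1), c (j.1 + k + l + 1) * (V⁻¹) ^ (l + 1)) := by
      intro j
      have h5 := split_T hV c N k j.1 (by have := j.2; omega)
      rw [← hT] at h5
      calc q j * V ^ j.1 * (V ^ k * T) = q j * (V ^ (j.1 + k) * T) := by rw [pow_add]; ring
        _ = _ := by rw [h5]; ring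
    rw [Finset.sum_congr rfl fun j _ => h4 j, Finset.sum_add_distrib, Finset.sum_add_distrib, h2, zero_add]
  have h6 : ‖∑ j : Fin (N + 1), q j * ∑ l ∈ Finset.Ico N (2 * N - j.1),
      c (j.1 + k + l + 1) * (V⁻¹) ^ (l + 1)‖ ≤ ((N : ℝ) + 1) * N * (B ^ 2 * w ^ (N + 1)) := by
    have h7 : ∀ j : Fin (N + 1), ‖q j * ∑ l ∈ Finset.Ico N (2 * N - j.1),
        c (j.1 + k + l + 1) * (V⁻¹) ^ (l + 1)‖ ≤ (N : ℝ) * (B ^ 2 * w ^ (N + 1)) := by
      intro j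
      have h8 : ‖∑ l ∈ Finset.Ico N (2 * N - j.1), c (j.1 + k + l + 1) * (V⁻¹) ^ (l + 1)‖ ≤
          (N : ℝ) * (B * w ^ (N + 1)) := by
        refine (norm_sum_le _ _).trans ?_
        have h9 : ∀ l ∈ Finset.Ico N (2 * N - j.1), ‖c (j.1 + k + l + 1) * (V⁻¹) ^ (l + 1)‖ ≤
            B * w ^ (N + 1) := by
          intro l hl
          have := Finset.mem_Ico.mp hl
          rw [norm_mul, norm_pow, hwn]
          refine mul_le_mul (hc _ (by omega)) (pow_le_pow_of_le_one hw0 hw1 (by omega)) (pow_nonneg hw0 _) hB0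
        refine (Finset.sum_le_sum h9).trans ?_
        rw [Finset.sum_const, nsmul_eq_mul, Nat.card_Ico]
        refine mul_le_mul_of_nonneg_right ?_ (mul_nonneg hB0 (pow_nonneg hw0 _))
        exact_mod_cast (show 2 * N - j.1 - N ≤ N by omega)
      rw [norm_mul]
      calc ‖q j‖ * ‖∑ l ∈ Finset.Ico N (2 * N - j.1), c (j.1 + k + l + 1) * (V⁻¹) ^ (l + 1)‖ ≤
            B * ((N : ℝ) * (B * w ^ (N + 1))) := mul_le_mul (hq j) h8 (norm_nonneg _) hB0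
        _ = (N : ℝ) * (B ^ 2 * w ^ (N + 1)) := by ring
    refine (norm_sum_le _ _).trans ((Finset.sum_le_sum fun j _ => h7 j).trans ?_)
    rw [Finset.sum_const, nsmul_eq_mul, Finset.card_univ, Fintype.card_fin]
    push_cast
    exact le_of_eq (by ring)
  have h10 : ‖(Qp q).eval V * (V ^ k * (ρ - T))‖ ≤ ((N : ℝ) + 1) * (B ^ 2 * w ^ (N + 1)) := by
    rw [eval_Qp, Finset.sum_mul]
    have h11 : ∀ j : Fin (N + 1), ‖q j * V ^ j.1 * (V ^ k * (ρ - T))‖ ≤ B ^ 2 * w ^ (N + 1) := by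
      intro j
      have hj : j.1 ≤ N := by have := j.2; omega
      have h12 : v ^ (j.1 + k) ≤ v ^ (N + k) := pow_le_pow_right₀ hv1 (by omega)
      have h13 : v ^ (N + k) * w ^ (2 * N + k + 1) = w ^ (N + 1) := by
        have e : 2 * N + k + 1 = (N + k) + (N + 1) := by ring
        rw [e, pow_add w (N + k), ← mul_assoc, ← mul_pow, hvw, one_pow, one_mul]
      calc ‖q j * V ^ j.1 * (V ^ k * (ρ - T))‖ = ‖q j‖ * v ^ (j.1 + k) * ‖ρ - T‖ := by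
            rw [norm_mul, norm_mul, norm_mul, norm_pow, norm_pow, ← hvd, pow_add]
            ring
        _ ≤ B * v ^ (N + k) * (B * w ^ (2 * N + k + 1)) := by
            refine mul_le_mul (mul_le_mul (hq j) h12 (pow_nonneg hv0.le _) hB0) hρ (norm_nonneg _)
              (mul_nonneg hB0 (pow_nonneg hv0.le _))
        _ = B ^ 2 * (v ^ (N + k) * w ^ (2 * N + k + 1)) := by ring
        _ = B ^ 2 * w ^ (N + 1) := by rw [h13]
    refine (norm_sum_le _ _).trans ((Finset.sum_le_sum fun j _ => h11 j).trans ?_)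
    rw [Finset.sum_const, nsmul_eq_mul, Finset.card_univ, Fintype.card_fin]
    push_cast
    exact le_of_eq (by ring)
  have h14 : (Pp q c k).eval V - (Qp q).eval V * (V ^ k * ρ) =
      -(∑ j : Fin (N + 1), q j * ∑ l ∈ Finset.Ico N (2 * N - j.1),
        c (j.1 + k + l + 1) * (V⁻¹) ^ (l + 1)) - (Qp q).eval V * (V ^ k * (ρ - T)) := by
    have h15 : (Qp q).eval V * (V ^ k * ρ) =
        (Qp q).eval V * (V ^ k * T) + (Qp q).eval V * (V ^ k * (ρ - T)) := by ring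
    rw [h15, h1]
    ring
  rw [h14, ← hwd]
  refine (norm_sub_le _ _).trans ?_
  rw [norm_neg]
  refine (add_le_add h6 h10).trans (le_of_eq ?_)
  ring

theorem pade_big (N k : ℕ) :
    ∃ C : ℝ, 1 ≤ C ∧ ∀ (q : Fin (N + 1) → ℂ) (c : ℕ → ℂ) (B : ℝ) (V ρ : ℂ), 1 ≤ B → 1 ≤ ‖V‖ →
      (∀ j, ‖q j‖ ≤ B) → (∀ m, m ≤ 2 * N + k → ‖c m‖ ≤ B) → ‖ρ‖ ≤ 2 →
      ‖(Pp q c k).eval V‖ + ‖(Qp q).eval V * (V ^ k * ρ)‖ ≤ C * B ^ 2 * ‖V‖ ^ (N + k) := by
  refine ⟨((N : ℝ) + 1) * (N + k + 1) + 2 * (N + 1), by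
    have h1 : (0 : ℝ) ≤ N := Nat.cast_nonneg N
    have h2 : (0 : ℝ) ≤ k := Nat.cast_nonneg k
    nlinarith [mul_nonneg h1 h2], ?_⟩
  intro q c B V ρ hB hv hq hc hρ
  have hN0 : (0 : ℝ) ≤ N := Nat.cast_nonneg N
  have hB0 : (0 : ℝ) ≤ B := by linarith
  obtain ⟨v, hvd⟩ : ∃ v, v = ‖V‖ := ⟨_, rfl⟩
  rw [← hvd] at hv
  rw [← hvd]
  have hv0 : 0 ≤ v := by linarith
  have hX : 0 ≤ v ^ (N + k) := pow_nonneg hv0 _
  have h1 : ‖(Pp q c k).eval V‖ ≤ ((N : ℝ) + 1) * (N + k + 1) * (B ^ 2 * v ^ (N + k)) := by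
    rw [eval_Pp]
    have h2 : ∀ j : Fin (N + 1), ‖q j * ∑ m ∈ Finset.range (j.1 + k + 1), c m * V ^ (j.1 + k - m)‖ ≤
        ((N : ℝ) + k + 1) * (B ^ 2 * v ^ (N + k)) := by
      intro j
      have hj : j.1 ≤ N := by have := j.2; omega
      have h3 : ‖∑ m ∈ Finset.range (j.1 + k + 1), c m * V ^ (j.1 + k - m)‖ ≤
          ((N : ℝ) + k + 1) * (B * v ^ (N + k)) := by
        refine (norm_sum_le _ _).trans ?_
        have h4 : ∀ m ∈ Finset.range (j.1 + k + 1), ‖c m * V ^ (j.1 + k - m)‖ ≤ B * v ^ (N + k) := by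
          intro m hm
          have := Finset.mem_range.mp hm
          rw [norm_mul, norm_pow, ← hvd]
          exact mul_le_mul (hc m (by omega)) (pow_le_pow_right₀ hv (by omega)) (pow_nonneg hv0 _) hB0
        refine (Finset.sum_le_sum h4).trans ?_
        rw [Finset.sum_const, nsmul_eq_mul, Finset.card_range]
        refine mul_le_mul_of_nonneg_right ?_ (mul_nonneg hB0 hX)
        have : j.1 + k + 1 ≤ N + k + 1 := by omega
        exact_mod_cast this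
      rw [norm_mul]
      calc ‖q j‖ * ‖∑ m ∈ Finset.range (j.1 + k + 1), c m * V ^ (j.1 + k - m)‖ ≤
            B * (((N : ℝ) + k + 1) * (B * v ^ (N + k))) := mul_le_mul (hq j) h3 (norm_nonneg _) hB0
        _ = _ := by ring
    refine (norm_sum_le _ _).trans ((Finset.sum_le_sum fun j _ => h2 j).trans ?_)
    rw [Finset.sum_const, nsmul_eq_mul, Finset.card_univ, Fintype.card_fin]
    push_cast
    exact le_of_eq (by ring)
  have h5 : ‖(Qp q).eval V * (V ^ k * ρ)‖ ≤ ((N : ℝ) + 1) * (2 * (B ^ 2 * v ^ (N + k))) := by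
    rw [eval_Qp, Finset.sum_mul]
    have h6 : ∀ j : Fin (N + 1), ‖q j * V ^ j.1 * (V ^ k * ρ)‖ ≤ 2 * (B ^ 2 * v ^ (N + k)) := by
      intro j
      have hj : j.1 ≤ N := by have := j.2; omega
      have h12 : v ^ (j.1 + k) ≤ v ^ (N + k) := pow_le_pow_right₀ hv (by omega)
      calc ‖q j * V ^ j.1 * (V ^ k * ρ)‖ = ‖q j‖ * v ^ (j.1 + k) * ‖ρ‖ := by
            rw [norm_mul, norm_mul, norm_mul, norm_pow, norm_pow, ← hvd, pow_add]
            ring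
        _ ≤ B * v ^ (N + k) * 2 := mul_le_mul (mul_le_mul (hq j) h12 (pow_nonneg hv0 _) hB0) hρ
              (norm_nonneg _) (mul_nonneg hB0 hX)
        _ ≤ 2 * (B ^ 2 * v ^ (N + k)) := by nlinarith [mul_nonneg (mul_nonneg hB0 (sub_nonneg.mpr hB)) hX]
    refine (norm_sum_le _ _).trans ((Finset.sum_le_sum fun j _ => h6 j).trans ?_)
    rw [Finset.sum_const, nsmul_eq_mul, Finset.card_univ, Fintype.card_fin]
    push_cast
    exact le_of_eq (by ring)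
  refine (add_le_add h1 h5).trans (le_of_eq ?_)
  ring

end Pool.Agent.Helper36.HD
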