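import Pool.Agent.Helper36.HD.Defs

set_option autoImplicit false

/-!
HD-02 Rseq. Properties of the integral formal square root `rsq`, `cf` (see Defs).

PROOF. `rsq_zero`, `rsq_succ`: unfold. Map and integrality: strong induction on `m` with `rsq_succ`.
`cf_sq`: for `m = 0` both sides are `1` (`g 0 = 1`). For `m = m' + 1` the sum over the antidiagonal of `m`
has the two terms `(0, m)`, `(m, 0)`, each `2 R_m`, and the terms `0 < i < m`, each `4 R_i R_(m-i)`, so it
is `4 R_m + 4 ∑_(0<i<m) R_i R_(m-i) = 4^m g_m` by the recursion.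
Bound: let `b : ℕ → ℝ`, `b 0 = 0`, `b (m+1) = 4^m |G| + ∑ i : Fin m, b (i+1) b (m-i)` (or `rsq` itself of a
suitable sequence with signs changed; or prove `∃ b` by strong recursion); `b ≥ 0` and
`‖rsq g m‖ ≤ b m * H^m` by strong induction: `‖g (m+1)‖ ≤ G H^(m+1)` and `H^(i+1) H^(m-i) = H^(m+1)`.
-/

namespace Pool.Agent.Helper36.HD

theorem rsq_zero {A : Type} [CommRing A] (g : ℕ → A) : rsq g 0 = 0 := by
  rw [rsq]

theorem rsq_succ {A : Type} [CommRing A] (g : ℕ → A) (m : ℕ) :
    rsq g (m + 1) = 4 ^ m * g (m + 1) - ∑ i : Fin m, rsq g (i.1 + 1) * rsq g (m - i.1) := by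
  rw [rsq]

theorem rsq_map {A B : Type} [CommRing A] [CommRing B] (τ : A →+* B) (g : ℕ → A) (m : ℕ) :
    τ (rsq g m) = rsq (fun m => τ (g m)) m := by
  induction m using Nat.strong_induction_on with
  | _ m ih =>
    cases m with
    | zero => rw [rsq_zero, rsq_zero, map_zero]
    | succ m =>
      rw [rsq_succ, rsq_succ, map_sub, map_mul, map_pow, map_sum, map_ofNat]
      congr 1
      refine Finset.sum_congr rfl fun i _ => ?_
      have hi := i.2
      rw [map_mul, ih (i.1 + 1) (by omega), ih (m - i.1) (by omega)]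

theorem cf_map {A B : Type} [CommRing A] [CommRing B] (τ : A →+* B) (g : ℕ → A) (m : ℕ) :
    τ (cf g m) = cf (fun m => τ (g m)) m := by
  unfold cf
  split_ifs
  · exact map_one τ
  · rw [map_mul, map_ofNat, rsq_map]

theorem rsq_integral {A : Type} [CommRing A] (g : ℕ → A) (hg : ∀ m, IsIntegral ℤ (g m)) (m : ℕ) :
    IsIntegral ℤ (rsq g m) := by
  induction m using Nat.strong_induction_on with
  | _ m ih =>
    cases m with
    | zero =>
      rw [rsq_zero]
      exact isIntegral_zero
    | succ m =>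
      rw [rsq_succ]
      have h4 : IsIntegral ℤ (4 : A) := by
        have h := isIntegral_algebraMap (R := ℤ) (A := A) (x := 4)
        simpa using h
      refine IsIntegral.sub ((h4.pow m).mul (hg _)) (IsIntegral.sum _ fun i _ => ?_)
      have hi := i.2
      exact (ih (i.1 + 1) (by omega)).mul (ih (m - i.1) (by omega))

theorem cf_integral {A : Type} [CommRing A] (g : ℕ → A) (hg : ∀ m, IsIntegral ℤ (g m)) (m : ℕ) :
    IsIntegral ℤ (cf g m) := by
  unfold cf
  split_ifs
  · exact isIntegral_one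
  · have h2 : IsIntegral ℤ (2 : A) := by
      have h := isIntegral_algebraMap (R := ℤ) (A := A) (x := 2)
      simpa using h
    exact h2.mul (rsq_integral g hg m)

theorem cf_sq {A : Type} [CommRing A] (g : ℕ → A) (h0 : g 0 = 1) (m : ℕ) :
    ∑ p ∈ Finset.HasAntidiagonal.antidiagonal m, cf g p.1 * cf g p.2 = 4 ^ m * g m := by
  cases m with
  | zero => simp [cf, h0]
  | succ m =>
    rw [Finset.Nat.sum_antidiagonal_eq_sum_range_succ (fun i j => cf g i * cf g j),
      Finset.sum_range_succ, Finset.sum_range_succ']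
    have h1 : ∑ k ∈ Finset.range m, cf g (k + 1) * cf g (m + 1 - (k + 1)) =
        4 * ∑ i : Fin m, rsq g (i.1 + 1) * rsq g (m - i.1) := by
      rw [Fin.sum_univ_eq_sum_range (fun i => rsq g (i + 1) * rsq g (m - i)) m, Finset.mul_sum]
      refine Finset.sum_congr rfl fun k hk => ?_
      have hk' := Finset.mem_range.1 hk
      have e1 : m + 1 - (k + 1) = m - k := by omega
      have e2 : cf g (k + 1) = 2 * rsq g (k + 1) := by simp [cf]
      have e3 : cf g (m - k) = 2 * rsq g (m - k) := by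
        unfold cf
        rw [if_neg (by omega)]
      rw [e1, e2, e3]
      ring
    have h2 : cf g (m + 1) = 2 * rsq g (m + 1) := by simp [cf]
    have h3 : cf g 0 = 1 := by simp [cf]
    have h4 : m + 1 - (m + 1) = 0 := by omega
    have h5 : m + 1 - 0 = m + 1 := by omega
    rw [h1, h4, h5, h2, h3, rsq_succ]
    ring

/-- the bounds -/
private noncomputable def bb (G : ℝ) : ℕ → ℝ
  | 0 => 0
  | (m + 1) => 4 ^ m * |G| + ∑ i : Fin m, bb G (i.1 + 1) * bb G (m - i.1)
decreasing_by
  all_goals have := i.2; omega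

private theorem bb_zero (G : ℝ) : bb G 0 = 0 := by
  rw [bb]

private theorem bb_succ (G : ℝ) (m : ℕ) :
    bb G (m + 1) = 4 ^ m * |G| + ∑ i : Fin m, bb G (i.1 + 1) * bb G (m - i.1) := by
  rw [bb]

private theorem bb_nonneg (G : ℝ) (m : ℕ) : 0 ≤ bb G m := by
  induction m using Nat.strong_induction_on with
  | _ m ih =>
    cases m with
    | zero => rw [bb_zero]
    | succ m =>
      rw [bb_succ]
      refine add_nonneg (by positivity) (Finset.sum_nonneg fun i _ => ?_)
      have hi := i.2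
      exact mul_nonneg (ih (i.1 + 1) (by omega)) (ih (m - i.1) (by omega))

theorem rsq_bound (G : ℝ) : ∃ b : ℕ → ℝ, (∀ m, 0 ≤ b m) ∧ ∀ (g : ℕ → ℂ) (H : ℝ), 0 ≤ H →
    (∀ m, ‖g m‖ ≤ G * H ^ m) → ∀ m, ‖rsq g m‖ ≤ b m * H ^ m := by
  refine ⟨bb G, bb_nonneg G, fun g H hH hg m => ?_⟩
  induction m using Nat.strong_induction_on with
  | _ m ih =>
    cases m with
    | zero => simp [rsq_zero, bb_zero]
    | succ m =>
      rw [rsq_succ, bb_succ, add_mul, Finset.sum_mul]
      refine (norm_sub_le _ _).trans (add_le_add ?_ ((norm_sum_le _ _).trans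
        (Finset.sum_le_sum fun i _ => ?_)))
      · rw [norm_mul, norm_pow]
        have h4 : ‖(4 : ℂ)‖ = 4 := by norm_num
        rw [h4, mul_assoc]
        refine mul_le_mul_of_nonneg_left ((hg (m + 1)).trans ?_) (by positivity)
        exact mul_le_mul_of_nonneg_right (le_abs_self G) (by positivity)
      · have hi := i.2
        have h1 := ih (i.1 + 1) (by omega)
        have h2 := ih (m - i.1) (by omega)
        rw [norm_mul]
        have h3 : bb G (i.1 + 1) * bb G (m - i.1) * H ^ (m + 1) =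
            (bb G (i.1 + 1) * H ^ (i.1 + 1)) * (bb G (m - i.1) * H ^ (m - i.1)) := by
          have e : m + 1 = (i.1 + 1) + (m - i.1) := by omega
          rw [show H ^ (m + 1) = H ^ (i.1 + 1) * H ^ (m - i.1) by rw [← pow_add, ← e]]
          ring
        rw [h3]
        exact mul_le_mul h1 h2 (norm_nonneg _) (mul_nonneg (bb_nonneg G _) (by positivity))

theorem cf_bound (G : ℝ) : ∃ b : ℕ → ℝ, (∀ m, 0 ≤ b m) ∧ ∀ (g : ℕ → ℂ) (H : ℝ), 0 ≤ H →
    (∀ m, ‖g m‖ ≤ G * H ^ m) → ∀ m, ‖cf g m‖ ≤ b m * H ^ m := by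
  obtain ⟨b, hb, h⟩ := rsq_bound G
  refine ⟨fun m => 1 + 2 * b m, fun m => by have := hb m; positivity, fun g H hH hg m => ?_⟩
  unfold cf
  split_ifs with h0
  · subst h0
    have := hb 0
    simp only [norm_one, pow_zero, mul_one]
    linarith
  · have h1 := h g H hH hg m
    have h2 : ‖(2 : ℂ)‖ = 2 := by norm_num
    have h3 : 0 ≤ H ^ m := by positivity
    rw [norm_mul, h2]
    linarith

end Pool.Agent.Helper36.HD
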