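import Pool.Agent.Helper36.HD.Defs
import Pool.Agent.Helper36.HD.Ker
import Pool.Agent.Helper36.HD.Rseq
import Pool.Agent.Helper36.HD.Approx
import Pool.Agent.Helper36.HD.Pade
import Pool.Agent.Helper36.HD.NonVan
import Pool.Agent.Helper36.HD.GSet

set_option autoImplicit false

/-!
HD-10 Fam. The Pade approximants `P_S / Q_S` of `sqrt (∏_(i ∈ S) (X - 4 η_i))`, `card S = 2k`, chosen naturally.

PROOF. `Ω = AlgebraicClosure ℚ`. Let `K0` be the kernel function of `exists_kernel N` (`F = Ω`). For a finite set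
`S` put `g_S = gS η S`, `M_S i j = rsq g_S (j + k + i + 1)`, `q_S = K0 M_S`, `P S = Pp q_S (cf g_S) k`,
`Q S = Qp q_S`. Integrality: coefficients of `Pp`, `Qp` are sums of products of the integral `q_S j`,
`cf g_S m` (`gS_integral`, `rsq_integral`, `cf_integral`, kernel integrality). Naturality: if
`τ (η i) = η (φ i)` then `τ ∘ g_S = gS (τ ∘ η) S = gS (η ∘ φ) S = g_(φ S)` (`gS_map`, `gS_perm`), so
`τ ∘ M_S = M_(φ S)` (`rsq_map`), `τ ∘ q_S = q_(φ S)`, and `Pp`, `Qp` commute with `Polynomial.map`.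
`Q S ≠ 0`: its coefficients of `X^j`, `j ≤ N`, are the `q_S j`, not all zero.
Bounds, `card S = 2k`: `‖ι (g_S m)‖ ≤ 2^(2k) H^m` (`gS_bound`, `gS_map`), so with `b` from `rsq_bound`,
`cf_bound` (`G = 2^(2k)`) all `‖ι (rsq g_S m)‖, ‖ι (cf g_S m)‖ ≤ B1 = C1 H^(2N+k)` for `m ≤ 2N+k`
(`C1` the maximum or the sum of the `b m`, plus 1), `‖ι (q_S j)‖ ≤ (N+1) (N+1)! B1^N`. So everything is
`≤ B = C2 H^c2`. `L1 (P S) ≤ (N+1)(N+k+1) B^2`, `L1 (Q S) ≤ (N+1) B`; degrees `≤ N + k`.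
Last part: `ρ_S = ∏_(i ∈ S) ρ i` has `ρ_S^2 = ∏ (1 - 4 ι η_i u) = ∑_(m ≤ 2k) 4^m (ι g_S m) u^m`, `u = V⁻¹`
(`gS_prod`), and `‖ρ_S - 1‖ ≤ (1 + 4H/|V|)^(2k) - 1 ≤ 1/2`, `‖ρ_S‖ ≤ 2` when `|V| > C H`; `approx`
(`D = 2k`, `L = max (2N+k) (2k)`; take `L = 2N + k` if `k ≤ 2N`, see note) gives
`‖ρ_S - ∑_(m ≤ 2N+k) cf m u^m‖ ≤ C3 (H |u|)^(2N+k+1) ≤ B |V|^(-(2N+k+1))` for suitable `B = C H^c`. The kernel
equation `∑_j rsq g_S (j+k+i+1) q_j = 0` gives `∑_j cf g_S (j+k+i+1) q_j = 0` (`cf = 2 rsq` for `m ≥ 1`), and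
`pade_small`, `pade_big` (applied to `ι ∘ q_S`, `ι ∘ cf g_S`; `ι (P.eval V) = (P.map ι).eval V`) finish.
Note: `hN : k ≤ N` is assumed, so `2k ≤ 2N + k`.
-/

open Polynomial

namespace Pool.Agent.Helper36.HD

private theorem Qp_map {A B : Type} [CommRing A] [CommRing B] (τ : A →+* B) {N : ℕ}
    (q : Fin (N + 1) → A) : (Qp q).map τ = Qp (fun j => τ (q j)) := by
  simp only [Qp, Polynomial.map_sum, Polynomial.map_mul, Polynomial.map_C, Polynomial.map_pow,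
    Polynomial.map_X]

private theorem Pp_map {A B : Type} [CommRing A] [CommRing B] (τ : A →+* B) {N : ℕ}
    (q : Fin (N + 1) → A) (c : ℕ → A) (k : ℕ) :
    (Pp q c k).map τ = Pp (fun j => τ (q j)) (fun m => τ (c m)) k := by
  simp only [Pp, Polynomial.map_sum, Polynomial.map_mul, Polynomial.map_C, Polynomial.map_pow,
    Polynomial.map_X, map_mul]

private theorem Qp_coeff {A : Type} [CommRing A] {N : ℕ} (q : Fin (N + 1) → A) (i : ℕ) :
    (Qp q).coeff i = ∑ j : Fin (N + 1), if i = j.1 then q j else 0 := by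
  simp only [Qp, Polynomial.finsetSum_coeff, Polynomial.coeff_C_mul_X_pow]

private theorem Qp_ne {A : Type} [CommRing A] {N : ℕ} (q : Fin (N + 1) → A)
    (h : ∃ j, q j ≠ 0) : Qp q ≠ 0 := by
  obtain ⟨j, hj⟩ := h
  intro h0
  apply hj
  have h1 : (Qp q).coeff j.1 = 0 := by rw [h0]; simp
  rw [Qp_coeff, Finset.sum_eq_single j] at h1
  · simpa using h1
  · intro b _ hb
    rw [if_neg]
    intro h2
    exact hb (Fin.ext h2.symm)
  · intro h2
    exact absurd (Finset.mem_univ _) h2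

private theorem coeff_integral_mon {A : Type} [CommRing A] (a : A) (ha : IsIntegral ℤ a)
    (n i : ℕ) : IsIntegral ℤ ((C a * X ^ n : A[X]).coeff i) := by
  rw [Polynomial.coeff_C_mul_X_pow]
  split_ifs
  · exact ha
  · exact isIntegral_zero

private theorem Qp_integral {A : Type} [CommRing A] {N : ℕ} (q : Fin (N + 1) → A)
    (hq : ∀ j, IsIntegral ℤ (q j)) (i : ℕ) : IsIntegral ℤ ((Qp q).coeff i) := by
  rw [Qp, Polynomial.finsetSum_coeff]
  exact IsIntegral.sum _ (fun j _ => coeff_integral_mon _ (hq j) _ _)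

private theorem Pp_integral {A : Type} [CommRing A] {N : ℕ} (q : Fin (N + 1) → A) (c : ℕ → A)
    (k : ℕ) (hq : ∀ j, IsIntegral ℤ (q j)) (hc : ∀ m, IsIntegral ℤ (c m)) (i : ℕ) :
    IsIntegral ℤ ((Pp q c k).coeff i) := by
  rw [Pp, Polynomial.finsetSum_coeff]
  refine IsIntegral.sum _ (fun j _ => ?_)
  rw [Polynomial.finsetSum_coeff]
  exact IsIntegral.sum _ (fun m _ => coeff_integral_mon _ ((hq j).mul (hc m)) _ _)

private theorem Qp_deg {A : Type} [CommRing A] {N : ℕ} (q : Fin (N + 1) → A) (k : ℕ) :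
    (Qp q).natDegree ≤ N + k := by
  rw [Qp]
  refine Polynomial.natDegree_sum_le_of_forall_le _ _ (fun j _ => ?_)
  refine (Polynomial.natDegree_C_mul_X_pow_le _ _).trans ?_
  have := j.2
  omega

private theorem Pp_deg {A : Type} [CommRing A] {N : ℕ} (q : Fin (N + 1) → A) (c : ℕ → A)
    (k : ℕ) : (Pp q c k).natDegree ≤ N + k := by
  rw [Pp]
  refine Polynomial.natDegree_sum_le_of_forall_le _ _ (fun j _ => ?_)
  refine Polynomial.natDegree_sum_le_of_forall_le _ _ (fun m _ => ?_)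
  refine (Polynomial.natDegree_C_mul_X_pow_le _ _).trans ?_
  have := j.2
  omega

private theorem Qp_L1 {F : Type} [Field F] (ι : F →+* ℂ) {N : ℕ} (q : Fin (N + 1) → F) (B : ℝ)
    (hq : ∀ j, ‖ι (q j)‖ ≤ B) : L1 ι (Qp q) ≤ ((N : ℝ) + 1) * B := by
  rw [Qp]
  refine (L1_sum ι _ _).trans ?_
  calc ∑ j : Fin (N + 1), L1 ι (C (q j) * X ^ j.1) ≤ ∑ _j : Fin (N + 1), B :=
        Finset.sum_le_sum (fun j _ => (L1_monomial ι _ _).trans (hq j))
    _ = ((N : ℝ) + 1) * B := by simp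

private theorem Pp_L1 {F : Type} [Field F] (ι : F →+* ℂ) {N : ℕ} (q : Fin (N + 1) → F)
    (c : ℕ → F) (k : ℕ) (B : ℝ) (hB : 0 ≤ B) (hq : ∀ j, ‖ι (q j)‖ ≤ B)
    (hc : ∀ m, m ≤ N + k → ‖ι (c m)‖ ≤ B) :
    L1 ι (Pp q c k) ≤ ((N : ℝ) + 1) * ((N : ℝ) + k + 1) * B ^ 2 := by
  rw [Pp]
  refine (L1_sum ι _ _).trans ?_
  have h1 : ∀ j : Fin (N + 1), L1 ι (∑ m ∈ Finset.range (j.1 + k + 1),
      C (q j * c m) * X ^ (j.1 + k - m)) ≤ ((N : ℝ) + k + 1) * B ^ 2 := by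
    intro j
    refine (L1_sum ι _ _).trans ?_
    calc ∑ m ∈ Finset.range (j.1 + k + 1), L1 ι (C (q j * c m) * X ^ (j.1 + k - m))
          ≤ ∑ m ∈ Finset.range (j.1 + k + 1), B ^ 2 := by
            refine Finset.sum_le_sum (fun m hm => (L1_monomial ι _ _).trans ?_)
            rw [map_mul, norm_mul, sq]
            have := j.2
            have h2 := Finset.mem_range.1 hm
            exact mul_le_mul (hq j) (hc m (by omega)) (norm_nonneg _) hB
      _ = ((j.1 : ℝ) + k + 1) * B ^ 2 := by simp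
      _ ≤ ((N : ℝ) + k + 1) * B ^ 2 := by
            have h3 : (j.1 : ℝ) ≤ N := by exact_mod_cast Nat.lt_succ_iff.1 j.2
            exact mul_le_mul_of_nonneg_right (by linarith) (sq_nonneg B)
  calc ∑ j : Fin (N + 1), L1 ι (∑ m ∈ Finset.range (j.1 + k + 1),
        C (q j * c m) * X ^ (j.1 + k - m)) ≤ ∑ _j : Fin (N + 1), ((N : ℝ) + k + 1) * B ^ 2 :=
        Finset.sum_le_sum (fun j _ => h1 j)
    _ = ((N : ℝ) + 1) * ((N : ℝ) + k + 1) * B ^ 2 := by simp; ring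

private theorem prod_near {R : Type} (S : Finset R) (ρ : R → ℂ) (δ : ℝ) (hδ : 0 ≤ δ)
    (h : ∀ i, ‖ρ i - 1‖ ≤ δ) : ((S.card : ℕ) : ℝ) * δ ≤ 1 / 4 →
    ‖∏ i ∈ S, ρ i - 1‖ ≤ 2 * ((S.card : ℕ) : ℝ) * δ := by
  classical
  induction S using Finset.induction_on with
  | empty => intro _; simp
  | insert a s ha ih =>
    intro hc
    rw [Finset.card_insert_of_notMem ha] at hc ⊢
    push_cast at hc ⊢
    have h1 : (s.card : ℝ) * δ ≤ 1 / 4 := by nlinarith
    have h2 := ih h1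
    rw [Finset.prod_insert ha]
    have h3 : ρ a * ∏ i ∈ s, ρ i - 1 = (ρ a - 1) * (∏ i ∈ s, ρ i - 1) + (ρ a - 1)
        + (∏ i ∈ s, ρ i - 1) := by ring
    rw [h3]
    have h4 : ‖(ρ a - 1) * (∏ i ∈ s, ρ i - 1)‖ ≤ δ * (1 / 2) := by
      rw [norm_mul]
      refine mul_le_mul (h a) (h2.trans (by nlinarith)) (norm_nonneg _) hδ
    calc ‖(ρ a - 1) * (∏ i ∈ s, ρ i - 1) + (ρ a - 1) + (∏ i ∈ s, ρ i - 1)‖
        ≤ ‖(ρ a - 1) * (∏ i ∈ s, ρ i - 1)‖ + ‖ρ a - 1‖ + ‖∏ i ∈ s, ρ i - 1‖ := norm_add₃_le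
      _ ≤ δ * (1 / 2) + δ + 2 * (s.card : ℝ) * δ := by
          have := h a
          linarith
      _ ≤ 2 * ((s.card : ℝ) + 1) * δ := by nlinarith

theorem fam (ι : AlgebraicClosure ℚ →+* ℂ) (k N : ℕ) (hN : k ≤ N) :
    ∃ (C : ℝ) (c D : ℕ), 1 ≤ C ∧ ∀ (R : Type) [Fintype R] [DecidableEq R]
      (η : R → AlgebraicClosure ℚ) (H : ℝ), (∀ i, IsIntegral ℤ (η i)) → 1 ≤ H →
      (∀ i, ‖ι (η i)‖ ≤ H) →
      ∃ P Q : Finset R → (AlgebraicClosure ℚ)[X],
        (∀ S i, IsIntegral ℤ ((P S).coeff i)) ∧ (∀ S i, IsIntegral ℤ ((Q S).coeff i)) ∧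
        (∀ (τ : AlgebraicClosure ℚ →+* AlgebraicClosure ℚ) (φ : Equiv.Perm R),
          (∀ i, τ (η i) = η (φ i)) → ∀ S, (P S).map τ = P (S.map φ.toEmbedding) ∧
            (Q S).map τ = Q (S.map φ.toEmbedding)) ∧
        (∀ S, Q S ≠ 0) ∧ (∀ S, (P S).natDegree ≤ D ∧ (Q S).natDegree ≤ D) ∧
        (∀ S, S.card = 2 * k → L1 ι (P S) ≤ C * H ^ c ∧ L1 ι (Q S) ≤ C * H ^ c) ∧
        (∀ S, S.card = 2 * k → ∀ (V : ℤ) (ρ : R → ℂ),
          (∀ i, ρ i ^ 2 = 1 - 4 * ι (η i) * ((V : ℂ))⁻¹) → (∀ i, ‖ρ i - 1‖ ≤ 4 * H / |(V : ℝ)|) →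
          C * H ^ c < |(V : ℝ)| →
          ‖ι ((P S).eval (V : AlgebraicClosure ℚ)) -
              ι ((Q S).eval (V : AlgebraicClosure ℚ)) * ((V : ℂ) ^ k * ∏ i ∈ S, ρ i)‖ ≤
            C * H ^ c * (|(V : ℝ)|⁻¹) ^ (N + 1) ∧
          ‖ι ((P S).eval (V : AlgebraicClosure ℚ))‖ +
              ‖ι ((Q S).eval (V : AlgebraicClosure ℚ)) * ((V : ℂ) ^ k * ∏ i ∈ S, ρ i)‖ ≤
            C * H ^ c * |(V : ℝ)| ^ (N + k)) := by
  obtain ⟨K0, hK1, hK2, hK3, hK4, hK5⟩ := exists_kernel (F := AlgebraicClosure ℚ) N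
  obtain ⟨b1, hb1, hb1'⟩ := rsq_bound ((2 : ℝ) ^ (2 * k))
  obtain ⟨b2, hb2, hb2'⟩ := cf_bound ((2 : ℝ) ^ (2 * k))
  obtain ⟨Ca, hCa, hCa'⟩ := approx ((2 : ℝ) ^ (2 * k)) (2 * k) (2 * N + k) (by omega)
  obtain ⟨Cs, hCs, hCs'⟩ := pade_small N k
  obtain ⟨Cb, hCb, hCb'⟩ := pade_big N k
  set L : ℕ := 2 * N + k with hL
  set B0 : ℝ := 1 + ∑ m ∈ Finset.range (L + 1), b1 m + ∑ m ∈ Finset.range (L + 1), b2 m with hB0
  have hs1 : 0 ≤ ∑ m ∈ Finset.range (L + 1), b1 m := Finset.sum_nonneg (fun m _ => hb1 m)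
  have hs2 : 0 ≤ ∑ m ∈ Finset.range (L + 1), b2 m := Finset.sum_nonneg (fun m _ => hb2 m)
  have hB01 : 1 ≤ B0 := by rw [hB0]; linarith
  have hb1B : ∀ m, m ≤ L → b1 m ≤ B0 := by
    intro m hm
    have := Finset.single_le_sum (f := b1) (s := Finset.range (L + 1)) (fun i _ => hb1 i)
      (Finset.mem_range.2 (by omega : m < L + 1))
    rw [hB0]; linarith
  have hb2B : ∀ m, m ≤ L → b2 m ≤ B0 := by
    intro m hm
    have := Finset.single_le_sum (f := b2) (s := Finset.range (L + 1)) (fun i _ => hb2 i)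
      (Finset.mem_range.2 (by omega : m < L + 1))
    rw [hB0]; linarith
  set K : ℝ := (N + 1 : ℝ) * ((N + 1).factorial : ℝ) with hK
  have hK1' : 1 ≤ K := by
    have h1 : (1 : ℝ) ≤ (N + 1 : ℝ) := by
      have : (0 : ℝ) ≤ N := Nat.cast_nonneg N
      linarith
    have h2 : (1 : ℝ) ≤ ((N + 1).factorial : ℝ) := by exact_mod_cast Nat.factorial_pos (N + 1)
    rw [hK]
    nlinarith
  set X0 : ℝ := Ca * K * B0 with hX0
  have hCaK : 1 ≤ Ca * K := one_le_mul_of_one_le_of_one_le hCa hK1'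
  have hX01 : 1 ≤ X0 := one_le_mul_of_one_le_of_one_le hCaK hB01
  have hCaX : Ca ≤ X0 := by
    rw [hX0]; nlinarith [mul_le_mul hCa hK1' zero_le_one (by linarith : (0:ℝ) ≤ Ca)]
  have hKX : K ≤ X0 := by
    rw [hX0]
    calc K = 1 * K * 1 := by ring
      _ ≤ Ca * K * B0 := by gcongr
  have hB0X : B0 ≤ X0 := by
    rw [hX0]
    calc B0 = 1 * B0 := by ring
      _ ≤ Ca * K * B0 := by gcongr
  set M : ℝ := Cs + Cb + ((N : ℝ) + 1) * ((N : ℝ) + k + 1) + 32 * k + 1 with hM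
  have hN0 : (0 : ℝ) ≤ N := Nat.cast_nonneg N
  have hk0 : (0 : ℝ) ≤ k := Nat.cast_nonneg k
  have hNk : 0 ≤ ((N : ℝ) + 1) * ((N : ℝ) + k + 1) := by positivity
  have hM1 : 1 ≤ M := by rw [hM]; nlinarith
  refine ⟨M * X0 ^ (2 * (N + 1)), (L + 1) * (2 * (N + 1)), N + k, ?_, ?_⟩
  · exact one_le_mul_of_one_le_of_one_le hM1 (one_le_pow₀ hX01)
  intro R _ _ η H hη hH hηH
  have hH0 : 0 ≤ H := by linarith
  -- the bound Y
  set Y : ℝ := X0 * H ^ (L + 1) with hY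
  have hHL : 1 ≤ H ^ (L + 1) := one_le_pow₀ hH
  have hY1 : 1 ≤ Y := one_le_mul_of_one_le_of_one_le hX01 hHL
  set B : ℝ := Y ^ (N + 1) with hB
  have hB1 : 1 ≤ B := one_le_pow₀ hY1
  have hYB : Y ≤ B := by
    rw [hB]
    exact le_self_pow₀ hY1 (Nat.succ_ne_zero N)
  have hB2 : B ^ 2 = X0 ^ (2 * (N + 1)) * H ^ ((L + 1) * (2 * (N + 1))) := by
    rw [hB, hY]
    rw [← pow_mul, mul_pow, ← pow_mul]
    ring_nf
  have hCH : M * X0 ^ (2 * (N + 1)) * H ^ ((L + 1) * (2 * (N + 1))) = M * B ^ 2 := by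
    rw [hB2]; ring
  have hBB2 : B ≤ B ^ 2 := le_self_pow₀ hB1 two_ne_zero
  rw [hCH]
  -- bounds for the sequences
  have hg : ∀ (S : Finset R), S.card = 2 * k → ∀ m, ‖ι (gS η S m)‖ ≤ 2 ^ (2 * k) * H ^ m := by
    intro S hS m
    rw [gS_map, ← hS]
    exact gS_bound (fun i => ι (η i)) H hH0 hηH S m
  have hHm : ∀ m, m ≤ L → H ^ m ≤ H ^ (L + 1) := fun m hm =>
    pow_le_pow_right₀ hH (by omega)
  have hBY : B0 * H ^ (L + 1) ≤ Y := by
    rw [hY]; exact mul_le_mul_of_nonneg_right hB0X (by positivity)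
  have hrs : ∀ (S : Finset R), S.card = 2 * k → ∀ m, m ≤ L →
      ‖ι (rsq (gS η S) m)‖ ≤ B0 * H ^ (L + 1) := by
    intro S hS m hm
    rw [rsq_map]
    refine (hb1' (fun m => ι (gS η S m)) H hH0 (hg S hS) m).trans ?_
    exact mul_le_mul (hb1B m hm) (hHm m hm) (by positivity) (by linarith)
  have hcf : ∀ (S : Finset R), S.card = 2 * k → ∀ m, m ≤ L → ‖ι (cf (gS η S) m)‖ ≤ B := by
    intro S hS m hm
    rw [cf_map]
    refine (hb2' (fun m => ι (gS η S m)) H hH0 (hg S hS) m).trans ?_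
    refine (mul_le_mul (hb2B m hm) (hHm m hm) (by positivity) (by linarith)).trans ?_
    exact hBY.trans hYB
  -- the data
  set q : Finset R → Fin (N + 1) → AlgebraicClosure ℚ := fun S =>
    K0 (fun i j => rsq (gS η S) (j.1 + k + i.1 + 1)) with hq
  have hqint : ∀ S j, IsIntegral ℤ (q S j) := by
    intro S j
    exact hK4 _ (fun i j => rsq_integral _ (fun m => gS_integral η hη S m) _) j
  have hcint : ∀ S m, IsIntegral ℤ (cf (gS η S) m) := by
    intro S m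
    exact cf_integral _ (fun m => gS_integral η hη S m) _
  have hqB : ∀ S : Finset R, S.card = 2 * k → ∀ j, ‖ι (q S j)‖ ≤ B := by
    intro S hS j
    have hone : 1 ≤ B0 * H ^ (L + 1) := one_le_mul_of_one_le_of_one_le hB01 hHL
    refine (hK5 ι (B0 * H ^ (L + 1)) hone _ (fun i j => hrs S hS _ (by
      have := i.2; have := j.2; omega)) j).trans ?_
    rw [hB, pow_succ' Y N]
    refine mul_le_mul ?_ (pow_le_pow_left₀ (by linarith) hBY N) (by positivity) (by linarith)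
    refine hKX.trans ?_
    rw [hY]
    nlinarith
  have hqeq : ∀ S : Finset R, ∀ i : Fin N,
      ∑ j : Fin (N + 1), cf (gS η S) (j.1 + k + i.1 + 1) * q S j = 0 := by
    intro S i
    have h1 := hK2 (fun i j => rsq (gS η S) (j.1 + k + i.1 + 1)) i
    have h2 : ∑ j : Fin (N + 1), cf (gS η S) (j.1 + k + i.1 + 1) * q S j =
        2 * ∑ j : Fin (N + 1), rsq (gS η S) (j.1 + k + i.1 + 1) * q S j := by
      rw [Finset.mul_sum]
      refine Finset.sum_congr rfl (fun j _ => ?_)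
      rw [cf, if_neg (Nat.succ_ne_zero _)]
      ring
    rw [h2]
    have h3 : ∑ j : Fin (N + 1), rsq (gS η S) (j.1 + k + i.1 + 1) * q S j = 0 := h1
    rw [h3, mul_zero]
  refine ⟨fun S => Pp (q S) (cf (gS η S)) k, fun S => Qp (q S), ?_, ?_, ?_, ?_, ?_, ?_, ?_⟩
  · intro S i
    exact Pp_integral _ _ k (hqint S) (hcint S) i
  · intro S i
    exact Qp_integral _ (hqint S) i
  · intro τ φ hτ S
    have hgS : (fun m => τ (gS η S m)) = gS η (S.map φ.toEmbedding) := by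
      funext m
      rw [gS_map, ← gS_perm]
      congr 1
      funext i
      exact hτ i
    have hqS : (fun j => τ (q S j)) = q (S.map φ.toEmbedding) := by
      have h1 := hK3 τ (fun i j => rsq (gS η S) (j.1 + k + i.1 + 1))
      rw [hq]
      simp only
      rw [← h1]
      congr 1
      funext i j
      rw [rsq_map, hgS]
    have hcS : (fun m => τ (cf (gS η S) m)) = cf (gS η (S.map φ.toEmbedding)) := by
      funext m
      rw [cf_map, hgS]
    constructor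
    · simp only
      rw [Pp_map, hqS, hcS]
    · simp only
      rw [Qp_map, hqS]
  · intro S
    exact Qp_ne _ (hK1 _)
  · intro S
    exact ⟨Pp_deg _ _ k, Qp_deg _ k⟩
  · intro S hS
    have hMB : ((N : ℝ) + 1) * ((N : ℝ) + k + 1) * B ^ 2 ≤ M * B ^ 2 := by
      refine mul_le_mul_of_nonneg_right ?_ (sq_nonneg B)
      rw [hM]; linarith
    constructor
    · refine (Pp_L1 ι (q S) (cf (gS η S)) k B (by linarith) (hqB S hS)
        (fun m hm => hcf S hS m (by omega))).trans hMB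
    · refine (Qp_L1 ι (q S) B (hqB S hS)).trans (le_trans ?_ hMB)
      have h1 : ((N : ℝ) + 1) ≤ ((N : ℝ) + 1) * ((N : ℝ) + k + 1) := by nlinarith
      exact mul_le_mul h1 hBB2 (by linarith) hNk
  · intro S hS V ρ hρ hρ1 hV
    have hV1 : M * B ^ 2 < |(V : ℝ)| := hV
    have hB21 : 1 ≤ B ^ 2 := one_le_pow₀ hB1
    have hVpos : 1 ≤ |(V : ℝ)| := by nlinarith
    have hVc : ‖(V : ℂ)‖ = |(V : ℝ)| := by
      rw [Complex.norm_intCast]
    have hu : ‖((V : ℂ))⁻¹‖ = |(V : ℝ)|⁻¹ := by rw [norm_inv, hVc]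
    have hHB : H ≤ Y := by
      rw [hY]
      have h1 : H ≤ H ^ (L + 1) := le_self_pow₀ hH (Nat.succ_ne_zero L)
      nlinarith
    have hHB2 : H ≤ B ^ 2 := hHB.trans (hYB.trans hBB2)
    have hVH : 32 * k * H ≤ |(V : ℝ)| := by
      have h1 : 32 * (k : ℝ) * H ≤ M * B ^ 2 := by
        refine mul_le_mul ?_ hHB2 hH0 (by linarith)
        rw [hM]; linarith
      linarith
    have hVCa : Ca * H ≤ |(V : ℝ)| := by
      have h1 : Ca * H ≤ 1 * B ^ 2 := by
        rw [one_mul]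
        have h2 : Ca * H ≤ Y := by
          rw [hY]
          refine mul_le_mul hCaX (le_self_pow₀ hH (Nat.succ_ne_zero L)) hH0 (by linarith)
        exact h2.trans (hYB.trans hBB2)
      have h2 : 1 * B ^ 2 ≤ M * B ^ 2 := mul_le_mul_of_nonneg_right hM1 (by linarith)
      linarith
    set g : ℕ → ℂ := fun m => ι (gS η S m) with hgdef
    have hcg : ∀ m, ι (cf (gS η S) m) = cf g m := fun m => cf_map ι (gS η S) m
    set ρS : ℂ := ∏ i ∈ S, ρ i with hρS
    have hρhalf : ‖ρS - 1‖ ≤ 1 / 2 := by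
      have hδ : (0 : ℝ) ≤ 4 * H / |(V : ℝ)| := by positivity
      have hcd : ((S.card : ℕ) : ℝ) * (4 * H / |(V : ℝ)|) ≤ 1 / 4 := by
        rw [hS]
        push_cast
        rw [mul_div_assoc', div_le_iff₀ (by linarith)]
        nlinarith
      refine (prod_near S ρ _ hδ hρ1 hcd).trans ?_
      nlinarith
    have hρsq : ρS ^ 2 = ∑ m ∈ Finset.range (2 * k + 1), 4 ^ m * g m * ((V : ℂ)⁻¹) ^ m := by
      rw [hρS, ← Finset.prod_pow]
      have h1 : ∏ i ∈ S, ρ i ^ 2 = ∏ i ∈ S, (1 - 4 * (fun i => ι (η i)) i * ((V : ℂ))⁻¹) :=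
        Finset.prod_congr rfl (fun i _ => hρ i)
      rw [h1, gS_prod, hS]
      refine Finset.sum_congr rfl (fun m _ => ?_)
      rw [← gS_map]
    have happ := hCa' g H ((V : ℂ)⁻¹) ρS hH (by rw [hgdef]; simp only; rw [gS_zero, map_one])
      (hg S hS) (fun m hm => by
        rw [hgdef]; simp only; rw [gS_big _ _ _ (by omega), map_zero])
      hρsq hρhalf (by
        rw [hu]
        rw [mul_right_comm, ← div_eq_mul_inv, div_le_one (by linarith)]
        linarith)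
    have happ2 : ‖ρS - ∑ m ∈ Finset.range (L + 1), cf g m * ((V : ℂ)⁻¹) ^ m‖ ≤
        B * (‖(V : ℂ)‖⁻¹) ^ (L + 1) := by
      refine happ.trans ?_
      rw [hu, hVc, mul_pow, ← mul_assoc]
      refine mul_le_mul_of_nonneg_right ?_ (by positivity)
      refine le_trans ?_ hYB
      rw [hY]
      exact mul_le_mul_of_nonneg_right hCaX (by positivity)
    have hVn : 1 ≤ ‖(V : ℂ)‖ := by rw [hVc]; exact hVpos
    have hPe : ι ((Pp (q S) (cf (gS η S)) k).eval (V : AlgebraicClosure ℚ)) =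
        (Pp (fun j => ι (q S j)) (cf g) k).eval (V : ℂ) := by
      have h1 : (cf g) = fun m => ι (cf (gS η S) m) := by
        funext m; exact (hcg m).symm
      rw [h1, ← Pp_map]
      rw [← Polynomial.eval₂_at_apply, map_intCast, Polynomial.eval_map]
    have hQe : ι ((Qp (q S)).eval (V : AlgebraicClosure ℚ)) =
        (Qp (fun j => ι (q S j))).eval (V : ℂ) := by
      rw [← Qp_map]
      rw [← Polynomial.eval₂_at_apply, map_intCast, Polynomial.eval_map]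
    have hcB : ∀ m, m ≤ 2 * N + k → ‖cf g m‖ ≤ B := by
      intro m hm
      rw [← hcg]
      exact hcf S hS m hm
    have hker : ∀ i : Fin N, ∑ j : Fin (N + 1), cf g (j.1 + k + i.1 + 1) * ι (q S j) = 0 := by
      intro i
      have h1 := congrArg ι (hqeq S i)
      rw [map_sum, map_zero] at h1
      rw [← h1]
      refine Finset.sum_congr rfl (fun j _ => ?_)
      rw [map_mul, hcg]
    simp only
    rw [hPe, hQe]
    constructor
    · have h1 := hCs' (fun j => ι (q S j)) (cf g) B (V : ℂ) ρS hB1 hVn (hqB S hS) hcB hker happ2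
      refine h1.trans ?_
      rw [hVc]
      refine mul_le_mul_of_nonneg_right ?_ (by positivity)
      refine mul_le_mul_of_nonneg_right ?_ (by positivity)
      rw [hM]; linarith
    · have hρ2 : ‖ρS‖ ≤ 2 := by
        have h2 : ‖ρS‖ ≤ ‖ρS - 1‖ + ‖(1 : ℂ)‖ := by
          have := norm_add_le (ρS - 1) 1
          simpa using this
        rw [norm_one] at h2
        linarith
      have h1 := hCb' (fun j => ι (q S j)) (cf g) B (V : ℂ) ρS hB1 hVn (hqB S hS) hcB hρ2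
      refine h1.trans ?_
      rw [hVc]
      refine mul_le_mul_of_nonneg_right ?_ (by positivity)
      refine mul_le_mul_of_nonneg_right ?_ (by positivity)
      rw [hM]; linarith

end Pool.Agent.Helper36.HD
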