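import Mathlib

set_option autoImplicit false

/-!
HD-15 IdealSq. In a number field with odd class number whose totally positive units are squares, a totally positive
integer coprime to its cofactor in a square is a square.

PROOF. The ideals of `𝓞 L` (Dedekind) satisfy `exists_eq_pow_of_mul_eq_pow_of_coprime` (needs a `GCDMonoid` structure on
`Ideal (𝓞 L)`; exists in Mathlib for Dedekind domains, otherwise count prime factors): from
`span α * span β = (span y)^2` and coprimality `span α = I^2`. The class of `I` (`I ≠ 0`) has square 1 and the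
class group has odd order, so it is 1 and `I = span γ`. So `α = u γ^2` with a unit `u` (associated generators).
For every real embedding `φ`, `φ u = φ α / (φ γ)^2 > 0`, so `u = v * v` and `α = (v γ)^2`.
-/

open NumberField

namespace Pool.Agent.Helper36.HD

theorem isSquare_of_odd (L : Type) [Field L] [NumberField L] (hodd : Odd (NumberField.classNumber L))
    (hpos : ∀ u : (𝓞 L)ˣ, (∀ φ : L →+* ℝ, 0 < φ ((u : 𝓞 L) : L)) → IsSquare u)
    (α β y : 𝓞 L) (h : α * β = y ^ 2) (hc : IsCoprime α β) (h0 : α ≠ 0)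
    (hα : ∀ φ : L →+* ℝ, 0 < φ (α : L)) : IsSquare α := by
  classical
  have hcI : IsCoprime (Ideal.span {α}) (Ideal.span {β}) := by
    rw [Ideal.isCoprime_span_singleton_iff]
    exact hc
  have hI : Ideal.span {α} * Ideal.span {β} = (Ideal.span {y}) ^ 2 := by
    rw [Ideal.span_singleton_mul_span_singleton, Ideal.span_singleton_pow, h]
  obtain ⟨I, hI2⟩ := exists_eq_pow_of_mul_eq_pow_of_coprime hcI hI
  have hI0 : I ≠ 0 := by
    intro h1
    rw [h1, zero_pow (by norm_num)] at hI2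
    exact h0 (Ideal.span_singleton_eq_bot.mp hI2)
  have hIm : I ∈ nonZeroDivisors (Ideal (𝓞 L)) := mem_nonZeroDivisors_of_ne_zero hI0
  have hcl : (ClassGroup.mk0 (⟨I, hIm⟩ : nonZeroDivisors (Ideal (𝓞 L)))) ^ 2 = 1 := by
    rw [← map_pow]
    have h1 : (⟨I, hIm⟩ : nonZeroDivisors (Ideal (𝓞 L))) ^ 2 = ⟨I ^ 2, pow_mem hIm 2⟩ := rfl
    rw [h1, ClassGroup.mk0_eq_one_iff, ← hI2]
    exact ⟨⟨α, rfl⟩⟩
  have hcl1 : ClassGroup.mk0 (⟨I, hIm⟩ : nonZeroDivisors (Ideal (𝓞 L))) = 1 := by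
    obtain ⟨k, hk⟩ := hodd
    have h1 : (ClassGroup.mk0 (⟨I, hIm⟩ : nonZeroDivisors (Ideal (𝓞 L)))) ^ (NumberField.classNumber L) = 1 :=
      pow_card_eq_one
    rw [hk, pow_succ, pow_mul, hcl, one_pow, one_mul] at h1
    exact h1
  obtain ⟨⟨γ, hγ⟩⟩ := (ClassGroup.mk0_eq_one_iff hIm).mp hcl1
  have hγ' : I = Ideal.span {γ} := hγ
  rw [hγ', Ideal.span_singleton_pow, Ideal.span_singleton_eq_span_singleton] at hI2
  obtain ⟨u, hu⟩ := hI2.symm
  have hg0 : γ ≠ 0 := by
    intro h1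
    rw [hγ', h1] at hI0
    exact hI0 (by simp)
  have hsq : IsSquare u := by
    refine hpos u ?_
    intro φ
    have h1 := hα φ
    rw [← hu] at h1
    have h2 : φ (((γ ^ 2 * (u : 𝓞 L) : 𝓞 L)) : L) = φ ((γ : 𝓞 L) : L) ^ 2 * φ (((u : 𝓞 L)) : L) := by
      simp only [map_mul, map_pow]
    rw [h2] at h1
    have h3 : φ ((γ : 𝓞 L) : L) ≠ 0 := by
      rw [Ne, map_eq_zero]
      intro h4
      exact hg0 (by exact_mod_cast h4)
    have h4 : 0 < φ ((γ : 𝓞 L) : L) ^ 2 := by positivity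
    exact (pos_iff_pos_of_mul_pos h1).mp h4
  obtain ⟨v, hv⟩ := hsq
  refine ⟨γ * v, ?_⟩
  rw [← hu, hv, Units.val_mul]
  ring

end Pool.Agent.Helper36.HD
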