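import Pool.Agent.Helper36.HD.Defs
import Pool.Agent.Helper36.HD.IdealSq

set_option autoImplicit false

/-!
HD-16 RootField. (a) Coprimality of `x - θ` and its cofactor; (b) Chinese remainder theorem for squares modulo a
separable polynomial.

PROOF. (a) `gcd (f(x), f'(x)) = 1` in `ℤ`: a prime `p` dividing both divides `y^2 = f(x)`, so `p | y`, `p^2 | f(x)`, against
`hR`. So `s f(x) + t f'(x) = 1`. Write `f = C (f(x)) + (X - C x) g` in `ℤ[X]` (`X_sub_C_dvd_sub_C_eval` type lemma),
`g(x) = f'(x)` (differentiate). At an integral root `θ`: `(x - θ) g(θ) = f(x) = y^2`. Also `g(θ) = g(x) + (θ - x) g₁(θ)`.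
With `α = x - θ`, `β = g(θ)`: `1 = s f(x) + t f'(x) = s α β + t (β + α g₁(θ)) = β (s α + t) + α (t g₁(θ))`.
(b) Induction on the factorisation of the squarefree polynomial `F` over `ℚ` (`UniqueFactorizationMonoid.induction_on_coprime`
or over the multiset of normalised factors): a unit is trivial, an irreducible factor is the hypothesis, and for
coprime `G, H` with `G ∣ z₁^2 - u`, `H ∣ z₂^2 - u` take `z = z₁ b H + z₂ a G`, `a G + b H = 1`.
-/

open Polynomial NumberField

namespace Pool.Agent.Helper36.HD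

theorem coprime_cofactor (f : ℤ[X]) (x y : ℤ) (hy : y ^ 2 = f.eval x)
    (hR : ∀ p : ℕ, p.Prime → (p : ℤ) ^ 2 ∣ f.eval x → ¬ (p : ℤ) ∣ f.derivative.eval x)
    (A : Type) [CommRing A] (θ : A) (hθ : aeval θ f = 0) :
    ∃ β : A, ((x : A) - θ) * β = (y : A) ^ 2 ∧ IsCoprime ((x : A) - θ) β := by
  have hcop : IsCoprime (f.eval x) (f.derivative.eval x) := by
    rw [Int.isCoprime_iff_gcd_eq_one]
    by_contra hne
    have hnc : ¬ Nat.Coprime (f.eval x).natAbs (f.derivative.eval x).natAbs := hne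
    rw [Nat.Prime.not_coprime_iff_dvd] at hnc
    obtain ⟨p, hp, h1, h2⟩ := hnc
    have h1' : (p : ℤ) ∣ f.eval x := Int.natCast_dvd.mpr h1
    have h2' : (p : ℤ) ∣ f.derivative.eval x := Int.natCast_dvd.mpr h2
    refine hR p hp ?_ h2'
    rw [← hy] at h1' ⊢
    exact pow_dvd_pow_of_dvd ((Nat.prime_iff_prime_int.mp hp).dvd_of_dvd_pow h1') 2
  obtain ⟨s, t, hst⟩ := hcop
  obtain ⟨g, hg⟩ : X - C x ∣ f - C (f.eval x) := X_sub_C_dvd_sub_C_eval
  obtain ⟨g₁, hg₁⟩ : X - C x ∣ g - C (g.eval x) := X_sub_C_dvd_sub_C_eval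
  have hgx : g.eval x = f.derivative.eval x := by
    have h := congrArg (fun P : ℤ[X] => (derivative P).eval x) hg
    simp only [derivative_sub, derivative_C, derivative_mul, derivative_X, eval_sub, eval_add,
      eval_mul, eval_X, eval_C, sub_self, zero_mul, sub_zero, one_mul,
      add_zero] at h
    exact h.symm
  have e1 : aeval θ (f - C (f.eval x)) = aeval θ ((X - C x) * g) := by rw [hg]
  have e2 : aeval θ (g - C (g.eval x)) = aeval θ ((X - C x) * g₁) := by rw [hg₁]
  rw [map_sub, map_mul, map_sub, hθ, aeval_X, aeval_C, aeval_C, ← hy] at e1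
  rw [map_sub, map_mul, map_sub, aeval_X, aeval_C, aeval_C, hgx] at e2
  simp only [eq_intCast, map_pow] at e1 e2
  have hst' : (s : A) * (y : A) ^ 2 + (t : A) * ((f.derivative.eval x : ℤ) : A) = 1 := by
    rw [← hy] at hst
    have h := congrArg (fun n : ℤ => (n : A)) hst
    push_cast at h
    exact h
  refine ⟨aeval θ g, ?_, ?_⟩
  · linear_combination e1
  · refine ⟨(t : A) * aeval θ g₁, (s : A) * ((x : A) - θ) + (t : A), ?_⟩
    have e3 : ((x : A) - θ) * aeval θ g = (y : A) ^ 2 := by linear_combination e1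
    have e4 : ((f.derivative.eval x : ℤ) : A) = aeval θ g + ((x : A) - θ) * aeval θ g₁ := by
      linear_combination -e2
    rw [e4] at hst'
    linear_combination hst' + (s : A) * e3

theorem crt_sq (F u : ℚ[X]) (hF : F.Separable)
    (h : ∀ q : ℚ[X], Irreducible q → q ∣ F → ∃ z : ℚ[X], q ∣ z ^ 2 - u) :
    ∃ z : ℚ[X], F ∣ z ^ 2 - u := by
  revert hF h
  refine UniqueFactorizationMonoid.induction_on_coprime
    (P := fun F : ℚ[X] => F.Separable →
      (∀ q : ℚ[X], Irreducible q → q ∣ F → ∃ z : ℚ[X], q ∣ z ^ 2 - u) →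
        ∃ z : ℚ[X], F ∣ z ^ 2 - u) F ?_ ?_ ?_ ?_
  · intro hF _
    exact absurd hF not_separable_zero
  · intro x hx _ _
    exact ⟨0, hx.dvd⟩
  · intro p i hp hF h
    have hsq : Squarefree (p ^ i) := hF.squarefree
    rcases Nat.lt_or_ge i 2 with hi | hi
    · interval_cases i
      · exact ⟨0, by rw [pow_zero]; exact one_dvd _⟩
      · rw [pow_one] at h ⊢
        exact h p hp.irreducible dvd_rfl
    · exfalso
      refine hp.not_isUnit (hsq p ?_)
      rw [← sq]
      exact pow_dvd_pow p hi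
  · intro G H hGH ihG ihH hF h
    obtain ⟨a, b, hab⟩ := hF.isCoprime
    obtain ⟨z₁, hz₁⟩ := ihG hF.of_mul_left (fun q hq hd => h q hq (hd.mul_right H))
    obtain ⟨z₂, hz₂⟩ := ihH hF.of_mul_right (fun q hq hd => h q hq (hd.mul_left G))
    refine ⟨z₁ * (b * H) + z₂ * (a * G), ?_⟩
    refine IsCoprime.mul_dvd hF.isCoprime ?_ ?_
    · have e : (z₁ * (b * H) + z₂ * (a * G)) ^ 2 - u =
          G * (a * (z₂ - z₁) * (z₁ * (b * H) + z₂ * (a * G) + z₁)) + (z₁ ^ 2 - u) := by
        have hb : b * H = 1 - a * G := by linear_combination hab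
        rw [hb]; ring
      rw [e]
      exact dvd_add (dvd_mul_right _ _) hz₁
    · have e : (z₁ * (b * H) + z₂ * (a * G)) ^ 2 - u =
          H * (b * (z₁ - z₂) * (z₁ * (b * H) + z₂ * (a * G) + z₂)) + (z₂ ^ 2 - u) := by
        have ha : a * G = 1 - b * H := by linear_combination hab
        rw [ha]; ring
      rw [e]
      exact dvd_add (dvd_mul_right _ _) hz₂

end Pool.Agent.Helper36.HD
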