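import Pool.Agent.Helper36.HD.TransT
import Pool.Agent.Helper36.HD.RootField

set_option autoImplicit false

/-!
HD-17 Family. THEOREM B: the Hall-Lang bound for monic `f` of odd degree satisfying (R) and (H).

PROOF. `n = 1`, `K = ℚ` in `transT` (`2^(d-1)` does not divide 1 as `d ≥ 3`), `C₁', C₂'`. Let `M = Mf f ≥ 1`.
If `|x| ≤ 1 + M` then `log (max |x| 1) ≤ log (2M) = log 2 + log M`. If `x < -(1+M)` then `f(x) < 0` (`neg_of_lt`), against
`y^2 = f(x)`. So `x > 1 + M`. For an irreducible `q ∣ f` over `ℚ` let `L = AdjoinRoot q` (a number field), `θ` its root,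
`aeval θ f = 0`, `ℚ(θ) = L`; `θ` is integral (`f` monic), `α = x - θ ∈ 𝓞 L`, `β` from `coprime_cofactor`
(ring `𝓞 L`, root `⟨θ, _⟩`); `α ≠ 0` (`f(x) ≠ 0` because `real_root_lt`: an integer root would be `< 1 + M`); for
`φ : L → ℝ`, `φ θ` is a real root of `f`, so `φ θ < 1 + M < x` and `φ α > 0`. `isSquare_of_odd`: `x - θ = γ^2`, and
`γ = aeval θ z` with `z : ℚ[X]`, so `q ∣ z^2 - (C x - X)`. `crt_sq` gives `z` with `f ∣ z^2 - (C x - X)` over `ℚ`; apply
`transT` (leading coefficient 1). Take `C₁ = |C₁'| + 1`, `C₂ = |C₂'| + log 2`.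
-/

open Polynomial NumberField

namespace Pool.Agent.Helper36.HD

private theorem exists_field (q : ℚ[X]) (hq : Irreducible q) :
    ∃ (L : Type) (_ : Field L) (_ : NumberField L) (θ : L), aeval θ q = 0 ∧
      IntermediateField.adjoin ℚ {θ} = ⊤ := by
  have : Fact (Irreducible q) := ⟨hq⟩
  refine ⟨AdjoinRoot q, inferInstance, inferInstance, AdjoinRoot.root q, ?_, ?_⟩
  · have e : (DivisionRing.toRatAlgebra : Algebra ℚ (AdjoinRoot q)) = AdjoinRoot.instAlgebra q :=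
      Subsingleton.elim _ _
    rw [e]
    rw [aeval_def]
    exact AdjoinRoot.eval₂_root q
  · have e : (DivisionRing.toRatAlgebra : Algebra ℚ (AdjoinRoot q)) = AdjoinRoot.instAlgebra q :=
      Subsingleton.elim _ _
    rw [e]
    exact IntermediateField.adjoin_root_eq_top q

private theorem dvd_of_root (q p : ℚ[X]) (hq : Irreducible q) (L : Type) [Field L] [NumberField L] (θ : L)
    (h1 : aeval θ q = 0) (h2 : aeval θ p = 0) : q ∣ p := by
  have h3 := minpoly.eq_of_irreducible hq h1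
  have h4 := minpoly.dvd ℚ θ h2
  rw [← h3] at h4
  exact (dvd_mul_right _ _).trans h4

private theorem exists_poly (L : Type) [Field L] [NumberField L] (θ : L)
    (htop : IntermediateField.adjoin ℚ {θ} = ⊤) (γ : L) : ∃ z : ℚ[X], aeval θ z = γ := by
  have h1 : IsAlgebraic ℚ θ := Algebra.IsAlgebraic.isAlgebraic θ
  have h2 := IntermediateField.adjoin_simple_toSubalgebra_of_isAlgebraic h1
  have h3 : γ ∈ (IntermediateField.adjoin ℚ {θ}).toSubalgebra := by
    rw [htop]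
    exact Algebra.mem_top
  rw [h2] at h3
  rw [Algebra.adjoin_singleton_eq_range_aeval] at h3
  obtain ⟨z, hz⟩ := h3
  exact ⟨z, hz⟩

private theorem exists_z (f : ℤ[X]) (hm : f.Monic) (hdeg : 1 ≤ f.natDegree)
    (hsep : (f.map (Int.castRingHom ℚ)).Separable)
    (hR : ∀ (p : ℕ) (m : ℤ), p.Prime → (p : ℤ) ^ 2 ∣ f.eval m → ¬ (p : ℤ) ∣ f.derivative.eval m)
    (hH : ∀ (L : Type) [Field L] [NumberField L] (θ : L), aeval θ f = 0 →
        IntermediateField.adjoin ℚ {θ} = ⊤ →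
        Odd (NumberField.classNumber L) ∧
          ∀ u : (𝓞 L)ˣ, (∀ φ : L →+* ℝ, 0 < φ ((u : 𝓞 L) : L)) → IsSquare u)
    (x y : ℤ) (hy : y ^ 2 = f.eval x) (hx : 1 + (Mf f : ℝ) < x) :
    ∃ z : ℚ[X], f.map (Int.castRingHom ℚ) ∣ z ^ 2 - (C (x : ℚ) - X) := by
  refine crt_sq _ _ hsep fun q hq hqf => ?_
  obtain ⟨L, _, _, θ, h1, htop⟩ := exists_field q hq
  have hθf : aeval θ f = 0 := by
    obtain ⟨w, hw⟩ := hqf
    have h2 := congrArg (aeval θ) hw
    rw [map_mul, h1, zero_mul] at h2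
    rw [← h2, aeval_def, aeval_def, eval₂_map]
    congr 1
    exact RingHom.ext_int _ _
  obtain ⟨hodd, hpos⟩ := hH L θ hθf htop
  have hint : IsIntegral ℤ θ := ⟨f, hm, by rw [← aeval_def]; exact hθf⟩
  obtain ⟨θ', hcoe⟩ : ∃ θ' : 𝓞 L, algebraMap (𝓞 L) L θ' = θ := ⟨⟨θ, hint⟩, rfl⟩
  have hsub : algebraMap (𝓞 L) L ((x : 𝓞 L) - θ') = (x : L) - θ := by
    rw [map_sub, map_intCast, hcoe]
  have hθ'f : aeval θ' f = 0 := by
    have h2 : algebraMap (𝓞 L) L (aeval θ' f) = aeval θ f := by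
      have h3 := Polynomial.aeval_algebraMap_apply L θ' f
      rw [hcoe] at h3
      exact h3.symm
    rw [hθf] at h2
    exact (map_eq_zero_iff _ (FaithfulSMul.algebraMap_injective (𝓞 L) L)).mp h2
  obtain ⟨β, hβ, hco⟩ := coprime_cofactor f x y hy (fun p hp => hR p x hp) (𝓞 L) θ' hθ'f
  have hroot : ∀ φ : L →+* ℝ, φ θ < 1 + (Mf f : ℝ) := by
    intro φ
    have h2 : (f.map (Int.castRingHom ℝ)).eval (φ θ) = 0 := by
      rw [eval_map]
      have h3 := Polynomial.hom_eval₂ f (algebraMap ℤ L) φ θ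
      rw [← aeval_def, hθf, map_zero] at h3
      rw [h3]
      congr 1
      exact RingHom.ext_int _ _
    exact (le_abs_self _).trans_lt (real_root_lt f hm hdeg _ h2)
  have h0 : ((x : 𝓞 L) - θ') ≠ 0 := by
    intro h2
    have h3 : ((x : ℤ) : L) = θ := by
      rw [h2, map_zero] at hsub
      exact sub_eq_zero.mp hsub.symm
    have h4 : f.eval x = 0 := by
      rw [← h3] at hθf
      have h5 : aeval ((x : ℤ) : L) f = ((f.eval x : ℤ) : L) := by
        have h6 := Polynomial.aeval_algebraMap_apply L (x : ℤ) f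
        simpa using h6
      rw [h5] at hθf
      exact_mod_cast hθf
    have h5 : (f.map (Int.castRingHom ℝ)).eval (x : ℝ) = 0 := by
      rw [eval_map]
      have h6 : eval₂ (Int.castRingHom ℝ) ((x : ℤ) : ℝ) f = ((f.eval x : ℤ) : ℝ) :=
        Polynomial.eval₂_at_apply (Int.castRingHom ℝ) x
      rw [h6, h4, Int.cast_zero]
    have h6 := (le_abs_self _).trans_lt (real_root_lt f hm hdeg _ h5)
    linarith
  have hpos' : ∀ φ : L →+* ℝ, 0 < φ (((x : 𝓞 L) - θ' : 𝓞 L) : L) := by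
    intro φ
    have h2 : φ (algebraMap (𝓞 L) L ((x : 𝓞 L) - θ')) = (x : ℝ) - φ θ := by
      rw [hsub, map_sub, map_intCast]
    have h3 := hroot φ
    have h4 : 0 < φ (algebraMap (𝓞 L) L ((x : 𝓞 L) - θ')) := by
      rw [h2]
      linarith
    exact h4
  obtain ⟨γ, hγ⟩ := isSquare_of_odd L hodd hpos _ β (y : 𝓞 L) hβ hco h0 hpos'
  obtain ⟨z, hz⟩ := exists_poly L θ htop (algebraMap (𝓞 L) L γ)
  refine ⟨z, dvd_of_root q _ hq L θ h1 ?_⟩
  have h2 : (x : L) - θ = algebraMap (𝓞 L) L γ * algebraMap (𝓞 L) L γ := by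
    rw [← hsub, hγ, map_mul]
  rw [map_sub, map_pow, hz, map_sub, aeval_C, aeval_X]
  have h3 : algebraMap ℚ L (x : ℚ) = (x : L) := by simp
  rw [h3, h2]
  ring

theorem family (d : ℕ) (h3 : 3 ≤ d) (hd : Odd d) :
    ∃ C₁ C₂ : ℝ, ∀ f : ℤ[X], f.Monic → f.natDegree = d →
      (f.map (Int.castRingHom ℚ)).Separable →
      (∀ (p : ℕ) (m : ℤ), p.Prime → (p : ℤ) ^ 2 ∣ f.eval m → ¬ (p : ℤ) ∣ f.derivative.eval m) →
      (∀ (L : Type) [Field L] [NumberField L] (θ : L), aeval θ f = 0 →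
        IntermediateField.adjoin ℚ {θ} = ⊤ →
        Odd (NumberField.classNumber L) ∧
          ∀ u : (𝓞 L)ˣ, (∀ φ : L →+* ℝ, 0 < φ ((u : 𝓞 L) : L)) → IsSquare u) →
      ∀ x y : ℤ, y ^ 2 = f.eval x →
        Real.log (max |(x : ℝ)| 1) ≤ C₁ * Real.log (max (Mf f : ℝ) 1) + C₂ := by
  have hn : ¬ 2 ^ (d - 1) ∣ 1 := by
    intro h
    have h1 := Nat.le_of_dvd one_pos h
    have h2 : 2 ^ 1 ≤ 2 ^ (d - 1) := Nat.pow_le_pow_right (by norm_num) (by omega)
    omega
  obtain ⟨C₁', C₂', hT⟩ := transT d 1 hn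
  refine ⟨|C₁'| + 1, |C₂'| + Real.log 2, ?_⟩
  intro f hm hfd hsep hR hH x y hy
  have hf0 : f ≠ 0 := hm.ne_zero
  have hM1 : (1 : ℝ) ≤ (Mf f : ℝ) := by exact_mod_cast one_le_Mf f hf0
  have hlM : 0 ≤ Real.log (Mf f : ℝ) := Real.log_nonneg hM1
  have hl2 : 0 ≤ Real.log 2 := Real.log_nonneg (by norm_num)
  rw [max_eq_left hM1]
  have ha1 := abs_nonneg C₁'
  have ha2 := abs_nonneg C₂'
  by_cases hx : |(x : ℝ)| ≤ 1 + (Mf f : ℝ)
  · have h1 : max |(x : ℝ)| 1 ≤ 2 * (Mf f : ℝ) := max_le (by linarith) (by linarith)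
    have h2 : (0 : ℝ) < max |(x : ℝ)| 1 := lt_of_lt_of_le one_pos (le_max_right _ _)
    have h4 := Real.log_le_log h2 h1
    rw [Real.log_mul (by norm_num) (by linarith)] at h4
    nlinarith
  · push Not at hx
    have hxpos : 1 + (Mf f : ℝ) < x := by
      rcases lt_abs.mp hx with h | h
      · exact h
      · exfalso
        have h1 : (x : ℝ) ≤ -(1 + (Mf f : ℝ)) := by linarith
        have h2 := neg_of_lt f hm (by rw [hfd]; exact hd) x h1
        have h4 : 0 ≤ y ^ 2 := sq_nonneg y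
        omega
    obtain ⟨z, hz⟩ := exists_z f hm (by omega) hsep hR hH x y hy hxpos
    have h5 := hT f hfd hsep x ℚ (Module.finrank_self ℚ) ⟨z, by
      rw [hm.leadingCoeff, Int.cast_one, C_1, one_mul]
      exact hz⟩
    rw [max_eq_left hM1] at h5
    have h6 : C₁' * Real.log (Mf f : ℝ) ≤ |C₁'| * Real.log (Mf f : ℝ) :=
      mul_le_mul_of_nonneg_right (le_abs_self _) hlM
    have h7 := le_abs_self C₂'
    linarith

end Pool.Agent.Helper36.HD
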