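import Pool.Agent.Helper36.HD.AbsP
import Pool.Agent.Helper36.HD.RootBound

set_option autoImplicit false

/-!
HD-21 Trans. For a large integer `x` the absolute Galois group of `ℚ` acts transitively on the families
`(± sqrt (a (x - θ)))`, `θ` running over the roots of `f`, taken up to a common sign.

The families are described by sign vectors `v` relative to a given one `z`, normalised by `v r0 = 1`. The
ones in the Galois orbit of `z` form a set `E` of at most `2^(d-1)` elements to which `abs_mainP` applies, so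
`2^(d-1)` divides `card E` and `E` is everything.
-/

open Polynomial

namespace Pool.Agent.Helper36.HD

/-- the type of the roots of `f` in the algebraic closure of `ℚ` -/
abbrev Rt (f : ℤ[X]) : Type := (f.map (Int.castRingHom ℚ)).rootSet (AlgebraicClosure ℚ)

theorem exists_emb : Nonempty (AlgebraicClosure ℚ →+* ℂ) := by
  let A : Algebra ℚ (AlgebraicClosure ℚ) := AlgebraicClosure.instAlgebra ℚ
  have h : Algebra.IsAlgebraic ℚ (AlgebraicClosure ℚ) := AlgebraicClosure.isAlgebraic ℚ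
  exact ⟨(IsAlgClosed.lift (R := ℚ) (S := AlgebraicClosure ℚ) (M := ℂ)).toRingHom⟩

theorem mem_Rt {f : ℤ[X]} (hf : f ≠ 0) {θ : AlgebraicClosure ℚ} (h : aeval θ f = 0) :
    θ ∈ (f.map (Int.castRingHom ℚ)).rootSet (AlgebraicClosure ℚ) := by
  rw [Polynomial.mem_rootSet]
  refine ⟨?_, ?_⟩
  · rwa [Ne, Polynomial.map_eq_zero_iff (by exact Int.cast_injective)]
  · rw [Polynomial.aeval_def, Polynomial.eval₂_map, ← h, Polynomial.aeval_def]
    congr 1

theorem aeval_Rt {f : ℤ[X]} (θ : Rt f) : aeval (θ : AlgebraicClosure ℚ) f = 0 := by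
  have h1 := Polynomial.aeval_eq_zero_of_mem_rootSet θ.2
  rw [Polynomial.aeval_def, Polynomial.eval₂_map] at h1
  rw [← h1, Polynomial.aeval_def]
  congr 1

theorem aeval_equiv {f : ℤ[X]} (τ : AlgebraicClosure ℚ ≃ₐ[ℚ] AlgebraicClosure ℚ)
    {θ : AlgebraicClosure ℚ} (h : aeval θ f = 0) : aeval (τ θ) f = 0 := by
  have h1 := Polynomial.aeval_algHom_apply
    (((τ : AlgebraicClosure ℚ →ₐ[ℚ] AlgebraicClosure ℚ) :
      AlgebraicClosure ℚ →+* AlgebraicClosure ℚ).toIntAlgHom) θ f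
  rw [h, map_zero] at h1
  exact h1

/-- the permutation of the roots induced by `τ` -/
noncomputable def permR (f : ℤ[X]) (hf : f ≠ 0) (τ : AlgebraicClosure ℚ ≃ₐ[ℚ] AlgebraicClosure ℚ) :
    Equiv.Perm (Rt f) where
  toFun θ := ⟨τ θ, mem_Rt hf (aeval_equiv τ (aeval_Rt θ))⟩
  invFun θ := ⟨τ.symm θ, mem_Rt hf (aeval_equiv τ.symm (aeval_Rt θ))⟩
  left_inv θ := Subtype.ext (by simp)
  right_inv θ := Subtype.ext (by simp)

theorem permR_val (f : ℤ[X]) (hf : f ≠ 0) (τ : AlgebraicClosure ℚ ≃ₐ[ℚ] AlgebraicClosure ℚ)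
    (θ : Rt f) : ((permR f hf τ θ : Rt f) : AlgebraicClosure ℚ) = τ θ := rfl

/-- the sign as an algebraic number -/
noncomputable def sg (u : ℤˣ) : AlgebraicClosure ℚ := ((u : ℤ) : AlgebraicClosure ℚ)

theorem sg_mul (u v : ℤˣ) : sg (u * v) = sg u * sg v := by
  simp [sg]

theorem sg_sq (u : ℤˣ) : sg u * sg u = 1 := by
  rw [← sg_mul, Int.units_mul_self]
  simp [sg]

theorem map_sg (τ : AlgebraicClosure ℚ ≃ₐ[ℚ] AlgebraicClosure ℚ) (u : ℤˣ) : τ (sg u) = sg u := by
  simp [sg]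

theorem exists_sg {a b : AlgebraicClosure ℚ} (h : a ^ 2 = b ^ 2) : ∃ u : ℤˣ, a = sg u * b := by
  rcases sq_eq_sq_iff_eq_or_eq_neg.1 h with h | h
  · exact ⟨1, by simp [sg, h]⟩
  · exact ⟨-1, by simp [sg, h]⟩

theorem sg_inj {u v : ℤˣ} {b : AlgebraicClosure ℚ} (hb : b ≠ 0) (h : sg u * b = sg v * b) :
    u = v := by
  have h1 := mul_right_cancel₀ hb h
  simp only [sg] at h1
  exact Units.ext (by exact_mod_cast h1)

/-- normalised sign vectors -/
theorem card_norm {R : Type} [Fintype R] [DecidableEq R] (r0 : R) :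
    Fintype.card {v : R → ℤˣ // v r0 = 1} = 2 ^ (Fintype.card R - 1) := by
  classical
  let e : {v : R → ℤˣ // v r0 = 1} ≃ ({j : R // j ≠ r0} → ℤˣ) :=
    { toFun := fun v j => v.1 j.1
      invFun := fun w => ⟨fun j => if h : j = r0 then 1 else w ⟨j, h⟩, by simp⟩
      left_inv := by
        intro v
        apply Subtype.ext
        funext j
        by_cases h : j = r0
        · subst h
          simp [v.2]
        · simp [h]
      right_inv := by
        intro w
        funext j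
        simp [j.2] }
  rw [Fintype.card_congr e, Fintype.card_fun]
  congr 1
  rw [Fintype.card_subtype_compl, Fintype.card_subtype_eq]

/-- the bound in logarithmic form -/
theorem large_of_log {C M X : ℝ} {c : ℕ} (hC : 1 ≤ C) (hM : 1 ≤ M)
    (h : (c : ℝ) * Real.log (max M 1) + Real.log (C * 2 ^ c) < Real.log (max |X| 1)) :
    C * (2 * M) ^ c < |X| := by
  rw [max_eq_left hM] at h
  have h2c : (1 : ℝ) ≤ 2 ^ c := one_le_pow₀ (by norm_num)
  have h1 : (1 : ℝ) ≤ C * (2 * M) ^ c := by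
    have : (1 : ℝ) ≤ (2 * M) ^ c := one_le_pow₀ (by linarith)
    exact one_le_mul_of_one_le_of_one_le hC this
  have h3 : (c : ℝ) * Real.log M + Real.log (C * 2 ^ c) = Real.log (C * (2 * M) ^ c) := by
    rw [mul_pow, ← mul_assoc, Real.log_mul (x := C * 2 ^ c) (by positivity) (by positivity),
      Real.log_pow]
    ring
  rw [h3] at h
  have h4 := (Real.log_lt_log_iff (by linarith) (by positivity)).1 h
  rcases max_choice |X| 1 with h5 | h5
  · rwa [h5] at h4
  · rw [h5] at h4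
    linarith

theorem transitive (d : ℕ) (hd : 1 ≤ d) :
    ∃ C₁ C₂ : ℝ, ∀ f : ℤ[X], f.natDegree = d → (f.map (Int.castRingHom ℚ)).Separable →
      ∀ x : ℤ, C₁ * Real.log (max (Mf f : ℝ) 1) + C₂ < Real.log (max |(x : ℝ)| 1) →
      (∀ θ : AlgebraicClosure ℚ, aeval θ f = 0 →
        (f.leadingCoeff : AlgebraicClosure ℚ) * ((x : AlgebraicClosure ℚ) - θ) ≠ 0) ∧
      ∀ z z' : AlgebraicClosure ℚ → AlgebraicClosure ℚ,
      (∀ θ, aeval θ f = 0 →
        z θ ^ 2 = (f.leadingCoeff : AlgebraicClosure ℚ) * ((x : AlgebraicClosure ℚ) - θ)) →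
      (∀ θ, aeval θ f = 0 →
        z' θ ^ 2 = (f.leadingCoeff : AlgebraicClosure ℚ) * ((x : AlgebraicClosure ℚ) - θ)) →
      ∃ (τ : AlgebraicClosure ℚ ≃ₐ[ℚ] AlgebraicClosure ℚ) (s : ℤˣ),
        ∀ θ, aeval θ f = 0 → z' (τ θ) = ((s : ℤ) : AlgebraicClosure ℚ) * τ (z θ) := by
  classical
  obtain ⟨ι⟩ := exists_emb
  choose Cm cm hCm hmain using fun m : ℕ => abs_mainP ι m d
  have hS0 : 0 ≤ ∑ m ∈ Finset.range (2 ^ (d - 1) + 1), Cm m :=
    Finset.sum_nonneg fun k _ => le_trans zero_le_one (hCm k)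
  set C : ℝ := 1 + ∑ m ∈ Finset.range (2 ^ (d - 1) + 1), Cm m with hC
  set c : ℕ := 1 + ∑ m ∈ Finset.range (2 ^ (d - 1) + 1), cm m with hc
  have hC1 : 1 ≤ C := by rw [hC]; linarith
  refine ⟨(c : ℝ), Real.log (C * 2 ^ c), ?_⟩
  intro f hfd hsep x hlarge
  have hf0 : f ≠ 0 := by
    rintro rfl
    simp at hfd
    omega
  have ha : f.leadingCoeff ≠ 0 := Polynomial.leadingCoeff_ne_zero.2 hf0
  have haΩ : (f.leadingCoeff : AlgebraicClosure ℚ) ≠ 0 := by exact_mod_cast ha
  have hM1 : 1 ≤ Mf f := one_le_Mf f hf0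
  have hM : (1 : ℝ) ≤ (Mf f : ℝ) := by exact_mod_cast hM1
  have hbig := large_of_log hC1 hM hlarge
  have ha1 : (1 : ℝ) ≤ |(f.leadingCoeff : ℝ)| := by
    exact_mod_cast Int.one_le_abs ha
  have h2M : (1 : ℝ) ≤ 2 * (Mf f : ℝ) := by linarith
  have hcardR : Fintype.card (Rt f) = d := by
    rw [Polynomial.card_rootSet_eq_natDegree hsep (IsAlgClosed.splits _),
      Polynomial.natDegree_map_eq_of_injective (by exact Int.cast_injective), hfd]
  have hne : Nonempty (Rt f) := Fintype.card_pos_iff.1 (by rw [hcardR]; omega)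
  obtain ⟨r0⟩ := hne
  -- bounds for the roots
  have hη : ∀ θ : Rt f, ‖ι ((f.leadingCoeff : AlgebraicClosure ℚ) * θ)‖ ≤ 2 * (Mf f : ℝ) := by
    intro θ
    have h1 := aeval_Rt θ
    have h2 : (f.map (Int.castRingHom ℂ)).eval (ι θ) = 0 := by
      rw [Polynomial.eval_map]
      have h3 := Polynomial.hom_eval₂ f (algebraMap ℤ (AlgebraicClosure ℚ)) ι (θ : AlgebraicClosure ℚ)
      rw [← Polynomial.aeval_def, h1, map_zero] at h3
      rw [h3]
      congr 1
      exact RingHom.ext_int _ _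
    have h4 := norm_root_le f (by omega) (ι θ) h2
    rwa [map_mul, map_intCast]
  have hηint : ∀ θ : Rt f, IsIntegral ℤ ((f.leadingCoeff : AlgebraicClosure ℚ) * θ) := by
    intro θ
    have h2 := isIntegral_leadingCoeff_smul f (θ : AlgebraicClosure ℚ) (aeval_Rt θ)
    rwa [Algebra.smul_def, eq_intCast] at h2
  -- z does not vanish
  have hxbig : 2 * (Mf f : ℝ) < |(x : ℝ)| := by
    refine lt_of_le_of_lt ?_ hbig
    have h1 : 2 * (Mf f : ℝ) ≤ (2 * (Mf f : ℝ)) ^ c := by
      have := pow_le_pow_right₀ h2M (show 1 ≤ c by omega)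
      rwa [pow_one] at this
    have h3 : (0 : ℝ) ≤ (2 * (Mf f : ℝ)) ^ c := by positivity
    nlinarith
  have hne0 : ∀ θ : AlgebraicClosure ℚ, aeval θ f = 0 →
      (f.leadingCoeff : AlgebraicClosure ℚ) * ((x : AlgebraicClosure ℚ) - θ) ≠ 0 := by
    intro θ hθ h1
    have h2 : (f.leadingCoeff : AlgebraicClosure ℚ) * x = (f.leadingCoeff : AlgebraicClosure ℚ) * θ := by
      linear_combination h1
    have h3 := hη ⟨θ, mem_Rt hf0 hθ⟩
    simp only at h3
    rw [← h2, map_mul, map_intCast, map_intCast, norm_mul, Complex.norm_intCast,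
      Complex.norm_intCast] at h3
    nlinarith [abs_nonneg (x : ℝ)]
  refine ⟨hne0, ?_⟩
  intro z z' hz hz'
  -- the action on z
  have hu : ∀ (τ : AlgebraicClosure ℚ ≃ₐ[ℚ] AlgebraicClosure ℚ) (j : Rt f),
      ∃ u : ℤˣ, τ (z ((permR f hf0 τ).symm j)) = sg u * z j := by
    intro τ j
    apply exists_sg
    rw [← map_pow, hz _ (aeval_Rt _), hz _ (aeval_Rt _), map_mul, map_intCast, map_sub, map_intCast]
    congr 2
    have h1 := permR_val f hf0 τ ((permR f hf0 τ).symm j)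
    rw [Equiv.apply_symm_apply] at h1
    exact h1.symm
  choose u hu using hu
  have hu' : ∀ (τ : AlgebraicClosure ℚ ≃ₐ[ℚ] AlgebraicClosure ℚ) (i : Rt f),
      τ (z i) = sg (u τ (permR f hf0 τ i)) * z (permR f hf0 τ i) := by
    intro τ i
    have := hu τ (permR f hf0 τ i)
    rwa [Equiv.symm_apply_apply] at this
  -- the normalising sign and the next vector
  let cc : (AlgebraicClosure ℚ ≃ₐ[ℚ] AlgebraicClosure ℚ) → (Rt f → ℤˣ) → ℤˣ := fun τ v =>
    v ((permR f hf0 τ).symm r0) * u τ r0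
  let nx : (AlgebraicClosure ℚ ≃ₐ[ℚ] AlgebraicClosure ℚ) → (Rt f → ℤˣ) → Rt f → ℤˣ := fun τ v j =>
    v ((permR f hf0 τ).symm j) * u τ j * cc τ v
  have hnx0 : ∀ τ v, nx τ v r0 = 1 := by
    intro τ v
    exact Int.units_mul_self _
  have hnx : ∀ τ v (i : Rt f), τ (sg (v i) * z i) =
      sg (cc τ v) * (sg (nx τ v (permR f hf0 τ i)) * z (permR f hf0 τ i)) := by
    intro τ v i
    have e0 : nx τ v (permR f hf0 τ i) = v i * u τ (permR f hf0 τ i) * cc τ v := by
      simp only [nx]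
      rw [Equiv.symm_apply_apply]
    have e1 : sg (nx τ v (permR f hf0 τ i)) =
        sg (v i) * sg (u τ (permR f hf0 τ i)) * sg (cc τ v) := by
      rw [e0, sg_mul, sg_mul]
    rw [map_mul, map_sg, hu' τ i, e1]
    linear_combination (-(sg (v i) * sg (u τ (permR f hf0 τ i)) * z (permR f hf0 τ i))) *
      (sg_sq (cc τ v))
  let P : (Rt f → ℤˣ) → Prop := fun v =>
    ∃ (τ : AlgebraicClosure ℚ ≃ₐ[ℚ] AlgebraicClosure ℚ) (s : ℤˣ),
      ∀ i : Rt f, τ (z i) = sg s * (sg (v (permR f hf0 τ i)) * z (permR f hf0 τ i))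
  have hPnx : ∀ τ v, P v → P (nx τ v) := by
    rintro τ v ⟨τ1, s, h⟩
    refine ⟨τ1.trans τ, s * cc τ v, fun i => ?_⟩
    have e1 : (τ1.trans τ) (z i) = τ (τ1 (z i)) := rfl
    have e2 : permR f hf0 (τ1.trans τ) i = permR f hf0 τ (permR f hf0 τ1 i) := rfl
    have e3 : sg (s * cc τ v) = sg s * sg (cc τ v) := sg_mul _ _
    rw [e1, e2, h i, map_mul, map_sg, hnx τ v, e3]
    ring
  let E : Type := {v : {v : Rt f → ℤˣ // v r0 = 1} // P v.1}
  have hcardN : Fintype.card {v : Rt f → ℤˣ // v r0 = 1} = 2 ^ (d - 1) := by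
    rw [card_norm r0, hcardR]
  have hcardE : Fintype.card E ≤ 2 ^ (d - 1) := by
    rw [← hcardN]
    exact Fintype.card_subtype_le _
  have hEne : 0 < Fintype.card E := by
    refine Fintype.card_pos_iff.2 ⟨⟨⟨fun _ => 1, rfl⟩, AlgEquiv.refl, 1, fun i => ?_⟩⟩
    have e2 : permR f hf0 AlgEquiv.refl i = i := Subtype.ext rfl
    rw [e2]
    simp [sg]
  have hE2 : EquiP (E := E) (R := Rt f)
      (fun θ => (f.leadingCoeff : AlgebraicClosure ℚ) * θ)
      (fun v θ => 2 * (sg (v.1.1 θ) * z θ)) := by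
    intro τ
    let g : E → E := fun v => ⟨⟨nx τ v.1.1, hnx0 τ _⟩, hPnx τ _ v.2⟩
    have hg : Function.Injective g := by
      intro v w hvw
      have h1 : nx τ v.1.1 = nx τ w.1.1 := congrArg (fun y : E => y.1.1) hvw
      have h2 : ∀ i, v.1.1 i * cc τ v.1.1 = w.1.1 i * cc τ w.1.1 := by
        intro i
        have h3 := congrFun h1 (permR f hf0 τ i)
        simp only [nx] at h3
        rw [Equiv.symm_apply_apply] at h3
        have h4 : v.1.1 i * cc τ v.1.1 * u τ (permR f hf0 τ i) =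
            w.1.1 i * cc τ w.1.1 * u τ (permR f hf0 τ i) := by
          rw [mul_right_comm, h3, mul_right_comm]
        exact mul_right_cancel h4
      have h5 : cc τ v.1.1 = cc τ w.1.1 := by
        have := h2 r0
        rwa [v.1.2, w.1.2, one_mul, one_mul] at this
      apply Subtype.ext
      apply Subtype.ext
      funext i
      have := h2 i
      rw [h5] at this
      exact mul_right_cancel this
    refine ⟨Equiv.ofBijective g (Finite.injective_iff_bijective.1 hg), permR f hf0 τ,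
      fun v => sg (cc τ v.1.1), fun v => ?_, fun i => ?_, fun v i => ?_⟩
    · rw [pow_two, sg_sq]
    · rw [map_mul, map_intCast]
      rfl
    · have e1 := hnx τ v.1.1 i
      rw [map_mul, e1, map_ofNat]
      simp only [Equiv.ofBijective_apply, g]
      ring
  have hdvd : 2 ^ (d - 1) ∣ Fintype.card E := by
    refine hmain (Fintype.card E) E (Rt f) rfl hcardR
      (fun θ => (f.leadingCoeff : AlgebraicClosure ℚ) * θ)
      (fun v θ => 2 * (sg (v.1.1 θ) * z θ)) (4 * f.leadingCoeff * x) (2 * (Mf f : ℝ))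
      ?_ hηint h2M hη ?_ hE2 ?_
    · intro θ θ' h
      exact Subtype.ext (mul_left_cancel₀ haΩ h)
    · intro v θ
      have h1 := hz θ (aeval_Rt θ)
      have h2 := sg_sq (v.1.1 θ)
      push_cast
      linear_combination 4 * (sg (v.1.1 θ) * sg (v.1.1 θ)) * h1 + 4 *
        ((f.leadingCoeff : AlgebraicClosure ℚ) * ((x : AlgebraicClosure ℚ) - θ)) * h2
    · have hm : Fintype.card E ∈ Finset.range (2 ^ (d - 1) + 1) := by
        rw [Finset.mem_range]; omega
      have h1 : Cm (Fintype.card E) ≤ C := by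
        have := Finset.single_le_sum (f := Cm) (fun k _ => le_trans zero_le_one (hCm k)) hm
        rw [hC]; linarith
      have h2 : cm (Fintype.card E) ≤ c := by
        have := Finset.single_le_sum (f := cm) (fun k _ => Nat.zero_le _) hm
        omega
      have h3 : Cm (Fintype.card E) * (2 * (Mf f : ℝ)) ^ cm (Fintype.card E) ≤
          C * (2 * (Mf f : ℝ)) ^ c :=
        mul_le_mul h1 (pow_le_pow_right₀ h2M h2) (by positivity) (by linarith)
      have h4 : |((4 * f.leadingCoeff * x : ℤ) : ℝ)| = 4 * |(f.leadingCoeff : ℝ)| * |(x : ℝ)| := by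
        push_cast
        rw [abs_mul, abs_mul]
        norm_num
      rw [h4]
      have h5 : (0 : ℝ) ≤ |(x : ℝ)| := abs_nonneg _
      nlinarith
  have hall : ∀ v : {v : Rt f → ℤˣ // v r0 = 1}, P v.1 := by
    by_contra hno
    push Not at hno
    obtain ⟨v, hv⟩ := hno
    have h1 : Fintype.card E < Fintype.card {v : Rt f → ℤˣ // v r0 = 1} :=
      Fintype.card_subtype_lt hv
    have h2 := Nat.le_of_dvd hEne hdvd
    omega
  -- the other family
  have hu2 : ∀ i : Rt f, ∃ w : ℤˣ, z' i = sg w * z i := by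
    intro i
    apply exists_sg
    rw [hz _ (aeval_Rt _), hz' _ (aeval_Rt _)]
  choose w hw using hu2
  obtain ⟨τ, s, hτ⟩ := hall ⟨fun i => w i * w r0, Int.units_mul_self _⟩
  refine ⟨τ, s * w r0, fun θ hθ => ?_⟩
  have h1 := hτ ⟨θ, mem_Rt hf0 hθ⟩
  have h2 := hw (permR f hf0 τ ⟨θ, mem_Rt hf0 hθ⟩)
  rw [permR_val] at h2
  change z' (τ θ) = sg (s * w r0) * τ (z θ)
  rw [h2]
  have h3 : τ (z θ) = sg s * (sg (w (permR f hf0 τ ⟨θ, mem_Rt hf0 hθ⟩) * w r0) * z (τ θ)) := h1
  rw [h3, sg_mul, sg_mul]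
  linear_combination (-(sg (w (permR f hf0 τ ⟨θ, mem_Rt hf0 hθ⟩)) * z (τ θ)) *
    (sg (w r0) * sg (w r0))) * (sg_sq s) - (sg (w (permR f hf0 τ ⟨θ, mem_Rt hf0 hθ⟩)) * z (τ θ)) *
    (sg_sq (w r0))

end Pool.Agent.Helper36.HD
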