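import Pool.Agent.Helper36.HD.Trans

set_option autoImplicit false

/-!
HD-22 Unif. The version over number fields with constants depending only on `d`: if `a (x - θ)` is a square in
`K[X]/(f)` and `2^(d-1)` does not divide `[K : ℚ]` then the bound holds. The embeddings of `K` map onto the
normalised sign vectors, all fibres have the same number of elements by transitivity.
-/

open Polynomial

namespace Pool.Agent.Helper36.HD

/-- composition with `τ` as a permutation of the embeddings -/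
noncomputable def permE (K : Type) [Field K] [NumberField K] (τ : AlgebraicClosure ℚ ≃ₐ[ℚ] AlgebraicClosure ℚ) :
    Equiv.Perm (K →ₐ[ℚ] AlgebraicClosure ℚ) where
  toFun σ := (τ : AlgebraicClosure ℚ →ₐ[ℚ] AlgebraicClosure ℚ).comp σ
  invFun σ := (τ.symm : AlgebraicClosure ℚ →ₐ[ℚ] AlgebraicClosure ℚ).comp σ
  left_inv σ := by
    ext y
    simp
  right_inv σ := by
    ext y
    simp

theorem eval_sq {f : ℤ[X]} {θ : AlgebraicClosure ℚ} {x : ℤ} {K : Type} [Field K] [NumberField K]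
    (h : aeval θ f = 0) (z : K[X])
    (hz : f.map (Int.castRingHom K) ∣ z ^ 2 - C (f.leadingCoeff : K) * (C (x : K) - X))
    (σ : K →ₐ[ℚ] AlgebraicClosure ℚ) :
    (z.eval₂ (σ : K →+* AlgebraicClosure ℚ) θ) ^ 2 =
      (f.leadingCoeff : AlgebraicClosure ℚ) * ((x : AlgebraicClosure ℚ) - θ) := by
  obtain ⟨w, hw⟩ := hz
  have h1 := congrArg (Polynomial.eval₂ (σ : K →+* AlgebraicClosure ℚ) θ) hw
  have h2 : (f.map (Int.castRingHom K)).eval₂ (σ : K →+* AlgebraicClosure ℚ) θ = 0 := by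
    rw [Polynomial.eval₂_map, ← h, Polynomial.aeval_def]
    congr 1
    exact RingHom.ext_int _ _
  rw [Polynomial.eval₂_mul, h2, zero_mul, Polynomial.eval₂_sub, Polynomial.eval₂_pow, Polynomial.eval₂_mul,
    Polynomial.eval₂_sub, Polynomial.eval₂_C, Polynomial.eval₂_C, Polynomial.eval₂_X] at h1
  simp only [map_intCast] at h1
  linear_combination h1

theorem eval_perm {K : Type} [Field K] [NumberField K] (z : K[X])
    (τ : AlgebraicClosure ℚ ≃ₐ[ℚ] AlgebraicClosure ℚ) (σ : K →ₐ[ℚ] AlgebraicClosure ℚ)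
    (θ : AlgebraicClosure ℚ) :
    z.eval₂ ((permE K τ σ : K →ₐ[ℚ] AlgebraicClosure ℚ) : K →+* AlgebraicClosure ℚ) (τ θ) =
      τ (z.eval₂ (σ : K →+* AlgebraicClosure ℚ) θ) := by
  have h1 := Polynomial.hom_eval₂ z (σ : K →+* AlgebraicClosure ℚ)
    ((τ : AlgebraicClosure ℚ →ₐ[ℚ] AlgebraicClosure ℚ) : AlgebraicClosure ℚ →+* AlgebraicClosure ℚ) θ
  exact h1.symm

theorem unif (d : ℕ) (hd : 1 ≤ d) (C₁ C₂ : ℝ)
    (htr : ∀ f : ℤ[X], f.natDegree = d → (f.map (Int.castRingHom ℚ)).Separable →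
      ∀ x : ℤ, C₁ * Real.log (max (Mf f : ℝ) 1) + C₂ < Real.log (max |(x : ℝ)| 1) →
      (∀ θ : AlgebraicClosure ℚ, aeval θ f = 0 →
        (f.leadingCoeff : AlgebraicClosure ℚ) * ((x : AlgebraicClosure ℚ) - θ) ≠ 0) ∧
      ∀ z z' : AlgebraicClosure ℚ → AlgebraicClosure ℚ,
      (∀ θ, aeval θ f = 0 →
        z θ ^ 2 = (f.leadingCoeff : AlgebraicClosure ℚ) * ((x : AlgebraicClosure ℚ) - θ)) →
      (∀ θ, aeval θ f = 0 →
        z' θ ^ 2 = (f.leadingCoeff : AlgebraicClosure ℚ) * ((x : AlgebraicClosure ℚ) - θ)) →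
      ∃ (τ : AlgebraicClosure ℚ ≃ₐ[ℚ] AlgebraicClosure ℚ) (s : ℤˣ),
        ∀ θ, aeval θ f = 0 → z' (τ θ) = ((s : ℤ) : AlgebraicClosure ℚ) * τ (z θ)) :
    ∀ f : ℤ[X], f.natDegree = d → (f.map (Int.castRingHom ℚ)).Separable →
      ∀ (x : ℤ) (K : Type) [Field K] [NumberField K], ¬ 2 ^ (d - 1) ∣ Module.finrank ℚ K →
      (∃ z : K[X], f.map (Int.castRingHom K) ∣
        z ^ 2 - C (f.leadingCoeff : K) * (C (x : K) - X)) →
      Real.log (max |(x : ℝ)| 1) ≤ C₁ * Real.log (max (Mf f : ℝ) 1) + C₂ := by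
  classical
  intro f hfd hsep x K _ _ hn hzz
  obtain ⟨z, hz⟩ := hzz
  by_contra hlt
  push Not at hlt
  refine hn ?_
  obtain ⟨hne0, htr⟩ := htr f hfd hsep x hlt
  have hf0 : f ≠ 0 := by
    rintro rfl
    simp at hfd
    omega
  have hcardR : Fintype.card (Rt f) = d := by
    rw [Polynomial.card_rootSet_eq_natDegree hsep (IsAlgClosed.splits _),
      Polynomial.natDegree_map_eq_of_injective (by exact Int.cast_injective), hfd]
  have hne : Nonempty (Rt f) := Fintype.card_pos_iff.1 (by rw [hcardR]; omega)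
  obtain ⟨r0⟩ := hne
  have hcardE : Fintype.card (K →ₐ[ℚ] AlgebraicClosure ℚ) = Module.finrank ℚ K :=
    AlgHom.card ℚ K (AlgebraicClosure ℚ)
  have hEne : Nonempty (K →ₐ[ℚ] AlgebraicClosure ℚ) := by
    refine Fintype.card_pos_iff.1 ?_
    rw [hcardE]
    exact Module.finrank_pos
  obtain ⟨σ0⟩ := hEne
  set Z : (K →ₐ[ℚ] AlgebraicClosure ℚ) → AlgebraicClosure ℚ → AlgebraicClosure ℚ := fun σ θ =>
    z.eval₂ (σ : K →+* AlgebraicClosure ℚ) θ with hZ
  have hZsq : ∀ σ θ, aeval θ f = 0 → Z σ θ ^ 2 =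
      (f.leadingCoeff : AlgebraicClosure ℚ) * ((x : AlgebraicClosure ℚ) - θ) :=
    fun σ θ h => eval_sq h z hz σ
  have hZ0 : ∀ i : Rt f, Z σ0 i ≠ 0 := by
    intro i h0
    have := hZsq σ0 i (aeval_Rt i)
    rw [h0, zero_pow (by norm_num)] at this
    exact hne0 i (aeval_Rt i) this.symm
  have hv : ∀ (σ : K →ₐ[ℚ] AlgebraicClosure ℚ) (i : Rt f), ∃ u : ℤˣ, Z σ i = sg u * Z σ0 i := by
    intro σ i
    apply exists_sg
    rw [hZsq _ _ (aeval_Rt _), hZsq _ _ (aeval_Rt _)]
  choose v hv using hv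
  let N : (K →ₐ[ℚ] AlgebraicClosure ℚ) → {w : Rt f → ℤˣ // w r0 = 1} := fun σ =>
    ⟨fun i => v σ i * v σ r0, Int.units_mul_self _⟩
  have key : ∀ w : {w : Rt f → ℤˣ // w r0 = 1}, Fintype.card {σ // N σ = w} =
      Fintype.card {σ // N σ = ⟨fun _ => 1, rfl⟩} := by
    intro w
    obtain ⟨τ, s, hτ⟩ := htr (Z σ0)
      (fun θ => if h : θ ∈ (f.map (Int.castRingHom ℚ)).rootSet (AlgebraicClosure ℚ) then
        sg (w.1 ⟨θ, h⟩) * Z σ0 θ else 0) (hZsq σ0) (by
          intro θ hθ
          rw [dif_pos (mem_Rt hf0 hθ), ← hZsq σ0 θ hθ]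
          linear_combination (Z σ0 θ ^ 2) * sg_sq (w.1 ⟨θ, mem_Rt hf0 hθ⟩))
    have h1 : ∀ i : Rt f, sg (w.1 (permR f hf0 τ i)) * Z σ0 (permR f hf0 τ i) =
        sg s * τ (Z σ0 i) := by
      intro i
      have h2 := hτ i (aeval_Rt i)
      have hmem : τ (i : AlgebraicClosure ℚ) ∈
          (f.map (Int.castRingHom ℚ)).rootSet (AlgebraicClosure ℚ) := (permR f hf0 τ i).2
      rw [dif_pos hmem] at h2
      exact h2
    have h3 : ∀ σ (i : Rt f), v (permE K τ σ) (permR f hf0 τ i) =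
        v σ i * s * w.1 (permR f hf0 τ i) := by
      intro σ i
      apply sg_inj (hZ0 (permR f hf0 τ i))
      rw [← hv (permE K τ σ) (permR f hf0 τ i)]
      have h4 : Z (permE K τ σ) (permR f hf0 τ i) = τ (Z σ i) := eval_perm z τ σ i
      rw [h4, hv σ i, map_mul, map_sg, sg_mul, sg_mul]
      have h5 := h1 i
      have h6 := sg_sq s
      linear_combination (-(sg (v σ i) * τ (Z σ0 i))) * h6 - sg (v σ i) * sg s * h5
    refine Fintype.card_congr (Equiv.subtypeEquiv (permE K τ) fun σ => ?_).symm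
    constructor
    · intro h
      have h4 : ∀ i, v σ i * v σ r0 = 1 := fun i => congrFun (congrArg Subtype.val h) i
      have h5 : ∀ i, v σ i = v σ r0 := by
        intro i
        have := h4 i
        have h6 := Int.units_mul_self (v σ r0)
        calc v σ i = v σ i * (v σ r0 * v σ r0) := by rw [h6, mul_one]
          _ = (v σ i * v σ r0) * v σ r0 := by rw [mul_assoc]
          _ = v σ r0 := by rw [this, one_mul]
      apply Subtype.ext
      funext j
      obtain ⟨i, rfl⟩ := (permR f hf0 τ).surjective j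
      obtain ⟨i0, hi0⟩ := (permR f hf0 τ).surjective r0
      change v (permE K τ σ) (permR f hf0 τ i) * v (permE K τ σ) r0 = w.1 (permR f hf0 τ i)
      have e1 : v (permE K τ σ) r0 = v σ r0 * s := by
        have := h3 σ i0
        rw [hi0, w.2, mul_one, h5 i0] at this
        exact this
      rw [h3 σ i, e1, h5 i]
      have h6 := Int.units_mul_self (v σ r0 * s)
      calc v σ r0 * s * w.1 (permR f hf0 τ i) * (v σ r0 * s)
          = (v σ r0 * s) * (v σ r0 * s) * w.1 (permR f hf0 τ i) := by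
            rw [mul_right_comm]
        _ = w.1 (permR f hf0 τ i) := by rw [h6, one_mul]
    · intro h
      have h4 : ∀ j, v (permE K τ σ) j * v (permE K τ σ) r0 = w.1 j := fun j =>
        congrFun (congrArg Subtype.val h) j
      have h5 : ∀ i, v σ i * (s * v (permE K τ σ) r0) = 1 := by
        intro i
        have h6 := h4 (permR f hf0 τ i)
        rw [h3 σ i] at h6
        have h7 : v σ i * (s * v (permE K τ σ) r0) * w.1 (permR f hf0 τ i) =
            1 * w.1 (permR f hf0 τ i) := by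
          rw [one_mul]
          calc v σ i * (s * v (permE K τ σ) r0) * w.1 (permR f hf0 τ i)
              = v σ i * s * w.1 (permR f hf0 τ i) * v (permE K τ σ) r0 := by
                rw [← mul_assoc, mul_right_comm]
            _ = w.1 (permR f hf0 τ i) := h6
        exact mul_right_cancel h7
      apply Subtype.ext
      funext i
      change v σ i * v σ r0 = 1
      have e1 := h5 i
      have e2 := h5 r0
      have h6 := Int.units_mul_self (s * v (permE K τ σ) r0)
      calc v σ i * v σ r0 = (v σ i * v σ r0) *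
            ((s * v (permE K τ σ) r0) * (s * v (permE K τ σ) r0)) := by rw [h6, mul_one]
        _ = (v σ i * (s * v (permE K τ σ) r0)) * (v σ r0 * (s * v (permE K τ σ) r0)) := by
            rw [mul_mul_mul_comm]
        _ = 1 := by rw [e1, e2, mul_one]
  have h8 := Fintype.card_congr (Equiv.sigmaFiberEquiv N)
  rw [Fintype.card_sigma] at h8
  rw [← hcardE, ← h8, Finset.sum_congr rfl fun w _ => key w, Finset.sum_const, Finset.card_univ,
    card_norm r0, hcardR, smul_eq_mul]
  exact Dvd.intro _ rfl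

end Pool.Agent.Helper36.HD
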